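import Pool.Agent.Q20.BZ.Stmts

set_option autoImplicit false

/-!
# MP_32694d_nt: assembly
-/

open Polynomial Filter Topology
open scoped Classical

namespace Pool.Agent.Q20.BZ

/-! ### facts about `pol` -/

lemma pol_coeff {R : Type} [CommRing R] {k : ℕ} (a : Fin (k + 1) → R) (i : Fin (k + 1)) : (pol a).coeff (i : ℕ) = a i := by
  unfold pol
  rw [finset_sum_coeff]
  simp only [coeff_C_mul, coeff_X_pow]
  rw [Finset.sum_eq_single i]
  · simp
  · intro j _ hj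
    rw [if_neg (fun h => hj (Fin.ext h.symm)), mul_zero]
  · intro h; exact absurd (Finset.mem_univ _) h

lemma pol_coeff_big {R : Type} [CommRing R] {k : ℕ} (a : Fin (k + 1) → R) (i : ℕ) (hi : k < i) : (pol a).coeff i = 0 := by
  unfold pol
  rw [finset_sum_coeff]
  simp only [coeff_C_mul, coeff_X_pow]
  refine Finset.sum_eq_zero fun j _ => ?_
  rw [if_neg (by have := j.2; omega), mul_zero]

lemma pol_natDegree_le {R : Type} [CommRing R] {k : ℕ} (a : Fin (k + 1) → R) : (pol a).natDegree ≤ k := by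
  rw [natDegree_le_iff_coeff_eq_zero]
  intro i hi
  exact pol_coeff_big a i hi

lemma pol_natDegree {k : ℕ} (a : Fin (k + 1) → ℤ) (h : a (Fin.last k) ≠ 0) : (pol a).natDegree = k := by
  refine le_antisymm (pol_natDegree_le a) (le_natDegree_of_ne_zero ?_)
  have := pol_coeff a (Fin.last k)
  rw [Fin.val_last] at this
  rw [this]
  exact h

lemma pol_eq (f : ℤ[X]) (k : ℕ) (h : f.natDegree ≤ k) : pol (fun i : Fin (k + 1) => f.coeff (i : ℕ)) = f := by
  ext i
  rcases lt_or_ge k i with hi | hi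
  · rw [pol_coeff_big _ _ hi, coeff_eq_zero_of_natDegree_lt (by omega)]
  · exact pol_coeff (fun i : Fin (k + 1) => f.coeff (i : ℕ)) ⟨i, by omega⟩

lemma pol_inj {k : ℕ} {a b : Fin (k + 1) → ℤ} (h : pol a = pol b) : a = b := by
  funext i
  rw [← pol_coeff a i, ← pol_coeff b i, h]

/-! ### the sets of polynomials -/

/-- `P_k(H)` -/
def PP (k H : ℕ) : Set ℤ[X] := {f | f.natDegree = k ∧ 0 < f.leadingCoeff ∧ ∀ i, |f.coeff i| ≤ H}

/-- coprime -/
def Co (f g : ℤ[X]) : Prop := ∀ z : ℂ, ¬ (aeval z f = 0 ∧ aeval z g = 0)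

lemma mem_V {k H : ℕ} (a : Fin (k + 1) → ℤ) : a ∈ V k H ↔ 0 < a (Fin.last k) ∧ ∀ i, |a i| ≤ H := by
  unfold V
  rw [Fintype.mem_piFinset]
  constructor
  · intro h
    have h1 := h (Fin.last k)
    rw [if_pos rfl, Finset.mem_Icc] at h1
    refine ⟨by omega, fun i => ?_⟩
    have h2 := h i
    split_ifs at h2 with hi
    · rw [Finset.mem_Icc] at h2
      rw [abs_le]; omega
    · rw [Finset.mem_Icc] at h2
      rw [abs_le]; omega
  · rintro ⟨h1, h2⟩ i
    have h3 := abs_le.1 (h2 i)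
    split_ifs with hi
    · rw [Finset.mem_Icc]
      subst hi
      omega
    · rw [Finset.mem_Icc]
      exact h3

lemma mem_PP {k H : ℕ} (f : ℤ[X]) (_hk : 1 ≤ k) : f ∈ PP k H ↔ ∃ a ∈ V k H, pol a = f := by
  unfold PP
  constructor
  · rintro ⟨h1, h2, h3⟩
    refine ⟨fun i => f.coeff i, ?_, pol_eq f k h1.le⟩
    rw [mem_V]
    refine ⟨?_, fun i => h3 i⟩
    rw [Fin.val_last, ← h1]
    exact h2
  · rintro ⟨a, ha, rfl⟩
    rw [mem_V] at ha
    have hd := pol_natDegree a ha.1.ne'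
    refine ⟨hd, ?_, fun i => ?_⟩
    · unfold leadingCoeff
      rw [hd]
      have := pol_coeff a (Fin.last k)
      rw [Fin.val_last] at this
      rw [this]
      exact ha.1
    · rcases lt_or_ge k i with hi | hi
      · rw [pol_coeff_big _ _ hi]; simp
      · have := pol_coeff a ⟨i, by omega⟩
        simp only at this
        rw [this]
        exact ha.2 _

/-- counting pairs of polynomials by coefficient vectors -/
lemma card_pairs (m n H : ℕ) (hm : 1 ≤ m) (hn : 1 ≤ n) (Q : ℤ[X] → ℤ[X] → Prop) :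
    {x : ℤ[X] × ℤ[X] | x.1 ∈ PP m H ∧ x.2 ∈ PP n H ∧ Q x.1 x.2}.ncard =
      ((BX m n H).filter fun x => Q (pol x.1) (pol x.2)).card := by
  rw [← Set.ncard_coe_finset]
  have himg : {x : ℤ[X] × ℤ[X] | x.1 ∈ PP m H ∧ x.2 ∈ PP n H ∧ Q x.1 x.2} =
      (fun x : W m n ℤ => ((pol x.1, pol x.2) : ℤ[X] × ℤ[X])) '' (((BX m n H).filter fun x => Q (pol x.1) (pol x.2) : Finset _) : Set (W m n ℤ)) := by
    ext ⟨f, g⟩
    simp only [Set.mem_setOf_eq, Set.mem_image, Finset.coe_filter, BX, Finset.mem_product, Prod.mk.injEq]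
    constructor
    · rintro ⟨h1, h2, h3⟩
      obtain ⟨a, ha, rfl⟩ := (mem_PP f hm).1 h1
      obtain ⟨b, hb, rfl⟩ := (mem_PP g hn).1 h2
      exact ⟨(a, b), ⟨⟨ha, hb⟩, h3⟩, rfl, rfl⟩
    · rintro ⟨⟨a, b⟩, ⟨⟨ha, hb⟩, h3⟩, rfl, rfl⟩
      exact ⟨(mem_PP _ hm).2 ⟨a, ha, rfl⟩, (mem_PP _ hn).2 ⟨b, hb, rfl⟩, h3⟩
  rw [himg, Set.ncard_image_of_injective]
  rintro ⟨a, b⟩ ⟨a', b'⟩ h
  simp only [Prod.mk.injEq] at h
  exact Prod.ext (pol_inj h.1) (pol_inj h.2)

/-- all statements together give the limit -/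
theorem assemble (hAlg : TaskAlg) (hOrder : TaskOrder) (hIndex : TaskIndex) (hGlobal : TaskGlobal) (hBez : TaskBezout)
    (hMC : TaskMonicCount) (hMB : TaskMonicBad) (hEx : TaskExact) (hSp : TaskSplit) (hGC : TaskGoodCount)
    (hClass : TaskClass) (hSmall : TaskSmall) (hEqui : TaskEqui) (hCRT : TaskCRT) (hDens : TaskDensity)
    (hFib : TaskFiber) (hNC : TaskNonCoprime) (hDb : TaskDouble) (hEq : TaskEqual) (hRoots : TaskRoots)
    (hDne : TaskDne) (hBD : TaskBadDvd) (hSh : TaskShift) (hND : TaskNormDet) (hBd : TaskBound) (hPr : TaskPrimes)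
    (hBF : TaskBigFiber) (hEul : TaskEuler) (hRZ : TaskResZero) (hCrit : TaskCrit) (hTail : TaskTail)
    (hLim : TaskLimit) (m n : ℕ) (hm : 2 ≤ m) (hn : 2 ≤ n) :
    Tendsto (fun H : ℕ =>
      ({x : ℤ[X] × ℤ[X] | x.1 ∈ PP m H ∧ x.2 ∈ PP n H ∧ Co x.1 x.2 ∧ bez x.1 x.2 = (resultant x.1 x.2).natAbs}.ncard : ℝ) /
        {x : ℤ[X] × ℤ[X] | x.1 ∈ PP m H ∧ x.2 ∈ PP n H ∧ Co x.1 x.2}.ncard) atTop (𝓝 (36 / Real.pi ^ 4)) := by
  have hG := hGC hMC hMB hEx hSp
  have hD := hDens hEqui hCRT hG m n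
  obtain ⟨K, hK0, hK1, hK2⟩ := hTail (hSmall hClass hG) hFib hNC hDb hEq (hBF hRoots hDne hBD hSh hND hBd hPr) m n hm hn
  have hcr := hCrit hAlg hOrder hIndex hGlobal hBez m n
  have hpos : ∀ H : ℕ, 2 ≤ H → (0 : ℝ) < ((BX m n H).card : ℝ) := by
    intro H hH
    have : (BX m n H).Nonempty := by
      refine ⟨((fun _ => 1), (fun _ => 1)), ?_⟩
      unfold BX
      rw [Finset.mem_product, mem_V, mem_V]
      refine ⟨⟨by norm_num, fun i => ?_⟩, ⟨by norm_num, fun i => ?_⟩⟩ <;>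
      · rw [abs_one]; exact_mod_cast (by omega : 1 ≤ H)
    exact_mod_cast this.card_pos
  have hA : ∀ H M : ℕ, 2 ≤ H → 1 ≤ M →
      (((BX m n H).filter fun x => Cop x ∧ ∀ p : ℕ, p.Prime → OkAt m n p x).card : ℝ) ≤
        (((BX m n H).filter fun x => ∀ p : ℕ, p.Prime → p ≤ M → OkAt m n p x).card : ℝ) ∧
      (((BX m n H).filter fun x => ∀ p : ℕ, p.Prime → p ≤ M → OkAt m n p x).card : ℝ) ≤
        ((BX m n H).filter fun x => Cop x ∧ ∀ p : ℕ, p.Prime → OkAt m n p x).card +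
          K * ((BX m n H).card : ℝ) * (1 / (M : ℝ) + 1 / (H : ℝ)) := by
    intro H M hH hM
    refine ⟨?_, hK1 H M hH hM⟩
    exact_mod_cast Finset.card_le_card (fun x hx => by
      rw [Finset.mem_filter] at hx ⊢
      exact ⟨hx.1, fun p hp _ => hx.2.2 p hp⟩)
  have hS : ∀ H : ℕ, 2 ≤ H → (((BX m n H).filter Cop).card : ℝ) ≤ ((BX m n H).card : ℝ) ∧
      ((BX m n H).card : ℝ) ≤ ((BX m n H).filter Cop).card + K * ((BX m n H).card : ℝ) / (H : ℝ) := by
    intro H hH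
    refine ⟨?_, hK2 H hH⟩
    exact_mod_cast Finset.card_le_card (Finset.filter_subset _ _)
  have hfin := hLim (fun H => ((BX m n H).card : ℝ)) (fun H => (((BX m n H).filter Cop).card : ℝ))
    (fun H => (((BX m n H).filter fun x => Cop x ∧ ∀ p : ℕ, p.Prime → OkAt m n p x).card : ℝ))
    (fun M H => (((BX m n H).filter fun x => ∀ p : ℕ, p.Prime → p ≤ M → OkAt m n p x).card : ℝ))
    (fun M => ∏ p ∈ (Finset.range (M + 1)).filter Nat.Prime, (1 - 1 / (p : ℝ) ^ 2) ^ 2) (36 / Real.pi ^ 4) K hK0 hpos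
    (fun M => hD M hm hn) hEul.1 hA hS
  refine hfin.congr fun H => ?_
  have c1 := card_pairs m n H (by omega) (by omega) (fun f g => Co f g ∧ bez f g = (resultant f g).natAbs)
  have c2 := card_pairs m n H (by omega) (by omega) (fun f g => Co f g)
  beta_reduce at c1 c2
  rw [c1, c2]
  have e1 : ((BX m n H).filter fun x => Cop x ∧ ∀ p : ℕ, p.Prime → OkAt m n p x) =
      (BX m n H).filter fun x => Co (pol x.1) (pol x.2) ∧ bez (pol x.1) (pol x.2) = (resultant (pol x.1) (pol x.2)).natAbs := by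
    apply Finset.filter_congr
    intro x hx
    unfold BX at hx
    rw [Finset.mem_product, mem_V, mem_V] at hx
    have h1 := hx.1.1.ne'
    have h2 := hx.2.1.ne'
    have e : resultant (pol x.1) (pol x.2) = resultant (pol x.1) (pol x.2) m n := by
      rw [pol_natDegree _ h1, pol_natDegree _ h2]
    rw [e]
    constructor
    · rintro ⟨h3, h4⟩
      exact ⟨h3, (hcr x (by omega) (by omega) h1 h2 ((hRZ m n x (by omega) (by omega) h1 h2).2 h3)).2 h4⟩
    · rintro ⟨h3, h4⟩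
      exact ⟨h3, (hcr x (by omega) (by omega) h1 h2 ((hRZ m n x (by omega) (by omega) h1 h2).2 h3)).1 h4⟩
  have e2 : ((BX m n H).filter Cop) = (BX m n H).filter fun x => Co (pol x.1) (pol x.2) := rfl
  rw [e1, e2]
  congr!

end Pool.Agent.Q20.BZ
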