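import Pool.Agent.Q20.BZ.Stmts

set_option autoImplicit false

open Polynomial

namespace Pool.Agent.Q20.BZ

namespace BadDvd

theorem pol_natDegree_le {R : Type} [CommRing R] {k : ℕ} (a : Fin (k + 1) → R) :
    (pol a).natDegree ≤ k := by
  unfold pol
  refine natDegree_sum_le_of_forall_le _ _ fun i _ => ?_
  exact (natDegree_C_mul_X_pow_le _ _).trans (by omega)

theorem pol_coeff_last {R : Type} [CommRing R] {k : ℕ} (a : Fin (k + 1) → R) :
    (pol a).coeff k = a (Fin.last k) := by
  unfold pol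
  rw [finsetSum_coeff, Finset.sum_eq_single (Fin.last k)]
  · simp
  · intro i _ hi
    rw [coeff_C_mul, coeff_X_pow, if_neg, mul_zero]
    intro h
    apply hi
    apply Fin.ext
    rw [Fin.val_last]
    exact h.symm
  · simp

theorem pol_map {R S : Type} [CommRing R] [CommRing S] (φ : R →+* S) {k : ℕ}
    (a : Fin (k + 1) → R) : (pol a).map φ = pol (fun i => φ (a i)) := by
  unfold pol
  simp [Polynomial.map_sum]

theorem main : TaskBadDvd := by
  intro m n p x hm hn hp hlead hbad
  have hbad' : ∃ _ : Fact p.Prime, ¬ Good m n (pol (red p x).1) (pol (red p x).2) := by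
    by_contra hc
    push Not at hc
    exact hbad hc
  obtain ⟨hfact, hbad⟩ := hbad'
  set f : (ZMod p)[X] := pol (red p x).1 with hf
  set g : (ZMod p)[X] := pol (red p x).2 with hg
  have hgc : g.coeff n ≠ 0 := by
    rw [hg, pol_coeff_last]
    exact hlead
  have hgn : g.natDegree = n :=
    le_antisymm (pol_natDegree_le _) (le_natDegree_of_ne_zero hgc)
  have hfm : f.natDegree ≤ m := pol_natDegree_le _
  have hg0 : g ≠ 0 := fun h => hgc (by rw [h, coeff_zero])
  obtain ⟨h, ⟨f₁, hf₁⟩, ⟨g₁, hg₁⟩, h2⟩ : ∃ h, h ∣ f ∧ h ∣ g ∧ 2 ≤ h.natDegree := by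
    by_contra hc
    push Not at hc
    exact hbad ⟨Or.inr hgc, fun h h1 h2 => by have := hc h h1 h2; omega⟩
  have hh0 : h ≠ 0 := by rintro rfl; exact hg0 (by rw [hg₁, zero_mul])
  have hg₁0 : g₁ ≠ 0 := by rintro rfl; exact hg0 (by rw [hg₁, mul_zero])
  have hdeg : h.natDegree + g₁.natDegree = n := by
    rw [← hgn, hg₁, natDegree_mul hh0 hg₁0]
  have hinj : Function.Injective (C : ZMod p →+* (ZMod p)[X]) := C_injective
  have hmapC : ∀ q : (ZMod p)[X], (q.map (C : ZMod p →+* (ZMod p)[X])).natDegree = q.natDegree :=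
    fun q => natDegree_map_eq_of_injective hinj q
  -- the reduction of `Rx`
  have hred : (Rx x).map (Int.castRingHom (ZMod p)) =
      resultant (f.map (C : ZMod p →+* (ZMod p)[X]) + C (X : (ZMod p)[X]))
        (g.map (C : ZMod p →+* (ZMod p)[X])) m n := by
    have e1 : (Rx x).map (Int.castRingHom (ZMod p)) =
        (mapRingHom (Int.castRingHom (ZMod p))) (Rx x) := rfl
    rw [e1]
    unfold Rx
    rw [← resultant_map_map]
    have e2 : ∀ {k : ℕ} (a : Fin (k + 1) → ℤ),
        ((pol a).map (C : ℤ →+* ℤ[X])).map (mapRingHom (Int.castRingHom (ZMod p))) =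
          (pol (fun i => (a i : ZMod p))).map (C : ZMod p →+* (ZMod p)[X]) := by
      intro k a
      rw [pol_map, pol_map, pol_map]
      congr 1
      funext i
      simp
    rw [Polynomial.map_add, Polynomial.map_C, e2, e2, coe_mapRingHom, Polynomial.map_X]
    rfl
  have hkey : (X : (ZMod p)[X]) ^ 2 ∣ (Rx x).map (Int.castRingHom (ZMod p)) := by
    rw [hred, hf₁, hg₁, Polynomial.map_mul, Polynomial.map_mul]
    have hFm : ((h.map (C : ZMod p →+* (ZMod p)[X])) * (f₁.map (C : ZMod p →+* (ZMod p)[X])) +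
        C (X : (ZMod p)[X])).natDegree ≤ m := by
      rw [← Polynomial.map_mul, ← hf₁]
      refine (natDegree_add_le _ _).trans (max_le ?_ ?_)
      · rw [hmapC]; exact hfm
      · rw [natDegree_C]; exact Nat.zero_le _
    have e3 := resultant_mul_right ((h.map (C : ZMod p →+* (ZMod p)[X])) *
      (f₁.map (C : ZMod p →+* (ZMod p)[X])) + C (X : (ZMod p)[X]))
      (h.map (C : ZMod p →+* (ZMod p)[X])) (g₁.map (C : ZMod p →+* (ZMod p)[X])) m hFm
    rw [hmapC, hmapC, hdeg] at e3
    rw [e3]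
    apply Dvd.dvd.mul_right
    have e4 : resultant ((h.map (C : ZMod p →+* (ZMod p)[X])) *
        (f₁.map (C : ZMod p →+* (ZMod p)[X])) + C (X : (ZMod p)[X]))
        (h.map (C : ZMod p →+* (ZMod p)[X])) m h.natDegree =
        resultant (C (X : (ZMod p)[X])) (h.map (C : ZMod p →+* (ZMod p)[X])) m h.natDegree := by
      rcases eq_or_ne f₁ 0 with h0 | h0
      · rw [h0, Polynomial.map_zero, mul_zero, zero_add]
      · rw [add_comm]
        apply resultant_add_mul_left
        · rw [hmapC, add_comm, ← natDegree_mul hh0 h0, ← hf₁]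
          exact hfm
        · rw [hmapC]
    rw [e4, resultant_C_left]
    exact Dvd.dvd.mul_left (pow_dvd_pow _ h2) _
  rw [X_pow_dvd_iff] at hkey
  have h0 := hkey 0 (by norm_num)
  have h1 := hkey 1 (by norm_num)
  rw [coeff_map] at h0 h1
  exact ⟨(ZMod.intCast_zmod_eq_zero_iff_dvd _ _).mp h0, (ZMod.intCast_zmod_eq_zero_iff_dvd _ _).mp h1⟩

end BadDvd

end Pool.Agent.Q20.BZ
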