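import Pool.Agent.Q20.BZ.Stmts

set_option autoImplicit false

open Polynomial

namespace Pool.Agent.Q20.BZ.TaskAlgPf

theorem exists_const {F : Type} [Field F] {h : F[X]} (h0 : h ≠ 0) (h1 : h.natDegree ≤ 1) (w : F[X]) :
    ∃ c : F, h ∣ w - C c := by
  rcases Nat.lt_or_ge h.natDegree 1 with h2 | h2
  · refine ⟨0, ?_⟩
    have h3 : h.natDegree = 0 := by omega
    have h4 : IsUnit h := by
      rw [Polynomial.isUnit_iff_degree_eq_zero, Polynomial.degree_eq_natDegree h0, h3]
      rfl
    exact h4.dvd
  · have h3 : h.degree = 1 := by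
      rw [Polynomial.degree_eq_natDegree h0, le_antisymm h1 h2]
      rfl
    obtain ⟨a, ha⟩ := Polynomial.exists_root_of_degree_eq_one h3
    refine ⟨w.eval a, ?_⟩
    obtain ⟨q, hq⟩ := Polynomial.dvd_iff_isRoot.2 ha
    have hq0 : q ≠ 0 := by
      rintro rfl
      exact h0 (by rw [hq, mul_zero])
    have hqd : q.natDegree = 0 := by
      have h4 := congrArg Polynomial.natDegree hq
      rw [Polynomial.natDegree_mul (Polynomial.X_sub_C_ne_zero a) hq0, Polynomial.natDegree_X_sub_C] at h4
      omega
    have hqu : IsUnit q := by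
      rw [Polynomial.isUnit_iff_degree_eq_zero, Polynomial.degree_eq_natDegree hq0, hqd]
      rfl
    have h5 : (X - C a) ∣ w - C (w.eval a) := Polynomial.X_sub_C_dvd_sub_C_eval
    rw [hq]
    exact (IsUnit.mul_right_dvd hqu).2 h5

theorem onto_of {F : Type} [Field F] {m n : ℕ} {f g : F[X]} (hm : 1 ≤ m)
    (hf : f.natDegree ≤ m) (hg : g.natDegree ≤ n) (hc : f.coeff m ≠ 0)
    (hd : ∀ h : F[X], h ∣ f → h ∣ g → h.natDegree ≤ 1) : Onto m n f g := by
  classical
  intro w hw
  have hf0 : f ≠ 0 := by
    rintro rfl
    exact hc (coeff_zero _)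
  have hfd : f.degree = (m : WithBot ℕ) := by
    rw [Polynomial.degree_eq_natDegree hf0]
    congr 1
    exact le_antisymm hf (Polynomial.le_natDegree_of_ne_zero hc)
  have hh0 : EuclideanDomain.gcd f g ≠ 0 := fun h => hf0 (EuclideanDomain.gcd_eq_zero_iff.1 h).1
  obtain ⟨c, z, hz⟩ := exists_const hh0
    (hd _ (EuclideanDomain.gcd_dvd_left f g) (EuclideanDomain.gcd_dvd_right f g)) w
  rw [EuclideanDomain.gcd_eq_gcd_ab] at hz
  set a := EuclideanDomain.gcdA f g
  set b := EuclideanDomain.gcdB f g
  have hdiv := EuclideanDomain.div_add_mod (z * b) f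
  refine ⟨z * a + (z * b / f) * g, z * b % f, c, ?_, ?_, ?_⟩
  · have hv : (z * b % f).degree < m := by
      rw [← hfd]
      exact EuclideanDomain.mod_lt _ hf0
    have h1 : (z * a + (z * b / f) * g) * f = w - C c - (z * b % f) * g := by
      rw [hz]
      have h2 : z * b = f * (z * b / f) + z * b % f := hdiv.symm
      calc (z * a + (z * b / f) * g) * f = z * a * f + (f * (z * b / f) + z * b % f) * g - (z * b % f) * g := by
            ring
        _ = z * a * f + (z * b) * g - (z * b % f) * g := by rw [← h2]
        _ = (f * a + g * b) * z - (z * b % f) * g := by ring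
    have h3 : ((z * a + (z * b / f) * g) * f).degree < ((m + n : ℕ) : WithBot ℕ) := by
      rw [h1]
      refine lt_of_le_of_lt (degree_sub_le _ _) (max_lt ?_ ?_)
      · refine lt_of_le_of_lt (degree_sub_le _ _) (max_lt hw ?_)
        refine lt_of_le_of_lt degree_C_le ?_
        exact_mod_cast (by omega : 0 < m + n)
      · by_cases hg0 : g = 0
        · rw [hg0, mul_zero, degree_zero]
          exact WithBot.bot_lt_coe _
        by_cases hv0 : z * b % f = 0
        · rw [hv0, zero_mul, degree_zero]
          exact WithBot.bot_lt_coe _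
        rw [degree_mul, degree_eq_natDegree hg0, degree_eq_natDegree hv0]
        rw [degree_eq_natDegree hv0] at hv
        have hv' : (z * b % f).natDegree < m := by exact_mod_cast hv
        exact_mod_cast (by omega : (z * b % f).natDegree + g.natDegree < m + n)
    by_cases hu0 : z * a + (z * b / f) * g = 0
    · rw [hu0, degree_zero]
      exact WithBot.bot_lt_coe _
    rw [degree_mul, degree_eq_natDegree hu0, hfd] at h3
    rw [degree_eq_natDegree hu0]
    have h4 : (z * a + (z * b / f) * g).natDegree + m < m + n := by exact_mod_cast h3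
    exact_mod_cast (by omega : (z * a + (z * b / f) * g).natDegree < n)
  · rw [← hfd]
    exact EuclideanDomain.mod_lt _ hf0
  · have h2 : z * b = f * (z * b / f) + z * b % f := hdiv.symm
    have h5 : w = (f * a + g * b) * z + C c := by
      rw [← hz]
      ring
    calc w = (f * a + g * b) * z + C c := h5
      _ = z * a * f + (z * b) * g + C c := by ring
      _ = z * a * f + (f * (z * b / f) + z * b % f) * g + C c := by rw [← h2]
      _ = (z * a + z * b / f * g) * f + z * b % f * g + C c := by ring

theorem onto_swap {F : Type} [Field F] {m n : ℕ} {f g : F[X]} (h : Onto n m g f) : Onto m n f g := by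
  intro w hw
  obtain ⟨u, v, c, hu, hv, h1⟩ := h w (by rwa [add_comm])
  exact ⟨v, u, c, hv, hu, by rw [h1]; ring⟩

theorem main : Pool.Agent.Q20.BZ.TaskAlg := by
  intro F _ m n f g hm hn hf hg
  constructor
  · rintro ⟨h1 | h1, h2⟩
    · exact onto_of hm hf hg h1 h2
    · exact onto_swap (onto_of hn hg hf h1 fun h ha hb => h2 h hb ha)
  · intro h
    refine ⟨?_, ?_⟩
    · by_contra hne
      push Not at hne
      obtain ⟨hf0, hg0⟩ := hne
      obtain ⟨u, v, c, hu, hv, h1⟩ := h (X ^ (m + n - 1)) (by
        rw [degree_X_pow]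
        exact_mod_cast (by omega : m + n - 1 < m + n))
      have key : ∀ (a b : ℕ) (p q : F[X]), 1 ≤ a → 1 ≤ b → p.natDegree ≤ a → p.coeff a = 0 →
          q.degree < b → (q * p).coeff (a + b - 1) = 0 := by
        intro a b p q ha hb hp hp0 hq
        by_cases hq0 : q = 0
        · rw [hq0, zero_mul, coeff_zero]
        by_cases hpz : p = 0
        · rw [hpz, mul_zero, coeff_zero]
        apply coeff_eq_zero_of_natDegree_lt
        rw [degree_eq_natDegree hq0] at hq
        have hq' : q.natDegree < b := by exact_mod_cast hq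
        have hp' : p.natDegree < a := by
          refine lt_of_le_of_ne hp fun he => ?_
          rw [← he] at hp0
          exact hpz (leadingCoeff_eq_zero.1 hp0)
        rw [natDegree_mul hq0 hpz]
        omega
      have h2 := congrArg (fun p => coeff p (m + n - 1)) h1
      simp only [coeff_X_pow, if_true, coeff_add] at h2
      rw [key m n f u hm hn hf hf0 hu, coeff_C, if_neg (by omega)] at h2
      have h3 := key n m g v hn hm hg hg0 hv
      rw [add_comm n m] at h3
      rw [h3] at h2
      simp at h2
    · intro p hpf hpg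
      obtain ⟨u, v, c, hu, hv, h1⟩ := h X (by
        rw [degree_X]
        exact_mod_cast (by omega : 1 < m + n))
      have h2 : p ∣ X - C c := by
        have h3 : X - C c = u * f + v * g := by
          rw [h1]
          ring
        rw [h3]
        exact dvd_add (hpf.mul_left u) (hpg.mul_left v)
      have h4 := natDegree_le_of_dvd h2 (X_sub_C_ne_zero c)
      rwa [natDegree_X_sub_C] at h4

end Pool.Agent.Q20.BZ.TaskAlgPf
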