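import Pool.Agent.Q20.BZ.Stmts

set_option autoImplicit false

open Polynomial

namespace Pool.Agent.Q20.BZ.TaskBezoutPf

open Pool.Agent.Q20.BZ

theorem main : Pool.Agent.Q20.BZ.TaskBezout := by
  intro m n f g hf hg hm hn
  have hf0 : f ≠ 0 := by
    rintro rfl
    rw [natDegree_zero] at hf
    omega
  have hg0 : g ≠ 0 := by
    rintro rfl
    rw [natDegree_zero] at hg
    omega
  have hfd : f.degree = (m : WithBot ℕ) := by rw [degree_eq_natDegree hf0, hf]
  have hgd : g.degree = (n : WithBot ℕ) := by rw [degree_eq_natDegree hg0, hg]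
  have hinj : Function.Injective (Int.castRingHom ℚ) := Int.cast_injective
  have hCdeg : ∀ (c : ℚ) (p : ℚ[X]), c ≠ 0 → (C c * p).degree = p.degree := by
    intro c p hc
    rw [degree_mul, degree_C hc, zero_add]
  have hmapdeg : ∀ P : ℤ[X], (P.map (Int.castRingHom ℚ)).degree = P.degree :=
    fun P => degree_map_eq_of_injective hinj P
  unfold bez N0
  congr 1
  ext N
  simp only [Set.mem_setOf_eq]
  constructor
  · rintro ⟨hN, p, q, h1, h2, h3, ⟨P, hP⟩, Q, hQ⟩
    have hN' : (N : ℚ) ≠ 0 := by exact_mod_cast hN.ne'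
    refine ⟨hN, P, Q, ?_, ?_, ?_⟩
    · rw [← hmapdeg, hP, hCdeg _ _ hN', ← hgd]
      exact h2
    · rw [← hmapdeg, hQ, hCdeg _ _ hN', ← hfd]
      exact h3
    · apply map_injective _ hinj
      rw [Polynomial.map_add, Polynomial.map_mul, Polynomial.map_mul, hP, hQ, map_C]
      have h4 : C (N : ℚ) * p * f.map (Int.castRingHom ℚ) + C (N : ℚ) * q * g.map (Int.castRingHom ℚ) =
          C (N : ℚ) * (p * f.map (Int.castRingHom ℚ) + q * g.map (Int.castRingHom ℚ)) := by ring
      rw [h4, h1, mul_one]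
      simp
  · rintro ⟨hN, u, v, h1, h2, h3⟩
    have hN' : (N : ℚ) ≠ 0 := by exact_mod_cast hN.ne'
    have h4 : (C (N : ℚ) : ℚ[X]) = u.map (Int.castRingHom ℚ) * f.map (Int.castRingHom ℚ) +
        v.map (Int.castRingHom ℚ) * g.map (Int.castRingHom ℚ) := by
      have := congrArg (fun P : ℤ[X] => P.map (Int.castRingHom ℚ)) h3
      simp only [Polynomial.map_add, Polynomial.map_mul, map_C] at this
      rw [← this]
      simp
    have h5 : (C (N : ℚ) : ℚ[X]) * C (1 / (N : ℚ)) = 1 := by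
      rw [← C_mul, mul_one_div_cancel hN', C_1]
    refine ⟨hN, C (1 / (N : ℚ)) * u.map (Int.castRingHom ℚ),
      C (1 / (N : ℚ)) * v.map (Int.castRingHom ℚ), ?_, ?_, ?_, ⟨u, ?_⟩, v, ?_⟩
    · have h6 : C (1 / (N : ℚ)) * u.map (Int.castRingHom ℚ) * f.map (Int.castRingHom ℚ) +
          C (1 / (N : ℚ)) * v.map (Int.castRingHom ℚ) * g.map (Int.castRingHom ℚ) =
          (u.map (Int.castRingHom ℚ) * f.map (Int.castRingHom ℚ) +
            v.map (Int.castRingHom ℚ) * g.map (Int.castRingHom ℚ)) * C (1 / (N : ℚ)) := by ring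
      rw [h6, ← h4, h5]
    · rw [hCdeg _ _ (one_div_ne_zero hN'), hmapdeg, hgd]
      exact h1
    · rw [hCdeg _ _ (one_div_ne_zero hN'), hmapdeg, hfd]
      exact h2
    · rw [← mul_assoc, h5, one_mul]
    · rw [← mul_assoc, h5, one_mul]

end Pool.Agent.Q20.BZ.TaskBezoutPf
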