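import Pool.Agent.Q20.BZ.Stmts

set_option autoImplicit false

open Polynomial Filter Topology
open scoped Classical

namespace Pool.Agent.Q20.BZ.TaskBigFiberPf

private theorem pol_update {m : ℕ} (a : Fin (m + 1) → ℤ) (t : ℤ) :
    pol (Function.update a 0 t) = pol a + C (t - a 0) := by
  unfold pol
  rw [Fin.sum_univ_succ, Fin.sum_univ_succ]
  have h1 : ∀ i : Fin m, Function.update a 0 t i.succ = a i.succ := fun i =>
    Function.update_of_ne (Fin.succ_ne_zero i) _ _
  simp only [Function.update_self, h1, Fin.val_zero, pow_zero, mul_one, map_sub]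
  ring

private theorem exc_update {m n : ℕ} (x : W m n ℤ) (t : ℤ)
    (h : Exc ((Function.update x.1 0 t, x.2) : W m n ℤ)) : Exc x := by
  rcases h with h | ⟨z, w, hzw, hz, hw, he⟩
  · exact Or.inl h
  · refine Or.inr ⟨z, w, hzw, hz, hw, ?_⟩
    have he' : aeval z (pol (Function.update x.1 0 t)) = aeval w (pol (Function.update x.1 0 t)) := he
    rw [pol_update, map_add, map_add, aeval_C, aeval_C] at he'
    exact add_right_cancel he'

private theorem mem_V {k H : ℕ} {a : Fin (k + 1) → ℤ} (h : a ∈ V k H) :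
    (∀ i, |a i| ≤ H) ∧ 1 ≤ a (Fin.last k) := by
  unfold V at h
  rw [Fintype.mem_piFinset] at h
  constructor
  · intro i
    have := h i
    by_cases hi : i = Fin.last k
    · rw [if_pos hi, Finset.mem_Icc] at this
      rw [abs_le]; omega
    · rw [if_neg hi, Finset.mem_Icc] at this
      rw [abs_le]; omega
  · have := h (Fin.last k)
    rw [if_pos rfl, Finset.mem_Icc] at this
    exact this.1

theorem main : Pool.Agent.Q20.BZ.TaskBigFiber := by
  intro hRoots hDne hBad hShift hNorm hBound hPrimes m n hm hn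
  obtain ⟨Ex, hEx⟩ := hBound hNorm m n
  refine ⟨n * Ex, ?_⟩
  intro H hH x hx hexc
  rw [BX, Finset.mem_product] at hx
  obtain ⟨hx1, hx1'⟩ := mem_V hx.1
  obtain ⟨hx2, hx2'⟩ := mem_V hx.2
  set x0 : W m n ℤ := (Function.update x.1 0 0, x.2) with hx0
  have hlast : x0.2 (Fin.last n) ≠ 0 := by
    show x.2 (Fin.last n) ≠ 0
    omega
  have hexc0 : ¬ Exc x0 := fun h => hexc (exc_update x 0 h)
  have hD0 : Dx x0 ≠ 0 := hDne hRoots m n x0 hm hn hlast hexc0
  have hDb : |Dx x0| ≤ (H : ℤ) ^ Ex := by
    refine hEx H hH x0 ?_ hx2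
    intro i
    show |Function.update x.1 0 0 i| ≤ H
    by_cases hi : i = 0
    · rw [hi, Function.update_self]; simp
    · rw [Function.update_of_ne hi]; exact hx1 i
  obtain ⟨-, hdeg, hlc⟩ := hRoots m n x0 hm hn hlast
  set T := (Finset.Icc (-(H : ℤ)) H).filter fun t => ∃ p : ℕ, p.Prime ∧ 2 * H + 1 < p ∧
      ¬ OkAt m n p (Function.update x.1 0 t, x.2) with hT
  -- the key divisibilities
  have hdiv : ∀ (t : ℤ) (p : ℕ), p.Prime → 2 * H + 1 < p →
      ¬ OkAt m n p ((Function.update x.1 0 t, x.2) : W m n ℤ) →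
      (p : ℤ) ∣ (Rx x0).eval t ∧ (p : ℤ) ∣ (derivative (Rx x0)).eval t := by
    intro t p hp hpH hok
    haveI := Fact.mk hp
    have hne : ((x.2 (Fin.last n) : ℤ) : ZMod p) ≠ 0 := by
      intro h0
      rw [ZMod.intCast_zmod_eq_zero_iff_dvd] at h0
      have h1 := Int.le_of_dvd (by omega) h0
      have h2 := hx2 (Fin.last n)
      rw [abs_le] at h2
      omega
    obtain ⟨h0, h1⟩ := hBad m n p ((Function.update x.1 0 t, x.2) : W m n ℤ) hm hn hp hne hok
    rw [hShift m n x t] at h0 h1
    constructor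
    · rw [coeff_zero_eq_eval_zero, eval_comp] at h0
      simpa using h0
    · have e1 : ((Rx x0).comp (X + C t)).coeff 1 = (derivative (Rx x0)).eval t := by
        have e2 : ((Rx x0).comp (X + C t)).coeff 1 =
            (derivative ((Rx x0).comp (X + C t))).coeff 0 := by
          rw [coeff_derivative]
          simp
        rw [e2, coeff_zero_eq_eval_zero, derivative_comp, eval_mul, eval_comp]
        simp
      rw [← e1]
      exact h1
  have hdvdD : ∀ (t : ℤ) (p : ℕ), (p : ℤ) ∣ (Rx x0).eval t →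
      (p : ℤ) ∣ (derivative (Rx x0)).eval t → (p : ℤ) ∣ Dx x0 := by
    intro t p h0 h1
    obtain ⟨a, b, -, -, hab⟩ := exists_mul_add_mul_eq_C_resultant (m := n) (n := n - 1) (Rx x0)
      (derivative (Rx x0)) hdeg.le (le_trans (natDegree_derivative_le _) (by rw [hdeg]))
      (Or.inl (by omega))
    have h2 := congrArg (eval t) hab
    rw [eval_add, eval_mul, eval_mul, eval_C] at h2
    have h3 : Dx x0 = eval t (Rx x0) * eval t a + eval t (derivative (Rx x0)) * eval t b := by
      rw [h2]; rfl
    rw [h3]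
    exact dvd_add (Dvd.dvd.mul_right h0 _) (Dvd.dvd.mul_right h1 _)
  have hex : ∀ t ∈ T, ∃ p : ℕ, p.Prime ∧ 2 * H + 1 < p ∧
      ¬ OkAt m n p (Function.update x.1 0 t, x.2) := by
    intro t ht
    rw [hT, Finset.mem_filter] at ht
    exact ht.2
  choose! pf hpf using hex
  have hcard : (T.image pf).card ≤ Ex := by
    refine hPrimes H Ex (Dx x0) hH hD0 hDb (T.image pf) ?_
    intro p hp
    rw [Finset.mem_image] at hp
    obtain ⟨t, ht, rfl⟩ := hp
    obtain ⟨h1, h2, h3⟩ := hpf t ht
    obtain ⟨h4, h5⟩ := hdiv t _ h1 h2 h3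
    exact ⟨h1, by omega, hdvdD t _ h4 h5⟩
  have hfib : ∀ p ∈ T.image pf, (T.filter fun t => pf t = p).card ≤ n := by
    intro p hp
    rw [Finset.mem_image] at hp
    obtain ⟨t0, ht0, rfl⟩ := hp
    obtain ⟨hp1, hp2, -⟩ := hpf t0 ht0
    haveI := Fact.mk hp1
    set p := pf t0 with hpdef
    set Q : (ZMod p)[X] := (Rx x0).map (Int.castRingHom (ZMod p)) with hQ
    have hQ0 : Q ≠ 0 := by
      intro h0
      have h1 : Q.coeff n = 0 := by rw [h0]; simp
      rw [hQ, coeff_map] at h1
      have h2 : (Rx x0).coeff n = (Rx x0).leadingCoeff := by rw [leadingCoeff, hdeg]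
      rw [h2, eq_intCast, ZMod.intCast_zmod_eq_zero_iff_dvd] at h1
      have h3 : p ∣ (x0.2 (Fin.last n)).natAbs ^ m := by
        rw [← hlc]
        exact Int.natCast_dvd.1 h1
      have h4 := hp1.dvd_of_dvd_pow h3
      have h5 : (x0.2 (Fin.last n)).natAbs ≤ H := by
        have := hx2 (Fin.last n)
        rw [abs_le] at this
        show (x.2 (Fin.last n)).natAbs ≤ H
        omega
      have h6 : 0 < (x0.2 (Fin.last n)).natAbs := Int.natAbs_pos.2 hlast
      have := Nat.le_of_dvd h6 h4
      omega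
    have hle : (T.filter fun t => pf t = p).card ≤ Q.roots.toFinset.card := by
      refine Finset.card_le_card_of_injOn (fun t : ℤ => (t : ZMod p)) ?_ ?_
      · intro t ht
        have ht' : t ∈ T ∧ pf t = p := by simpa using ht
        obtain ⟨h1, h2, h3⟩ := hpf t ht'.1
        obtain ⟨h4, -⟩ := hdiv t _ h1 h2 h3
        rw [ht'.2] at h4
        simp only [Finset.mem_coe, Multiset.mem_toFinset]
        rw [mem_roots hQ0, IsRoot.def, hQ]
        have h5 : eval ((t : ℤ) : ZMod p) ((Rx x0).map (Int.castRingHom (ZMod p))) =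
            (((Rx x0).eval t : ℤ) : ZMod p) := by
          have := eval_map_apply (Int.castRingHom (ZMod p)) t (p := Rx x0)
          simpa using this
        rw [h5, ZMod.intCast_zmod_eq_zero_iff_dvd]
        exact h4
      · intro s hs t ht hst
        have hs' : s ∈ T ∧ pf s = p := by simpa using hs
        have ht' : t ∈ T ∧ pf t = p := by simpa using ht
        have h1 := hs'.1
        have h2 := ht'.1
        rw [hT, Finset.mem_filter, Finset.mem_Icc] at h1 h2
        have h3 : ((s : ℤ) : ZMod p) = ((t : ℤ) : ZMod p) := hst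
        rw [ZMod.intCast_eq_intCast_iff_dvd_sub] at h3
        by_contra hne
        have h4 : t - s ≠ 0 := fun h => hne (by omega)
        have h5 := Int.natAbs_dvd_natAbs.2 h3
        have h6 := Nat.le_of_dvd (Int.natAbs_pos.2 h4) h5
        rw [Int.natAbs_natCast] at h6
        omega
    refine le_trans hle (le_trans (Multiset.toFinset_card_le _) ?_)
    refine le_trans (card_roots' _) ?_
    refine le_trans natDegree_map_le ?_
    rw [hdeg]
  have := Finset.card_le_mul_card_image T n hfib
  exact le_trans this (Nat.mul_le_mul_left n hcard)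

end Pool.Agent.Q20.BZ.TaskBigFiberPf
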