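import Pool.Agent.Q20.BZ.Stmts

set_option autoImplicit false

/-!
# TaskBound: the discriminant of `y ↦ Res(f + y, g)` is at most a power of `H`
-/

open Polynomial

namespace Pool.Agent.Q20.BZ.TaskBoundPf

open Pool.Agent.Q20.BZ

private theorem bsyl {R : Type} [CommRing R] {f g : R[X]} {m n : ℕ} {P : R → Prop} (h0 : P 0)
    (hf : ∀ k ≤ m, P (f.coeff k)) (hg : ∀ k ≤ n, P (g.coeff k)) (i j : Fin (m + n)) :
    P (sylvester f g m n i j) := by
  rw [sylvester, Matrix.of_apply]
  refine Fin.addCases (motive := fun j => P (j.addCases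
    (fun j₁ ↦ if (i : ℕ) ∈ Set.Icc (j₁ : ℕ) (j₁ + n) then g.coeff (i - j₁) else 0)
    (fun j₁ ↦ if (i : ℕ) ∈ Set.Icc (j₁ : ℕ) (j₁ + m) then f.coeff (i - j₁) else 0))) ?_ ?_ j
  · intro j₁
    rw [Fin.addCases_left]
    split_ifs with h
    · exact hg _ (by have := h.2; omega)
    · exact h0
  · intro j₁
    rw [Fin.addCases_right]
    split_ifs with h
    · exact hf _ (by have := h.2; omega)
    · exact h0

private theorem bpol {k : ℕ} (a : Fin (k + 1) → ℤ) (H : ℕ) (h : ∀ i, |a i| ≤ H) (j : ℕ) :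
    ((pol a).coeff j).natAbs ≤ H := by
  rw [pol, finsetSum_coeff]
  simp only [coeff_C_mul_X_pow]
  by_cases hj : ∃ i : Fin (k + 1), (i : ℕ) = j
  · obtain ⟨i, rfl⟩ := hj
    rw [Finset.sum_eq_single i]
    · have := h i
      rw [Int.abs_eq_natAbs] at this
      rw [if_pos rfl]
      exact_mod_cast this
    · intro b _ hb
      rw [if_neg]
      exact fun h => hb (Fin.ext h.symm)
    · simp
  · rw [Finset.sum_eq_zero]
    · simp
    · intro i _
      rw [if_neg]
      exact fun h => hj ⟨i, h.symm⟩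

private theorem bnm_le (P : ℤ[X]) (s : Finset ℕ) (h : P.support ⊆ s) :
    nm P ≤ ∑ i ∈ s, (P.coeff i).natAbs := by
  unfold nm
  exact Finset.sum_le_sum_of_subset h

private theorem bnmCX (a : ℤ) (e : ℤ[X]) (he : e = X ∨ e = 0) : nm (C a + e) ≤ a.natAbs + 1 := by
  have hs : (C a + e).support ⊆ Finset.range 2 := by
    intro i hi
    rw [mem_support_iff] at hi
    rw [Finset.mem_range]
    by_contra hlt
    apply hi
    have h0 : i ≠ 0 := by omega
    have h1 : ¬ (1 = i) := by omega
    rcases he with rfl | rfl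
    · rw [coeff_add, coeff_C_of_ne_zero h0, coeff_X, if_neg h1, add_zero]
    · rw [coeff_add, coeff_C_of_ne_zero h0, coeff_zero, add_zero]
  refine (bnm_le _ _ hs).trans ?_
  have hC1 : (C a : ℤ[X]).coeff 1 = 0 := coeff_C_of_ne_zero one_ne_zero
  have hC0 : (C a : ℤ[X]).coeff 0 = a := coeff_C_zero
  rcases he with rfl | rfl
  · rw [Finset.sum_range_succ, Finset.sum_range_one, coeff_add, coeff_add, hC0, hC1, coeff_X_zero,
      coeff_X_one]
    simp
  · rw [Finset.sum_range_succ, Finset.sum_range_one, coeff_add, coeff_add, hC0, hC1, coeff_zero,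
      coeff_zero]
    simp

private theorem bcoeff (P : ℤ[X]) (k : ℕ) : (P.coeff k).natAbs ≤ nm P := by
  by_cases h : k ∈ P.support
  · exact Finset.single_le_sum (f := fun i => (P.coeff i).natAbs) (fun _ _ => Nat.zero_le _) h
  · rw [notMem_support_iff.1 h]
    exact Nat.zero_le _

private theorem bpow {H : ℕ} (hH : 2 ≤ H) (c : ℕ) : c ≤ H ^ c :=
  (Nat.lt_two_pow_self).le.trans (Nat.pow_le_pow_left hH c)

theorem main : Pool.Agent.Q20.BZ.TaskBound := by
  intro hnd m n
  refine ⟨(n + (n - 1)).factorial + ((n + 1) + ((m + n).factorial + 2 * (m + n))) * (n + (n - 1)), ?_⟩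
  intro H hH x h1 h2
  -- the norm of `Rx`
  have hR : nm (Rx x) ≤ (m + n).factorial * (H + 1) ^ (m + n) := by
    refine hnd (m + n) (H + 1) _ fun i j => ?_
    refine bsyl (P := fun q : ℤ[X] => nm q ≤ H + 1) (by simp [nm]) ?_ ?_ i j
    · intro k _
      rw [coeff_add, coeff_map]
      have he : (C (X : ℤ[X])).coeff k = X ∨ (C (X : ℤ[X])).coeff k = 0 := by
        rw [coeff_C]
        split_ifs
        · exact Or.inl rfl
        · exact Or.inr rfl
      exact (bnmCX _ _ he).trans (Nat.succ_le_succ (bpol x.1 H h1 k))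
    · intro k _
      rw [coeff_map]
      have := bnmCX ((pol x.2).coeff k) 0 (Or.inr rfl)
      rw [add_zero] at this
      exact this.trans (Nat.succ_le_succ (bpol x.2 H h2 k))
  have hD : |Dx x| ≤ ((n + (n - 1)).factorial : ℤ) *
      (((n + 1) * nm (Rx x) : ℕ) : ℤ) ^ (n + (n - 1)) := by
    have := Matrix.det_le (A := sylvester (Rx x) (derivative (Rx x)) n (n - 1))
      (abv := AbsoluteValue.abs) (x := (((n + 1) * nm (Rx x) : ℕ) : ℤ)) (fun i j => ?_)
    · rw [Fintype.card_fin, nsmul_eq_mul] at this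
      exact this
    · refine bsyl (P := fun q : ℤ => |q| ≤ (((n + 1) * nm (Rx x) : ℕ) : ℤ)) (by simp)
        ?_ ?_ i j
      · intro k _
        have h := bcoeff (Rx x) k
        have h' : nm (Rx x) ≤ (n + 1) * nm (Rx x) := Nat.le_mul_of_pos_left _ (Nat.succ_pos n)
        rw [Int.abs_eq_natAbs]
        exact_mod_cast h.trans h'
      · intro k hk
        rw [coeff_derivative, abs_mul, Int.abs_eq_natAbs]
        have h := bcoeff (Rx x) (k + 1)
        have hk' : |((k : ℤ) + 1)| ≤ ((n + 1 : ℕ) : ℤ) := by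
          rw [abs_of_nonneg (by positivity)]
          push_cast
          omega
        calc (((Rx x).coeff (k + 1)).natAbs : ℤ) * |((k : ℤ) + 1)|
            ≤ (nm (Rx x) : ℤ) * ((n + 1 : ℕ) : ℤ) := by
              apply mul_le_mul (by exact_mod_cast h) hk' (abs_nonneg _) (by positivity)
          _ = (((n + 1) * nm (Rx x) : ℕ) : ℤ) := by push_cast; ring
  refine hD.trans ?_
  have hH1 : (H + 1) ^ (m + n) ≤ H ^ (2 * (m + n)) := by
    rw [pow_mul]
    apply Nat.pow_le_pow_left
    nlinarith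
  have hA : (n + 1) * nm (Rx x) ≤ H ^ ((n + 1) + ((m + n).factorial + 2 * (m + n))) := by
    rw [pow_add H (n + 1), pow_add H (m + n).factorial]
    exact Nat.mul_le_mul (bpow hH _) (hR.trans (Nat.mul_le_mul (bpow hH _) hH1))
  have hfin : (n + (n - 1)).factorial * ((n + 1) * nm (Rx x)) ^ (n + (n - 1)) ≤
      H ^ ((n + (n - 1)).factorial +
        ((n + 1) + ((m + n).factorial + 2 * (m + n))) * (n + (n - 1))) := by
    rw [pow_add _ (n + (n - 1)).factorial, pow_mul]
    exact Nat.mul_le_mul (bpow hH _) (Nat.pow_le_pow_left hA _)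
  exact_mod_cast hfin

end Pool.Agent.Q20.BZ.TaskBoundPf
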