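import Pool.Agent.Q20.BZ.Stmts

set_option autoImplicit false

/-! MP_32694d_nt: Chinese remainder theorem for all coordinates. -/

namespace Pool.Agent.Q20.BZ.TaskCRTPf

open Pool.Agent.Q20.BZ

theorem hom_val {N p : ℕ} [NeZero N] (f : ZMod N →+* ZMod p) (y : ZMod N) :
    f y = ((y.val : ℕ) : ZMod p) := by
  conv_lhs => rw [← ZMod.natCast_zmod_val y]
  rw [map_natCast]

theorem aux (m n : ℕ) (S : Finset ℕ) (hS : ∀ p ∈ S, p.Prime) (cond : ∀ p : ℕ, Set (W m n (ZMod p)))
    (N : ℕ) (hN : N = ∏ p : S, (p : ℕ)) :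
    Nat.card {y : W m n (ZMod N) // ∀ p ∈ S,
      ((fun i => ((y.1 i).val : ZMod p), fun i => ((y.2 i).val : ZMod p)) : W m n (ZMod p)) ∈ cond p} =
      ∏ p ∈ S, Nat.card (cond p) := by
  subst hN
  have hne : (∏ p : S, (p : ℕ)) ≠ 0 := Finset.prod_ne_zero_iff.2 fun p _ => (hS p p.2).ne_zero
  have : NeZero (∏ p : S, (p : ℕ)) := ⟨hne⟩
  have hc : Pairwise (Function.onFun Nat.Coprime fun p : S => (p : ℕ)) := by
    intro p q hpq
    exact (Nat.coprime_primes (hS p p.2) (hS q q.2)).2 fun h => hpq (Subtype.ext h)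
  let e := ZMod.prodEquivPi (fun p : S => (p : ℕ)) hc
  let E : W m n (ZMod (∏ p : S, (p : ℕ))) ≃ (∀ p : S, W m n (ZMod (p : ℕ))) :=
    { toFun := fun y p => (fun i => e (y.1 i) p, fun i => e (y.2 i) p)
      invFun := fun z => (fun i => e.symm (fun p => (z p).1 i), fun i => e.symm fun p => (z p).2 i)
      left_inv := by
        intro y
        refine Prod.ext (funext fun i => ?_) (funext fun i => ?_)
        · exact e.symm_apply_apply (y.1 i)
        · exact e.symm_apply_apply (y.2 i)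
      right_inv := by
        intro z
        funext p
        refine Prod.ext (funext fun i => ?_) (funext fun i => ?_)
        · exact congrFun (e.apply_symm_apply (fun p => (z p).1 i)) p
        · exact congrFun (e.apply_symm_apply (fun p => (z p).2 i)) p }
  have he : ∀ (y : ZMod (∏ p : S, (p : ℕ))) (p : S), e y p = ((y.val : ℕ) : ZMod (p : ℕ)) := by
    intro y p
    exact hom_val ((Pi.evalRingHom (fun p : S => ZMod (p : ℕ)) p).comp e.toRingHom) y
  have E1 : {y : W m n (ZMod (∏ p : S, (p : ℕ))) // ∀ p ∈ S,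
      ((fun i => ((y.1 i).val : ZMod p), fun i => ((y.2 i).val : ZMod p)) : W m n (ZMod p)) ∈ cond p} ≃
      {z : ∀ p : S, W m n (ZMod (p : ℕ)) // ∀ p : S, z p ∈ cond p} := by
    refine Equiv.subtypeEquiv E fun y => ?_
    have h : ∀ p : S, E y p = ((fun i => ((y.1 i).val : ZMod p), fun i => ((y.2 i).val : ZMod p)) :
        W m n (ZMod (p : ℕ))) := fun p =>
      Prod.ext (funext fun i => he _ _) (funext fun i => he _ _)
    constructor
    · intro H p
      rw [h]
      exact H p p.2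
    · intro H p hp
      have := H ⟨p, hp⟩
      rwa [h] at this
  have E2 : {z : ∀ p : S, W m n (ZMod (p : ℕ)) // ∀ p : S, z p ∈ cond p} ≃
      ∀ p : S, {w : W m n (ZMod (p : ℕ)) // w ∈ cond p} :=
    Equiv.subtypePiEquivPi (p := fun (p : S) (w : W m n (ZMod (p : ℕ))) => w ∈ cond p)
  rw [Nat.card_congr (E1.trans E2), Nat.card_pi]
  exact Finset.prod_coe_sort S fun p => Nat.card (cond p)

theorem main : Pool.Agent.Q20.BZ.TaskCRT := by
  intro m n S hS cond
  exact aux m n S hS cond _ (Finset.prod_coe_sort S fun p => p).symm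

end Pool.Agent.Q20.BZ.TaskCRTPf
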