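import Pool.Agent.Q20.BZ.Stmts
set_option autoImplicit false
open Polynomial Filter Topology
open scoped Classical
namespace Pool.Agent.Q20.BZ.TaskClassPf
open Pool.Agent.Q20.BZ

/-- integers of an interval in one residue class -/
lemma class_card (a b : ℤ) (p : ℕ) (hp : 1 ≤ p) (hab : a ≤ b) (c : ZMod p) :
    ((Finset.Icc a b).filter fun x : ℤ => (x : ZMod p) = c).card * p ≤ (b - a).toNat + p := by
  have h0 : ((Finset.Icc a b).filter fun x : ℤ => (x : ZMod p) = c).card ≤ (b - a).toNat / p + 1 := by
    have : ((Finset.Icc a b).filter fun x : ℤ => (x : ZMod p) = c).card ≤ (Finset.range ((b - a).toNat / p + 1)).card := by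
      apply Finset.card_le_card_of_injOn (fun x => (x - a).toNat / p)
      · intro x hx
        simp only [Finset.coe_filter, Finset.mem_Icc, Set.mem_setOf_eq] at hx
        simp only [Finset.coe_range, Set.mem_Iio]
        apply Nat.lt_succ_of_le
        apply Nat.div_le_div_right
        omega
      · intro x hx y hy hxy
        simp only [Finset.coe_filter, Finset.mem_Icc, Set.mem_setOf_eq] at hx hy
        have h1 : ((x - y : ℤ) : ZMod p) = 0 := by push_cast; rw [hx.2, hy.2, sub_self]
        rw [ZMod.intCast_zmod_eq_zero_iff_dvd] at h1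
        obtain ⟨k, hk⟩ := h1
        have hp0 : (0 : ℤ) < p := by exact_mod_cast hp
        have e1 : ((x - a).toNat : ℤ) = x - a := Int.toNat_of_nonneg (by omega)
        have e2 : ((y - a).toNat : ℤ) = y - a := Int.toNat_of_nonneg (by omega)
        simp only at hxy
        have m1 := Nat.div_add_mod (x - a).toNat p
        have m2 := Nat.div_add_mod (y - a).toNat p
        have l1 := Nat.mod_lt (x - a).toNat (show 0 < p from hp)
        have l2 := Nat.mod_lt (y - a).toNat (show 0 < p from hp)
        rw [hxy] at m1
        generalize (x - a).toNat % p = r1 at m1 l1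
        generalize (y - a).toNat % p = r2 at m2 l2
        generalize p * ((y - a).toNat / p) = q at m1 m2
        have h3 : |x - y| < p := by
          rw [abs_lt]
          constructor <;> omega
        have h4 : k = 0 := by
          rw [hk, abs_mul, abs_of_pos hp0] at h3
          have : |k| < 1 := by nlinarith
          exact Int.abs_lt_one_iff.1 this
        rw [h4, mul_zero] at hk
        omega
    simpa using this
  calc _ ≤ ((b - a).toNat / p + 1) * p := Nat.mul_le_mul_right _ h0
    _ = (b - a).toNat / p * p + p := by ring
    _ ≤ _ := by have := Nat.div_mul_le_self (b - a).toNat p; omega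

theorem main : TaskClass := by
  intro k H p hH hp hpH c
  have h1 : ((V k H).filter fun a => ∀ i, (a i : ZMod p) = c i) =
      Fintype.piFinset fun i : Fin (k + 1) =>
        (if i = Fin.last k then Finset.Icc (1 : ℤ) H else Finset.Icc (-(H : ℤ)) H).filter
          fun x : ℤ => (x : ZMod p) = c i := by
    ext a
    simp only [V, Finset.mem_filter, Fintype.mem_piFinset]
    constructor
    · rintro ⟨h1, h2⟩ i
      exact ⟨h1 i, h2 i⟩
    · intro h
      exact ⟨fun i => (h i).1, fun i => (h i).2⟩
  rw [h1]
  unfold V
  rw [Fintype.card_piFinset, Fintype.card_piFinset]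
  have e1 : ∀ x : ℕ, x ^ (k + 1) = ∏ _i : Fin (k + 1), x := by
    intro x; simp
  rw [e1 p, e1 4, ← Finset.prod_mul_distrib, ← Finset.prod_mul_distrib]
  apply Finset.prod_le_prod'
  intro i _
  by_cases hi : i = Fin.last k
  · rw [if_pos hi]
    have h2 := class_card 1 H p hp (by exact_mod_cast hH) (c i)
    have h3 : (Finset.Icc (1 : ℤ) H).card = H := by rw [Int.card_Icc]; omega
    rw [h3]
    refine h2.trans ?_
    omega
  · rw [if_neg hi]
    have h2 := class_card (-(H : ℤ)) H p hp (by omega) (c i)
    have h3 : (Finset.Icc (-(H : ℤ)) H).card = 2 * H + 1 := by rw [Int.card_Icc]; omega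
    rw [h3]
    refine h2.trans ?_
    omega

end Pool.Agent.Q20.BZ.TaskClassPf
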