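import Mathlib

set_option autoImplicit false

/-!
# MP_32694d_nt: Bezout denominator versus resultant. Blueprint.

Full answer: for all `m, n ≥ 2` the limit exists and is `1 / ζ(2)² = 36 / π⁴ < 1/2`.

`B = R` iff the cokernel of the Sylvester map of `(f, g)` is generated by the class of `1`, iff for all primes `p` the
reductions are `Good`: not both leading coefficients vanish and all common divisors have degree `≤ 1`. The number of good
pairs modulo `p` is `(p² - 1)² p^(m+n-2)`. Primes `p ≤ M`: Chinese remainder theorem. Primes `M < p ≤ 2H+1`: count the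
classes. Primes `p > 2H+1`: for fixed `g` and fixed coefficients of `f` but the constant one, a bad `p` divides the
discriminant `Dx` of `y ↦ Res(f + y, g)`.
-/

open Polynomial Filter Topology
open scoped Classical

namespace Pool.Agent.Q20.BZ

/-! ### definitions -/

/-- the polynomial with the coefficients `a 0, ..., a k` -/
noncomputable def pol {R : Type} [CommRing R] {k : ℕ} (a : Fin (k + 1) → R) : R[X] := ∑ i, C (a i) * X ^ (i : ℕ)

/-- the local condition: not both leading coefficients (of the formal degrees `m`, `n`) vanish, and all common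
divisors have degree at most one -/
def Good {F : Type} [Field F] (m n : ℕ) (f g : F[X]) : Prop :=
  (f.coeff m ≠ 0 ∨ g.coeff n ≠ 0) ∧ ∀ h : F[X], h ∣ f → h ∣ g → h.natDegree ≤ 1

/-- pairs of coefficient vectors -/
abbrev W (m n : ℕ) (R : Type) : Type := (Fin (m + 1) → R) × (Fin (n + 1) → R)

/-- reduction modulo `p` -/
def red (p : ℕ) {m n : ℕ} (x : W m n ℤ) : W m n (ZMod p) := (fun i => (x.1 i : ZMod p), fun i => (x.2 i : ZMod p))

/-- the condition at the prime `p` -/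
def OkAt (m n p : ℕ) (x : W m n ℤ) : Prop := ∀ _ : Fact p.Prime, Good m n (pol (red p x).1) (pol (red p x).2)

/-- coefficient vectors in the box, leading coefficient positive -/
noncomputable def V (k H : ℕ) : Finset (Fin (k + 1) → ℤ) :=
  Fintype.piFinset fun i => if i = Fin.last k then Finset.Icc (1 : ℤ) H else Finset.Icc (-(H : ℤ)) H

/-- the box of pairs -/
noncomputable def BX (m n H : ℕ) : Finset (W m n ℤ) := V m H ×ˢ V n H

/-- exceptional pairs: `g` has a multiple complex zero, or `f` takes the same value at two zeros of `g` -/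
def Exc {m n : ℕ} (x : W m n ℤ) : Prop :=
  (∃ z : ℂ, aeval z (pol x.2) = 0 ∧ aeval z (derivative (pol x.2)) = 0) ∨
    ∃ z w : ℂ, z ≠ w ∧ aeval z (pol x.2) = 0 ∧ aeval w (pol x.2) = 0 ∧ aeval z (pol x.1) = aeval w (pol x.1)

/-- the polynomial `y ↦ Res(f + y, g)` -/
noncomputable def Rx {m n : ℕ} (x : W m n ℤ) : ℤ[X] :=
  resultant ((pol x.1).map (C : ℤ →+* ℤ[X]) + C (X : ℤ[X])) ((pol x.2).map (C : ℤ →+* ℤ[X])) m n

/-- the resultant of `Rx` and its derivative -/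
noncomputable def Dx {m n : ℕ} (x : W m n ℤ) : ℤ := resultant (Rx x) (derivative (Rx x)) n (n - 1)

/-- sum of the absolute values of the coefficients -/
noncomputable def nm (P : ℤ[X]) : ℕ := ∑ i ∈ P.support, (P.coeff i).natAbs

/-- the least positive `N` in the image of the Sylvester map -/
noncomputable def N0 (m n : ℕ) (f g : ℤ[X]) : ℕ :=
  sInf {N : ℕ | 0 < N ∧ ∃ u v : ℤ[X], u.degree < n ∧ v.degree < m ∧ C (N : ℤ) = u * f + v * g}

/-- the Bezout denominator -/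
noncomputable def bez (f g : ℤ[X]) : ℕ :=
  sInf {N : ℕ | 0 < N ∧ ∃ p q : ℚ[X], p * f.map (Int.castRingHom ℚ) + q * g.map (Int.castRingHom ℚ) = 1 ∧
    p.degree < g.degree ∧ q.degree < f.degree ∧ (∃ P : ℤ[X], P.map (Int.castRingHom ℚ) = C (N : ℚ) * p) ∧
    ∃ Q : ℤ[X], Q.map (Int.castRingHom ℚ) = C (N : ℚ) * q}

/-- every polynomial of degree `< m + n` is a combination of `f`, `g` and a constant -/
def Onto {F : Type} [CommRing F] (m n : ℕ) (f g : F[X]) : Prop :=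
  ∀ w : F[X], w.degree < ((m + n : ℕ) : WithBot ℕ) → ∃ (u v : F[X]) (c : F), u.degree < n ∧ v.degree < m ∧
    w = u * f + v * g + C c

/-! ### algebra -/

/-- TASK Alg. (→) if `f.coeff m ≠ 0`: the gcd `h` has degree 0 (Bezout, reduce `v` modulo `f`) or degree 1 (`h` divides
`w - w(a)`, divide everything by `h`); symmetric if `g.coeff n ≠ 0`. (←) `w = X^(m+n-1)` and `w = X`. -/
def TaskAlg : Prop := ∀ (F : Type) [Field F] (m n : ℕ) (f g : F[X]), 1 ≤ m → 1 ≤ n → f.natDegree ≤ m → g.natDegree ≤ n →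
  (Good m n f g ↔ Onto m n f g)

/-- TASK Order. (←): a proper subgroup `⟨x⟩` lies in a maximal subgroup, the quotient is simple, hence of prime order
`p`, so it contains `p A`. Or: the quotient `A / ⟨x⟩` is divisible by all `p`, hence trivial. -/
def TaskOrder : Prop := ∀ (A : Type) [AddCommGroup A] [Finite A] (x : A),
  addOrderOf x = Nat.card A ↔ ∀ p : ℕ, p.Prime → ∀ y : A, ∃ (k : ℤ) (z : A), y = k • x + (p : ℤ) • z

/-- TASK Index. `Submodule.natAbs_det_basis_change` / `Submodule.natAbs_det_equiv` and `toMatrix_sylvesterMap'`. -/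
def TaskIndex : Prop := ∀ (m n : ℕ) (f g : ℤ[X]) (hf : f.natDegree ≤ m) (hg : g.natDegree ≤ n),
  resultant f g m n ≠ 0 →
    Nat.card (↥(degreeLT ℤ (m + n)) ⧸ LinearMap.range (sylvesterMap f g hf hg)) = (resultant f g m n).natAbs

/-- TASK Global. The order of the class of `1` in the cokernel is `N0`; reduce and lift coefficients. -/
def TaskGlobal : Prop := TaskOrder → TaskIndex → ∀ (m n : ℕ) (f g : ℤ[X]), 1 ≤ m → 1 ≤ n → f.natDegree ≤ m →
  g.natDegree ≤ n → resultant f g m n ≠ 0 →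
    (N0 m n f g = (resultant f g m n).natAbs ↔ ∀ p : ℕ, p.Prime →
      Onto m n (f.map (Int.castRingHom (ZMod p))) (g.map (Int.castRingHom (ZMod p))))

/-- TASK Bezout. The two sets of integers are equal. -/
def TaskBezout : Prop := ∀ (m n : ℕ) (f g : ℤ[X]), f.natDegree = m → g.natDegree = n → 1 ≤ m → 1 ≤ n →
  bez f g = N0 m n f g

/-! ### counting modulo `p` -/

/-- TASK MonicCount -/
def TaskMonicCount : Prop := ∀ (F : Type) [Field F] [Finite F] (k : ℕ),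
  Nat.card {f : F[X] // f.Monic ∧ f.natDegree = k} = Nat.card F ^ k

/-- TASK MonicBad. Bijection: `(f, g) = (h f₁, h g₁)`, `h` the monic gcd, `h = X² h' + c₁ X + c₀`, to
`((h' f₁, h' g₁), c₀, c₁)`; `h'` is the gcd of the image pair, a monic pair of degrees `(m, n)`. -/
def TaskMonicBad : Prop := TaskMonicCount → ∀ (F : Type) [Field F] [Finite F] (m n : ℕ),
  Nat.card {x : F[X] × F[X] // (x.1.Monic ∧ x.1.natDegree = m + 2) ∧ (x.2.Monic ∧ x.2.natDegree = n + 2) ∧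
    ∃ h : F[X], h ∣ x.1 ∧ h ∣ x.2 ∧ 2 ≤ h.natDegree} = Nat.card F ^ (m + n + 2)

/-- the number of pairs of exact degrees `j`, `k` whose common divisors have degree at most one -/
noncomputable def E (F : Type) [Field F] (j k : ℕ) : ℕ :=
  Nat.card {x : F[X] × F[X] // (x.1 ≠ 0 ∧ x.1.natDegree = j) ∧ (x.2 ≠ 0 ∧ x.2.natDegree = k) ∧
    ∀ h : F[X], h ∣ x.1 → h ∣ x.2 → h.natDegree ≤ 1}

/-- TASK Exact. Divide by the leading coefficients. -/
def TaskExact : Prop := TaskMonicCount → TaskMonicBad → ∀ (F : Type) [Field F] [Finite F] (j k : ℕ),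
  E F j k = (Nat.card F - 1) ^ 2 *
    (if j ≤ 1 ∨ k ≤ 1 then Nat.card F ^ (j + k) else Nat.card F ^ (j + k) - Nat.card F ^ (j + k - 2))

/-- TASK Split. Split the good pairs by the exact degrees: `f.coeff m ≠ 0` (then `g ≠ 0`), or `f.coeff m = 0` and
`g.coeff n ≠ 0` (then `f ≠ 0`). -/
def TaskSplit : Prop := ∀ (F : Type) [Field F] [Finite F] (m n : ℕ), 2 ≤ m → 2 ≤ n →
  Nat.card {x : W m n F // Good m n (pol x.1) (pol x.2)} =
    ∑ k ∈ Finset.range (n + 1), E F m k + ∑ j ∈ Finset.range m, E F j n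

/-- TASK GoodCount. Only arithmetic. -/
def TaskGoodCount : Prop := TaskMonicCount → TaskMonicBad → TaskExact → TaskSplit →
  ∀ (F : Type) [Field F] [Finite F] (m n : ℕ), 2 ≤ m → 2 ≤ n →
    Nat.card {x : W m n F // Good m n (pol x.1) (pol x.2)} = (Nat.card F ^ 2 - 1) ^ 2 * Nat.card F ^ (m + n - 2)

/-! ### boxes -/

/-- TASK Class. At most `4 |I| / p` elements of each coordinate interval `I` lie in a class. -/
def TaskClass : Prop := ∀ (k H p : ℕ), 1 ≤ H → 1 ≤ p → p ≤ 2 * H + 1 → ∀ c : Fin (k + 1) → ZMod p,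
  ((V k H).filter fun a => ∀ i, (a i : ZMod p) = c i).card * p ^ (k + 1) ≤ 4 ^ (k + 1) * (V k H).card

/-- TASK Small. The bad classes modulo `p` are `p^(m+n+2) - (p²-1)² p^(m+n-2) ≤ 2 p^(m+n)` many. The hypothesis is the
conclusion of `TaskGoodCount`. -/
def TaskSmall : Prop := TaskClass →
  (∀ (F : Type) [Field F] [Finite F] (m n : ℕ), 2 ≤ m → 2 ≤ n →
    Nat.card {x : W m n F // Good m n (pol x.1) (pol x.2)} = (Nat.card F ^ 2 - 1) ^ 2 * Nat.card F ^ (m + n - 2)) →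
  ∀ (m n H p : ℕ), 2 ≤ m → 2 ≤ n → 1 ≤ H → p.Prime → p ≤ 2 * H + 1 →
    ((BX m n H).filter fun x => ¬ OkAt m n p x).card * p ^ 2 ≤ 2 * 4 ^ (m + n + 2) * (BX m n H).card

/-- TASK Equi. Equidistribution of the box in the classes modulo `Q`. -/
def TaskEqui : Prop := ∀ (m n Q : ℕ), 1 ≤ Q → ∀ A : Set (W m n (ZMod Q)),
  Tendsto (fun H : ℕ => (((BX m n H).filter fun x => red Q x ∈ A).card : ℝ) / (BX m n H).card) atTop
    (𝓝 ((Nat.card A : ℝ) / (Q : ℝ) ^ (m + n + 2)))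

/-- TASK CRT. Chinese remainder theorem for all coordinates (`ZMod.prodEquivPi`, or induction on `S`). -/
def TaskCRT : Prop := ∀ (m n : ℕ) (S : Finset ℕ), (∀ p ∈ S, p.Prime) → ∀ cond : ∀ p : ℕ, Set (W m n (ZMod p)),
  Nat.card {y : W m n (ZMod (∏ p ∈ S, p)) // ∀ p ∈ S,
    ((fun i => ((y.1 i).val : ZMod p), fun i => ((y.2 i).val : ZMod p)) : W m n (ZMod p)) ∈ cond p} =
      ∏ p ∈ S, Nat.card (cond p)

/-- TASK Density -/
def TaskDensity : Prop := TaskEqui → TaskCRT →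
  (∀ (F : Type) [Field F] [Finite F] (m n : ℕ), 2 ≤ m → 2 ≤ n →
    Nat.card {x : W m n F // Good m n (pol x.1) (pol x.2)} = (Nat.card F ^ 2 - 1) ^ 2 * Nat.card F ^ (m + n - 2)) →
  ∀ (m n M : ℕ), 2 ≤ m → 2 ≤ n →
    Tendsto (fun H : ℕ => (((BX m n H).filter fun x => ∀ p : ℕ, p.Prime → p ≤ M → OkAt m n p x).card : ℝ) /
      (BX m n H).card) atTop (𝓝 (∏ p ∈ (Finset.range (M + 1)).filter Nat.Prime, (1 - 1 / (p : ℝ) ^ 2) ^ 2))

/-- TASK Fiber. Vary one coordinate which is not the leading one. -/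
def TaskFiber : Prop := ∀ (m n H K : ℕ) (Pr : W m n ℤ → Prop),
  (∀ i : Fin (m + 1), i ≠ Fin.last m →
    (∀ x ∈ BX m n H, ((Finset.Icc (-(H : ℤ)) H).filter fun t => Pr (Function.update x.1 i t, x.2)).card ≤ K) →
      ((BX m n H).filter Pr).card * (2 * H + 1) ≤ K * (BX m n H).card) ∧
  (∀ i : Fin (n + 1), i ≠ Fin.last n →
    (∀ x ∈ BX m n H, ((Finset.Icc (-(H : ℤ)) H).filter fun t => Pr (x.1, Function.update x.2 i t)).card ≤ K) →
      ((BX m n H).filter Pr).card * (2 * H + 1) ≤ K * (BX m n H).card)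

/-! ### exceptional sets: complex zeros -/

/-- TASK NonCoprime. `t = -f₀(z)`, `z` a zero of `g`. -/
def TaskNonCoprime : Prop := ∀ (m n : ℕ) (x : W m n ℤ), x.2 (Fin.last n) ≠ 0 → ∀ T : Finset ℤ,
  (∀ t ∈ T, ∃ z : ℂ, aeval z (pol (Function.update x.1 0 t)) = 0 ∧ aeval z (pol x.2) = 0) → T.card ≤ n

/-- TASK Double. `t = -g₀(z)`, `z` a zero of `g₀'`, `n ≥ 1`. -/
def TaskDouble : Prop := ∀ (n : ℕ) (b : Fin (n + 1) → ℤ), 1 ≤ n → b (Fin.last n) ≠ 0 → ∀ T : Finset ℤ,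
  (∀ t ∈ T, ∃ z : ℂ, aeval z (pol (Function.update b 0 t)) = 0 ∧
    aeval z (derivative (pol (Function.update b 0 t))) = 0) → T.card ≤ n

/-- TASK Equal. `s (z - w) = f₁(w) - f₁(z)`; at most `n²` pairs `(z, w)` of zeros of `g`. -/
def TaskEqual : Prop := ∀ (m n : ℕ) (x : W (m + 2) n ℤ), x.2 (Fin.last n) ≠ 0 → ∀ T : Finset ℤ,
  (∀ s ∈ T, ∃ z w : ℂ, z ≠ w ∧ aeval z (pol x.2) = 0 ∧ aeval w (pol x.2) = 0 ∧
    aeval z (pol (Function.update x.1 1 s)) = aeval w (pol (Function.update x.1 1 s))) → T.card ≤ n ^ 2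

/-! ### large primes -/

/-- TASK Roots. `resultant_comm`, `resultant_eq_prod_eval` over `ℂ[X]` (the zeros of `g` are constants), or over `ℂ` after
evaluation of `y`. -/
def TaskRoots : Prop := ∀ (m n : ℕ) (x : W m n ℤ), 1 ≤ m → 1 ≤ n → x.2 (Fin.last n) ≠ 0 →
  (∃ ε : ℂ, ε ≠ 0 ∧ (Rx x).map (Int.castRingHom ℂ) =
    C ε * (((pol x.2).map (Int.castRingHom ℂ)).roots.map fun z => X + C (aeval z (pol x.1))).prod) ∧
  (Rx x).natDegree = n ∧ (Rx x).leadingCoeff.natAbs = (x.2 (Fin.last n)).natAbs ^ m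

/-- TASK Dne. `resultant_eq_zero_iff` over `ℂ`; the zeros of `Rx` are simple. -/
def TaskDne : Prop := TaskRoots → ∀ (m n : ℕ) (x : W m n ℤ), 1 ≤ m → 1 ≤ n → x.2 (Fin.last n) ≠ 0 → ¬ Exc x → Dx x ≠ 0

/-- TASK BadDvd. Over `F = ZMod p`, `f = h f₁`, `g = h g₁`, `deg h ≥ 2`:
`Res(f + y, g) = Res(f + y, h) Res(f + y, g₁)` (`resultant_mul_right`) and `Res(h f₁ + y, h) = ± lc(h)^m y^(deg h)`
(`resultant_add_mul_left`), so `y²` divides the reduction of `Rx`. -/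
def TaskBadDvd : Prop := ∀ (m n p : ℕ) (x : W m n ℤ), 1 ≤ m → 1 ≤ n → p.Prime → ((x.2 (Fin.last n) : ℤ) : ZMod p) ≠ 0 →
  ¬ OkAt m n p x → (p : ℤ) ∣ (Rx x).coeff 0 ∧ (p : ℤ) ∣ (Rx x).coeff 1

/-- TASK Shift. Both sides are resultants (`resultant_map_map` for `X ↦ X + t`). -/
def TaskShift : Prop := ∀ (m n : ℕ) (x : W m n ℤ) (t : ℤ),
  Rx ((Function.update x.1 0 t, x.2) : W m n ℤ) = (Rx ((Function.update x.1 0 0, x.2) : W m n ℤ)).comp (X + C t)

/-- TASK NormDet. `nm` is subadditive and submultiplicative. -/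
def TaskNormDet : Prop := ∀ (N K : ℕ) (M : Matrix (Fin N) (Fin N) ℤ[X]), (∀ i j, nm (M i j) ≤ K) →
  nm M.det ≤ N.factorial * K ^ N

/-- TASK Bound. Apply `TaskNormDet` to `Rx` and `Matrix.det_le` (or `TaskNormDet` again) to `Dx`. -/
def TaskBound : Prop := TaskNormDet → ∀ m n : ℕ, ∃ Ex : ℕ, ∀ H : ℕ, 2 ≤ H → ∀ x : W m n ℤ,
  (∀ i, |x.1 i| ≤ H) → (∀ i, |x.2 i| ≤ H) → |Dx x| ≤ (H : ℤ) ^ Ex

/-- TASK Primes. The product of the primes divides `D`. -/
def TaskPrimes : Prop := ∀ (H Ex : ℕ) (D : ℤ), 2 ≤ H → D ≠ 0 → |D| ≤ (H : ℤ) ^ Ex → ∀ P : Finset ℕ,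
  (∀ p ∈ P, p.Prime ∧ H < p ∧ (p : ℤ) ∣ D) → P.card ≤ Ex

/-- TASK BigFiber. For `t` with a bad `p`: `p` divides `Rx` and its derivative at the point `t` (`TaskShift`), where `Rx`
belongs to the constant coefficient `0`, so `p ∣ Dx` (`exists_mul_add_mul_eq_C_resultant`); there are at most `Ex` such
`p`, and for each at most `n` such `t` (zeros of a nonzero polynomial of degree `n` modulo `p > 2H+1`). `K = Ex * n`. -/
def TaskBigFiber : Prop := TaskRoots → TaskDne → TaskBadDvd → TaskShift → TaskNormDet → TaskBound → TaskPrimes →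
  ∀ m n : ℕ, 1 ≤ m → 1 ≤ n → ∃ K : ℕ, ∀ H : ℕ, 2 ≤ H → ∀ x ∈ BX m n H, ¬ Exc x →
    ((Finset.Icc (-(H : ℤ)) H).filter fun t => ∃ p : ℕ, p.Prime ∧ 2 * H + 1 < p ∧
      ¬ OkAt m n p (Function.update x.1 0 t, x.2)).card ≤ K

/-- TASK Euler. `∏ (1 - p^(-2)) = 1 / ζ(2)`, `riemannZeta_eulerProduct_tprod` / `riemannZeta_two`; `π > 3.14`. -/
def TaskEuler : Prop :=
  Tendsto (fun M : ℕ => ∏ p ∈ (Finset.range (M + 1)).filter Nat.Prime, (1 - 1 / (p : ℝ) ^ 2) ^ 2) atTop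
    (𝓝 (36 / Real.pi ^ 4)) ∧ 36 / Real.pi ^ 4 < 1 / 2

/-! ### assembly -/

/-- no common complex zero -/
def Cop {m n : ℕ} (x : W m n ℤ) : Prop := ∀ z : ℂ, ¬ (aeval z (pol x.1) = 0 ∧ aeval z (pol x.2) = 0)

/-- TASK ResZero. `resultant_map_map` to `ℂ`, `resultant_eq_zero_iff`, `ℂ` is algebraically closed. -/
def TaskResZero : Prop := ∀ (m n : ℕ) (x : W m n ℤ), 1 ≤ m → 1 ≤ n → x.1 (Fin.last m) ≠ 0 → x.2 (Fin.last n) ≠ 0 →
  (resultant (pol x.1) (pol x.2) m n ≠ 0 ↔ Cop x)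

/-- TASK Crit. Assembly of the algebra: `TaskAlg`, `TaskGlobal`, `TaskBezout`. -/
def TaskCrit : Prop := TaskAlg → TaskOrder → TaskIndex → TaskGlobal → TaskBezout →
  ∀ (m n : ℕ) (x : W m n ℤ), 1 ≤ m → 1 ≤ n → x.1 (Fin.last m) ≠ 0 → x.2 (Fin.last n) ≠ 0 →
    resultant (pol x.1) (pol x.2) m n ≠ 0 →
      (bez (pol x.1) (pol x.2) = (resultant (pol x.1) (pol x.2) m n).natAbs ↔ ∀ p : ℕ, p.Prime → OkAt m n p x)

/-- TASK Tail. Primes `M < p ≤ 2H+1`: the first hypothesis (conclusion of `TaskSmall`) and `∑_{p > M} 1/p² ≤ 1/M`; pairs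
with a common zero, exceptional pairs and primes `> 2H+1`: `TaskFiber` and the statements on the fibres; the last
hypothesis is the conclusion of `TaskBigFiber`. -/
def TaskTail : Prop :=
  (∀ (m n H p : ℕ), 2 ≤ m → 2 ≤ n → 1 ≤ H → p.Prime → p ≤ 2 * H + 1 →
    ((BX m n H).filter fun x => ¬ OkAt m n p x).card * p ^ 2 ≤ 2 * 4 ^ (m + n + 2) * (BX m n H).card) →
  TaskFiber → TaskNonCoprime → TaskDouble → TaskEqual →
  (∀ m n : ℕ, 1 ≤ m → 1 ≤ n → ∃ K : ℕ, ∀ H : ℕ, 2 ≤ H → ∀ x ∈ BX m n H, ¬ Exc x →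
    ((Finset.Icc (-(H : ℤ)) H).filter fun t => ∃ p : ℕ, p.Prime ∧ 2 * H + 1 < p ∧
      ¬ OkAt m n p (Function.update x.1 0 t, x.2)).card ≤ K) →
  ∀ m n : ℕ, 2 ≤ m → 2 ≤ n → ∃ K : ℝ, 0 ≤ K ∧
    (∀ H M : ℕ, 2 ≤ H → 1 ≤ M →
      (((BX m n H).filter fun x => ∀ p : ℕ, p.Prime → p ≤ M → OkAt m n p x).card : ℝ) ≤
        ((BX m n H).filter fun x => Cop x ∧ ∀ p : ℕ, p.Prime → OkAt m n p x).card +
          K * (BX m n H).card * (1 / (M : ℝ) + 1 / (H : ℝ))) ∧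
    ∀ H : ℕ, 2 ≤ H → ((BX m n H).card : ℝ) ≤ ((BX m n H).filter Cop).card + K * (BX m n H).card / (H : ℝ)

/-- TASK Limit -/
def TaskLimit : Prop := ∀ (N S E : ℕ → ℝ) (A : ℕ → ℕ → ℝ) (P : ℕ → ℝ) (L K : ℝ), 0 ≤ K → (∀ H, 2 ≤ H → 0 < N H) →
  (∀ M, Tendsto (fun H => A M H / N H) atTop (𝓝 (P M))) → Tendsto P atTop (𝓝 L) →
  (∀ H M : ℕ, 2 ≤ H → 1 ≤ M → E H ≤ A M H ∧ A M H ≤ E H + K * N H * (1 / (M : ℝ) + 1 / (H : ℝ))) →
  (∀ H : ℕ, 2 ≤ H → S H ≤ N H ∧ N H ≤ S H + K * N H / (H : ℝ)) →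
  Tendsto (fun H => E H / S H) atTop (𝓝 L)

end Pool.Agent.Q20.BZ
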