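import Mathlib
import Pool.Agent.Q20.BZ.Stmts

set_option autoImplicit false

open Polynomial Filter Topology
open scoped Classical

namespace Pool.Agent.Q20.BZ.TaskCritPf

theorem natDegree_pol_le {R : Type} [CommRing R] {k : ℕ} (a : Fin (k + 1) → R) : (pol a).natDegree ≤ k := by
  unfold pol
  refine natDegree_sum_le_of_forall_le _ _ fun i _ => ?_
  exact (natDegree_C_mul_X_pow_le _ _).trans (Nat.lt_succ_iff.1 i.2)

theorem coeff_pol {R : Type} [CommRing R] {k : ℕ} (a : Fin (k + 1) → R) : (pol a).coeff k = a (Fin.last k) := by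
  unfold pol
  rw [finsetSum_coeff, Finset.sum_eq_single (Fin.last k)]
  · rw [coeff_C_mul, coeff_X_pow]
    simp
  · intro j _ hj
    rw [coeff_C_mul, coeff_X_pow, if_neg, mul_zero]
    intro h
    apply hj
    apply Fin.ext
    rw [Fin.val_last]
    exact h.symm
  · intro h
    exact absurd (Finset.mem_univ _) h

theorem natDegree_pol {R : Type} [CommRing R] {k : ℕ} (a : Fin (k + 1) → R) (h : a (Fin.last k) ≠ 0) :
    (pol a).natDegree = k :=
  le_antisymm (natDegree_pol_le a) (le_natDegree_of_ne_zero (by rwa [coeff_pol]))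

theorem map_pol {R S : Type} [CommRing R] [CommRing S] (φ : R →+* S) {k : ℕ} (a : Fin (k + 1) → R) :
    (pol a).map φ = pol fun i => φ (a i) := by
  unfold pol
  rw [Polynomial.map_sum]
  refine Finset.sum_congr rfl fun i _ => ?_
  rw [Polynomial.map_mul, map_C, Polynomial.map_pow, map_X]

theorem main : Pool.Agent.Q20.BZ.TaskCrit := by
  intro hAlg hOrd hIdx hGlob hBez m n x hm hn h1 h2 hres
  have d1 := natDegree_pol x.1 h1
  have d2 := natDegree_pol x.2 h2
  rw [hBez m n _ _ d1 d2 hm hn, hGlob hOrd hIdx m n _ _ hm hn d1.le d2.le hres]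
  refine forall_congr' fun p => forall_congr' fun hp => ?_
  have : Fact p.Prime := ⟨hp⟩
  have e1 : (pol x.1).map (Int.castRingHom (ZMod p)) = pol (red p x).1 := map_pol _ _
  have e2 : (pol x.2).map (Int.castRingHom (ZMod p)) = pol (red p x).2 := map_pol _ _
  rw [e1, e2]
  have h3 := hAlg (ZMod p) m n (pol (red p x).1) (pol (red p x).2) hm hn (natDegree_pol_le _) (natDegree_pol_le _)
  constructor
  · intro h _
    exact h3.2 h
  · intro h
    exact h3.1 (h ⟨hp⟩)

end Pool.Agent.Q20.BZ.TaskCritPf
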