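import Pool.Agent.Q20.BZ.Stmts

set_option autoImplicit false

open Polynomial Filter Topology
open scoped Classical

namespace Pool.Agent.Q20.BZ.TaskDensityPf

open Pool.Agent.Q20.BZ

private lemma val_cast {Q p : ℕ} [NeZero Q] (h : p ∣ Q) (k : ℤ) :
    (((k : ZMod Q).val : ℕ) : ZMod p) = (k : ZMod p) := by
  rw [ZMod.natCast_val, ZMod.cast_intCast h]

private lemma fac (p m n : ℕ) (hp : p.Prime) (hm : 2 ≤ m) (hn : 2 ≤ n) :
    (((p ^ 2 - 1) ^ 2 * p ^ (m + n - 2) : ℕ) : ℝ) / (p : ℝ) ^ (m + n + 2) = (1 - 1 / (p : ℝ) ^ 2) ^ 2 := by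
  have hp0 : (p : ℝ) ≠ 0 := by exact_mod_cast hp.ne_zero
  have h1 : 1 ≤ p ^ 2 := Nat.one_le_pow _ _ hp.pos
  obtain ⟨k, hk⟩ : ∃ k, m + n - 2 = k := ⟨_, rfl⟩
  have hk2 : m + n + 2 = k + 4 := by omega
  rw [hk, hk2]
  push_cast [Nat.cast_sub h1]
  field_simp
  ring

theorem main : Pool.Agent.Q20.BZ.TaskDensity := by
  intro hE hC hG m n M hm hn
  set S := (Finset.range (M + 1)).filter Nat.Prime with hS
  have hSp : ∀ p ∈ S, p.Prime := fun p hp => (Finset.mem_filter.1 hp).2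
  set Q := ∏ p ∈ S, p with hQ
  have hQ0 : Q ≠ 0 := Finset.prod_ne_zero_iff.2 fun p hp => (hSp p hp).ne_zero
  have : NeZero Q := ⟨hQ0⟩
  let cond : ∀ p : ℕ, Set (W m n (ZMod p)) := fun p => {y | ∀ _ : Fact p.Prime, Good m n (pol y.1) (pol y.2)}
  obtain ⟨A, hA⟩ : ∃ A : Set (W m n (ZMod Q)), ∀ y, y ∈ A ↔ ∀ p ∈ S,
    ((fun i => ((y.1 i).val : ZMod p), fun i => ((y.2 i).val : ZMod p)) : W m n (ZMod p)) ∈ cond p :=
    ⟨{y | ∀ p ∈ S,
      ((fun i => ((y.1 i).val : ZMod p), fun i => ((y.2 i).val : ZMod p)) : W m n (ZMod p)) ∈ cond p},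
      fun y => Iff.rfl⟩
  have h1 := hE m n Q (Nat.one_le_iff_ne_zero.2 hQ0) A
  have hfil : ∀ x : W m n ℤ, red Q x ∈ A ↔ ∀ p : ℕ, p.Prime → p ≤ M → OkAt m n p x := by
    intro x
    have key : ∀ p ∈ S, ((fun i => (((red Q x).1 i).val : ZMod p), fun i => (((red Q x).2 i).val : ZMod p)) :
        W m n (ZMod p)) = red p x := by
      intro p hp
      have hd : p ∣ Q := Finset.dvd_prod_of_mem _ hp
      refine Prod.ext (funext fun i => ?_) (funext fun i => ?_)
      · exact val_cast hd (x.1 i)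
      · exact val_cast hd (x.2 i)
    constructor
    · intro h p hp hpM
      have hpS : p ∈ S := Finset.mem_filter.2 ⟨Finset.mem_range.2 (by omega), hp⟩
      have h2 := (hA _).1 h p hpS
      rw [key p hpS] at h2
      exact h2
    · intro h
      rw [hA]
      intro p hpS
      rw [key p hpS]
      exact h p (hSp p hpS) (by have := Finset.mem_range.1 (Finset.mem_filter.1 hpS).1; omega)
  have hcard : (Nat.card A : ℝ) / (Q : ℝ) ^ (m + n + 2) = ∏ p ∈ S, (1 - 1 / (p : ℝ) ^ 2) ^ 2 := by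
    have h2 : Nat.card A = ∏ p ∈ S, Nat.card (cond p) :=
      (Nat.card_congr (Equiv.subtypeEquivRight hA)).trans (hC m n S hSp cond)
    have h3 : ∀ p ∈ S, Nat.card (cond p) = (p ^ 2 - 1) ^ 2 * p ^ (m + n - 2) := by
      intro p hp
      have : Fact p.Prime := ⟨hSp p hp⟩
      have h4 := hG (ZMod p) m n hm hn
      rw [Nat.card_zmod] at h4
      rw [← h4]
      refine Nat.card_congr (Equiv.subtypeEquivRight fun y => ?_)
      constructor
      · intro h; exact h ⟨hSp p hp⟩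
      · intro h _; exact h
    rw [h2, Finset.prod_congr rfl h3, hQ]
    push_cast
    rw [← Finset.prod_pow, ← Finset.prod_div_distrib]
    refine Finset.prod_congr rfl fun p hp => ?_
    have := fac p m n (hSp p hp) hm hn
    push_cast at this
    exact this
  rw [← hcard]
  refine h1.congr fun H => ?_
  refine congrArg (fun k : ℕ => (k : ℝ) / ((BX m n H).card : ℝ)) (congrArg Finset.card ?_)
  refine Finset.ext fun x => ?_
  rw [Finset.mem_filter, Finset.mem_filter]
  exact and_congr_right fun _ => hfil x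

end Pool.Agent.Q20.BZ.TaskDensityPf
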