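import Pool.Agent.Q20.BZ.Stmts

set_option autoImplicit false

open Polynomial

namespace Pool.Agent.Q20.BZ.TaskDnePf

open Pool.Agent.Q20.BZ

theorem main : Pool.Agent.Q20.BZ.TaskDne := by
  intro hroots m n x hm hn hx hexc hD
  obtain ⟨⟨ε, hε, hP⟩, hdeg, -⟩ := hroots m n x hm hn hx
  have hinj : Function.Injective (Int.castRingHom ℂ) := RingHom.injective_int _
  have hdegP : ((Rx x).map (Int.castRingHom ℂ)).natDegree = n := by
    rw [natDegree_map_eq_of_injective hinj, hdeg]
  have hP0 : (Rx x).map (Int.castRingHom ℂ) ≠ 0 := by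
    intro h
    rw [h, natDegree_zero] at hdegP
    omega
  have hG0 : (pol x.2).map (Int.castRingHom ℂ) ≠ 0 := by
    intro h
    rw [h, roots_zero, Multiset.map_zero, Multiset.prod_zero, mul_one] at hP
    rw [hP, natDegree_C] at hdegP
    omega
  -- the roots of `g` are simple
  have hval : ∀ (z : ℂ) (q : ℤ[X]), (q.map (Int.castRingHom ℂ)).eval z = aeval z q := by
    intro z q
    rw [eval_map, aeval_def]
    rfl
  have hmem : ∀ z ∈ ((pol x.2).map (Int.castRingHom ℂ)).roots, aeval z (pol x.2) = 0 := by
    intro z hz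
    rw [mem_roots hG0, IsRoot.def, hval] at hz
    exact hz
  have hnodup : ((pol x.2).map (Int.castRingHom ℂ)).roots.Nodup := by
    rw [nodup_roots_iff_of_splits hG0 (IsAlgClosed.splits _), Separable,
      isCoprime_iff_aeval_ne_zero_of_isAlgClosed ℂ ℂ]
    intro z
    by_contra hc
    simp only [not_or, not_not] at hc
    refine hexc (Or.inl ⟨z, ?_, ?_⟩)
    · have := hc.1
      rwa [coe_aeval_eq_eval, hval] at this
    · have := hc.2
      rwa [coe_aeval_eq_eval, derivative_map, hval] at this
  have hroots2 : ((Rx x).map (Int.castRingHom ℂ)).roots =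
      (((pol x.2).map (Int.castRingHom ℂ)).roots.map fun z => - aeval z (pol x.1)) := by
    rw [hP, roots_C_mul _ hε]
    have : (((pol x.2).map (Int.castRingHom ℂ)).roots.map fun z => X + C (aeval z (pol x.1))) =
        ((((pol x.2).map (Int.castRingHom ℂ)).roots.map fun z => - aeval z (pol x.1)).map
          fun a => X - C a) := by
      rw [Multiset.map_map]
      refine Multiset.map_congr rfl fun z _ => ?_
      simp
    rw [this, roots_multiset_prod_X_sub_C]
  have hnodup2 : ((Rx x).map (Int.castRingHom ℂ)).roots.Nodup := by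
    rw [hroots2]
    refine Multiset.Nodup.map_on ?_ hnodup
    intro z hz w hw h
    by_contra hne
    exact hexc (Or.inr ⟨z, w, hne, hmem z hz, hmem w hw, neg_injective h⟩)
  have hsep : ((Rx x).map (Int.castRingHom ℂ)).Separable :=
    (nodup_roots_iff_of_splits hP0 (IsAlgClosed.splits _)).1 hnodup2
  have hne := resultant_ne_zero _ _ hsep
  rw [natDegree_derivative, hdegP, derivative_map, resultant_map_map] at hne
  apply hne
  have : resultant (Rx x) (derivative (Rx x)) n (n - 1) = 0 := hD
  rw [this, map_zero]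

end Pool.Agent.Q20.BZ.TaskDnePf
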