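import Pool.Agent.Q20.BZ.Hlp56

/-! # Proof of `TaskDouble` -/

set_option autoImplicit false

open Polynomial

namespace Pool.Agent.Q20.BZ.TaskDoublePf

open Pool.Agent.Q20.BZ.Hlp56

theorem main : Pool.Agent.Q20.BZ.TaskDouble := by
  intro n b hn hb T hT
  set P : ℂ[X] := (derivative (pol (Function.update b 0 0))).map (Int.castRingHom ℂ) with hP
  have hP0 : P ≠ 0 := by
    intro h
    have h1 : P.coeff (n - 1) = 0 := by rw [h, coeff_zero]
    have h2 : (pol (Function.update b 0 0)).coeff (n - 1 + 1) = b (Fin.last n) := by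
      have h3 : n - 1 + 1 = ((Fin.last n : Fin (n + 1)) : ℕ) := by
        rw [Fin.val_last]
        omega
      rw [h3, pol_coeff, Function.update_of_ne]
      intro h4
      have := congrArg Fin.val h4
      simp at this
      omega
    rw [hP, coeff_map, coeff_derivative, h2] at h1
    have h5 : b (Fin.last n) * (((n - 1 : ℕ) : ℤ) + 1) = 0 := by
      have h7 : ((b (Fin.last n) * (((n - 1 : ℕ) : ℤ) + 1) : ℤ) : ℂ) = 0 := by
        rw [eq_intCast] at h1
        exact h1
      exact_mod_cast h7
    rcases mul_eq_zero.1 h5 with h6 | h6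
    · exact hb h6
    · have : (0 : ℤ) ≤ ((n - 1 : ℕ) : ℤ) := Int.natCast_nonneg _
      omega
  have hd : P.natDegree ≤ n := by
    refine (natDegree_map_le).trans ((natDegree_derivative_le _).trans ?_)
    have := pol_natDegree (Function.update b 0 0)
    omega
  refine (card_le_roots P hP0 (fun z => -aeval z (pol (Function.update b 0 0))) T ?_).trans hd
  intro t ht
  obtain ⟨z, h1, h2⟩ := hT t ht
  refine ⟨z, ?_, ?_⟩
  · rw [pol_update_zero, derivative_add, derivative_C, zero_add] at h2
    rw [IsRoot.def, hP, eval_map]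
    simpa [aeval_def] using h2
  · rw [pol_update_zero, map_add, aeval_C] at h1
    have h3 : (algebraMap ℤ ℂ) t = (t : ℂ) := by simp
    rw [h3] at h1
    linear_combination h1

end Pool.Agent.Q20.BZ.TaskDoublePf
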