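import Pool.Agent.Q20.BZ.Stmts

set_option autoImplicit false

open Polynomial Filter Topology
open scoped Classical

namespace Pool.Agent.Q20.BZ.TaskEqualPf

open Pool.Agent.Q20.BZ

theorem pol_update_one {k : ℕ} (a : Fin (k + 2 + 1) → ℤ) (t : ℤ) :
    pol (Function.update a 1 t) = C t * X + pol (Function.update a 1 0) := by
  have key : ∀ s : ℤ, pol (Function.update a 1 s) = C s * X +
      ∑ i ∈ Finset.univ.erase (1 : Fin (k + 2 + 1)), C (a i) * X ^ (i : ℕ) := by
    intro s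
    unfold pol
    rw [← Finset.add_sum_erase _ _ (Finset.mem_univ (1 : Fin (k + 2 + 1)))]
    congr 1
    · have h1 : ((1 : Fin (k + 2 + 1)) : ℕ) = 1 := Fin.val_one (k + 1)
      rw [Function.update_self, h1, pow_one]
    · refine Finset.sum_congr rfl fun i hi => ?_
      rw [Function.update_of_ne (Finset.ne_of_mem_erase hi)]
  rw [key t, key 0]
  simp

theorem pol_coeff_last {k : ℕ} (a : Fin (k + 1) → ℤ) : (pol a).coeff k = a (Fin.last k) := by
  unfold pol
  rw [finsetSum_coeff, Finset.sum_eq_single (Fin.last k)]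
  · simp
  · intro b _ hb
    rw [coeff_C_mul, coeff_X_pow, if_neg, mul_zero]
    intro h
    exact hb (Fin.ext h.symm)
  · simp

theorem pol_natDegree_le {k : ℕ} (a : Fin (k + 1) → ℤ) : (pol a).natDegree ≤ k := by
  unfold pol
  refine natDegree_sum_le_of_forall_le _ _ fun i _ => ?_
  exact (natDegree_C_mul_X_pow_le _ _).trans (Nat.lt_succ_iff.mp i.2)

/-- the complex zeros of `g` -/
theorem zeros_card {k : ℕ} (a : Fin (k + 1) → ℤ) (h : a (Fin.last k) ≠ 0) :
    ∃ Z : Finset ℂ, Z.card ≤ k ∧ ∀ z : ℂ, aeval z (pol a) = 0 → z ∈ Z := by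
  have h0 : pol a ≠ 0 := fun h1 => h (by rw [← pol_coeff_last a, h1, coeff_zero])
  have h1 : (pol a).map (Int.castRingHom ℂ) ≠ 0 := by
    rw [Ne, Polynomial.map_eq_zero_iff (Int.castRingHom ℂ).injective_int]
    exact h0
  refine ⟨((pol a).map (Int.castRingHom ℂ)).roots.toFinset, ?_, ?_⟩
  · refine (Multiset.toFinset_card_le _).trans ((card_roots' _).trans ?_)
    exact natDegree_map_le.trans (pol_natDegree_le a)
  · intro z hz
    rw [Multiset.mem_toFinset, mem_roots h1, IsRoot, eval_map]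
    exact hz

theorem main : Pool.Agent.Q20.BZ.TaskEqual := by
  intro m n x hx T hT
  obtain ⟨Z, hZ, hZ2⟩ := zeros_card x.2 hx
  have hc : (Z ×ˢ Z).card ≤ n ^ 2 := by
    rw [Finset.card_product, pow_two]
    exact Nat.mul_le_mul hZ hZ
  refine (Finset.card_le_card_of_forall_subsingleton
    (fun (t : ℤ) (z : ℂ × ℂ) => z.1 ≠ z.2 ∧ aeval z.1 (pol (Function.update x.1 1 t)) =
      aeval z.2 (pol (Function.update x.1 1 t))) (t := Z ×ˢ Z) ?_ ?_).trans hc
  · intro t ht
    obtain ⟨z, w, h0, h1, h2, h3⟩ := hT t ht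
    exact ⟨(z, w), Finset.mem_product.mpr ⟨hZ2 z h1, hZ2 w h2⟩, h0, h3⟩
  · rintro ⟨z, w⟩ _ t ⟨_, h0, h1⟩ t' ⟨_, _, h2⟩
    have h0' : z ≠ w := h0
    have h1' : aeval z (pol (Function.update x.1 1 t)) =
      aeval w (pol (Function.update x.1 1 t)) := h1
    have h2' : aeval z (pol (Function.update x.1 1 t')) =
      aeval w (pol (Function.update x.1 1 t')) := h2
    rw [pol_update_one] at h1' h2'
    simp only [map_add, map_mul, aeval_C, aeval_X] at h1' h2'
    have h3 : (algebraMap ℤ ℂ t - algebraMap ℤ ℂ t') * (z - w) = 0 := by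
      linear_combination h1' - h2'
    have h4 : algebraMap ℤ ℂ t - algebraMap ℤ ℂ t' = 0 :=
      (mul_eq_zero.mp h3).resolve_right (sub_ne_zero.mpr h0')
    have h5 : algebraMap ℤ ℂ t = algebraMap ℤ ℂ t' := sub_eq_zero.mp h4
    exact_mod_cast h5

end Pool.Agent.Q20.BZ.TaskEqualPf
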