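import Pool.Agent.Q20.BZ.Stmts
set_option autoImplicit false
open Polynomial Filter Topology
open scoped Classical
namespace Pool.Agent.Q20.BZ.TaskEulerPf
open Pool.Agent.Q20.BZ

theorem main : TaskEuler := by
  refine ⟨?_, ?_⟩
  · have h := riemannZeta_eulerProduct (s := 2) (by norm_num)
    rw [riemannZeta_two] at h
    have h1 : Tendsto (fun n : ℕ => ∏ p ∈ Nat.primesBelow n, (1 - 1 / (p : ℝ) ^ 2)⁻¹) atTop
        (𝓝 (Real.pi ^ 2 / 6)) := by
      have h2 := (Complex.continuous_re.tendsto _).comp h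
      have e1 : ((Real.pi : ℂ) ^ 2 / 6).re = Real.pi ^ 2 / 6 := by
        have : ((Real.pi : ℂ) ^ 2 / 6) = ((Real.pi ^ 2 / 6 : ℝ) : ℂ) := by push_cast; ring
        rw [this, Complex.ofReal_re]
      rw [e1] at h2
      refine h2.congr fun n => ?_
      have e2 : ∏ p ∈ Nat.primesBelow n, (1 - (p : ℂ) ^ (-(2 : ℂ)))⁻¹ =
          ((∏ p ∈ Nat.primesBelow n, (1 - 1 / (p : ℝ) ^ 2)⁻¹ : ℝ) : ℂ) := by
        push_cast
        refine Finset.prod_congr rfl fun p _ => ?_
        rw [Complex.cpow_neg]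
        norm_num
      simp only [Function.comp_apply]
      rw [e2, Complex.ofReal_re]
    have h3 := (h1.comp (tendsto_add_atTop_nat 1)).inv₀ (by positivity)
    have h4 := h3.pow 2
    have e3 : ((Real.pi ^ 2 / 6)⁻¹) ^ 2 = 36 / Real.pi ^ 4 := by
      have := Real.pi_ne_zero
      field_simp
      norm_num
    rw [e3] at h4
    refine h4.congr fun n => ?_
    simp only [Function.comp_apply]
    rw [← Finset.prod_inv_distrib, ← Finset.prod_pow]
    unfold Nat.primesBelow
    refine Finset.prod_congr rfl fun p _ => ?_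
    rw [inv_inv]
  · have h1 := Real.pi_gt_three
    have h2 : (3 : ℝ) ^ 4 ≤ Real.pi ^ 4 := by gcongr
    rw [div_lt_div_iff₀ (by positivity) (by norm_num)]
    linarith

end Pool.Agent.Q20.BZ.TaskEulerPf
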