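import Pool.Agent.Q20.BZ.Stmts

set_option autoImplicit false

open Polynomial Filter Topology
open scoped Classical

namespace Pool.Agent.Q20.BZ.TaskExactPf

open Pool.Agent.Q20.BZ

/-- monic pairs of exact degrees with small common divisors -/
def SM (F : Type) [Field F] (j k : ℕ) : Set (F[X] × F[X]) :=
  {x | (x.1.Monic ∧ x.1.natDegree = j) ∧ (x.2.Monic ∧ x.2.natDegree = k) ∧
    ∀ h : F[X], h ∣ x.1 → h ∣ x.2 → h.natDegree ≤ 1}

/-- monic pairs of exact degrees -/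
def ST (F : Type) [Field F] (j k : ℕ) : Set (F[X] × F[X]) :=
  {x | (x.1.Monic ∧ x.1.natDegree = j) ∧ (x.2.Monic ∧ x.2.natDegree = k)}

/-- scaling -/
noncomputable def scale (F : Type) [Field F] (j k : ℕ) : (Fˣ × Fˣ) × ↥(SM F j k) →
    {x : F[X] × F[X] // (x.1 ≠ 0 ∧ x.1.natDegree = j) ∧ (x.2 ≠ 0 ∧ x.2.natDegree = k) ∧
      ∀ h : F[X], h ∣ x.1 → h ∣ x.2 → h.natDegree ≤ 1} := fun y =>
  ⟨(C (y.1.1 : F) * y.2.1.1, C (y.1.2 : F) * y.2.1.2), by
    obtain ⟨⟨c, d⟩, ⟨⟨f, g⟩, ⟨hf, hfj⟩, ⟨hg, hgk⟩, hh⟩⟩ := y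
    have hc : (c : F) ≠ 0 := c.ne_zero
    have hd : (d : F) ≠ 0 := d.ne_zero
    refine ⟨⟨?_, ?_⟩, ⟨?_, ?_⟩, ?_⟩
    · exact mul_ne_zero (C_ne_zero.2 hc) hf.ne_zero
    · change (C (c : F) * f).natDegree = j
      rw [natDegree_C_mul hc]; exact hfj
    · exact mul_ne_zero (C_ne_zero.2 hd) hg.ne_zero
    · change (C (d : F) * g).natDegree = k
      rw [natDegree_C_mul hd]; exact hgk
    · intro h h1 h2
      refine hh h ?_ ?_
      · have h3 : h ∣ C (c : F) * f := h1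
        exact (IsUnit.dvd_mul_left (isUnit_C.2 hc.isUnit)).1 h3
      · have h3 : h ∣ C (d : F) * g := h2
        exact (IsUnit.dvd_mul_left (isUnit_C.2 hd.isUnit)).1 h3⟩

theorem scale_bij (F : Type) [Field F] (j k : ℕ) : Function.Bijective (scale F j k) := by
  constructor
  · rintro ⟨⟨c, d⟩, ⟨⟨f, g⟩, ⟨hf, hfj⟩, ⟨hg, hgk⟩, hh⟩⟩ ⟨⟨c', d'⟩, ⟨⟨f', g'⟩, ⟨hf', hfj'⟩, ⟨hg', hgk'⟩, hh'⟩⟩ he
    have h1 : (C (c : F) * f, C (d : F) * g) = (C (c' : F) * f', C (d' : F) * g') := congrArg Subtype.val he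
    have h2 : C (c : F) * f = C (c' : F) * f' := congrArg Prod.fst h1
    have h3 : C (d : F) * g = C (d' : F) * g' := congrArg Prod.snd h1
    have hf1 : f.Monic := hf
    have hf1' : f'.Monic := hf'
    have hg1 : g.Monic := hg
    have hg1' : g'.Monic := hg'
    have h4 : (c : F) = c' := by
      have := congrArg leadingCoeff h2
      rwa [leadingCoeff_mul, leadingCoeff_mul, leadingCoeff_C, leadingCoeff_C, hf1.leadingCoeff,
        hf1'.leadingCoeff, mul_one, mul_one] at this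
    have h5 : (d : F) = d' := by
      have := congrArg leadingCoeff h3
      rwa [leadingCoeff_mul, leadingCoeff_mul, leadingCoeff_C, leadingCoeff_C, hg1.leadingCoeff,
        hg1'.leadingCoeff, mul_one, mul_one] at this
    have h6 : f = f' := by
      rw [← h4] at h2
      exact mul_left_cancel₀ (C_ne_zero.2 c.ne_zero) h2
    have h7 : g = g' := by
      rw [← h5] at h3
      exact mul_left_cancel₀ (C_ne_zero.2 d.ne_zero) h3
    have h8 : c = c' := Units.ext h4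
    have h9 : d = d' := Units.ext h5
    subst h6; subst h7; subst h8; subst h9
    rfl
  · rintro ⟨⟨f, g⟩, ⟨hf, hfj⟩, ⟨hg, hgk⟩, hh⟩
    have hf1 : f ≠ 0 := hf
    have hg1 : g ≠ 0 := hg
    have hlf : f.leadingCoeff ≠ 0 := leadingCoeff_ne_zero.2 hf1
    have hlg : g.leadingCoeff ≠ 0 := leadingCoeff_ne_zero.2 hg1
    refine ⟨⟨⟨Units.mk0 _ hlf, Units.mk0 _ hlg⟩, ⟨(C f.leadingCoeff⁻¹ * f, C g.leadingCoeff⁻¹ * g), ?_⟩⟩, ?_⟩
    · refine ⟨⟨?_, ?_⟩, ⟨?_, ?_⟩, ?_⟩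
      · change (C f.leadingCoeff⁻¹ * f).Monic
        rw [Monic, leadingCoeff_mul, leadingCoeff_C, inv_mul_cancel₀ hlf]
      · change (C f.leadingCoeff⁻¹ * f).natDegree = j
        rw [natDegree_C_mul (inv_ne_zero hlf)]; exact hfj
      · change (C g.leadingCoeff⁻¹ * g).Monic
        rw [Monic, leadingCoeff_mul, leadingCoeff_C, inv_mul_cancel₀ hlg]
      · change (C g.leadingCoeff⁻¹ * g).natDegree = k
        rw [natDegree_C_mul (inv_ne_zero hlg)]; exact hgk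
      · intro h h1 h2
        refine hh h ?_ ?_
        · have h3 : h ∣ C f.leadingCoeff⁻¹ * f := h1
          exact (IsUnit.dvd_mul_left (isUnit_C.2 (inv_ne_zero hlf).isUnit)).1 h3
        · have h3 : h ∣ C g.leadingCoeff⁻¹ * g := h2
          exact (IsUnit.dvd_mul_left (isUnit_C.2 (inv_ne_zero hlg).isUnit)).1 h3
    · apply Subtype.ext
      change (C f.leadingCoeff * (C f.leadingCoeff⁻¹ * f), C g.leadingCoeff * (C g.leadingCoeff⁻¹ * g)) = (f, g)
      rw [← mul_assoc, ← C_mul, mul_inv_cancel₀ hlf, ← mul_assoc, ← C_mul, mul_inv_cancel₀ hlg, C_1, one_mul, one_mul]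

theorem card_ST (h1 : TaskMonicCount) (F : Type) [Field F] [Finite F] (j k : ℕ) :
    (ST F j k).ncard = Nat.card F ^ (j + k) := by
  have e : ST F j k = {f : F[X] | f.Monic ∧ f.natDegree = j} ×ˢ {g : F[X] | g.Monic ∧ g.natDegree = k} := by
    ext ⟨f, g⟩
    rfl
  have h2 : ∀ i : ℕ, ({f : F[X] | f.Monic ∧ f.natDegree = i} : Set F[X]).ncard = Nat.card F ^ i := fun i => by
    rw [← Nat.card_coe_set_eq]
    exact h1 F i
  rw [e, Set.ncard_prod, h2, h2, pow_add]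

theorem main : Pool.Agent.Q20.BZ.TaskExact := by
  intro h1 h2 F _ _ j k
  have hE : E F j k = (Nat.card F - 1) ^ 2 * (SM F j k).ncard := by
    have h3 : Nat.card ((Fˣ × Fˣ) × ↥(SM F j k)) = E F j k := Nat.card_congr (Equiv.ofBijective _ (scale_bij F j k))
    rw [← h3, Nat.card_prod, Nat.card_prod, Nat.card_units, Nat.card_coe_set_eq, sq]
  rw [hE]
  congr 1
  have hq : 0 < Nat.card F := Nat.card_pos
  have hfin : (ST F j k).Finite := by
    by_contra hinf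
    have h3 : (ST F j k).ncard = 0 := Set.Infinite.ncard hinf
    rw [card_ST h1] at h3
    exact absurd h3 (pow_pos hq _).ne'
  by_cases hjk : j ≤ 1 ∨ k ≤ 1
  · rw [if_pos hjk, ← card_ST h1]
    congr 1
    ext ⟨f, g⟩
    constructor
    · rintro ⟨a, b, _⟩
      exact ⟨a, b⟩
    · rintro ⟨a, b⟩
      refine ⟨a, b, fun h hf hg => ?_⟩
      rcases hjk with hj | hk
      · have h4 : h.natDegree ≤ f.natDegree := natDegree_le_of_dvd hf a.1.ne_zero
        have h5 : f.natDegree = j := a.2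
        omega
      · have h4 : h.natDegree ≤ g.natDegree := natDegree_le_of_dvd hg b.1.ne_zero
        have h5 : g.natDegree = k := b.2
        omega
  · rw [if_neg hjk]
    push Not at hjk
    obtain ⟨m, rfl⟩ : ∃ m, j = m + 2 := ⟨j - 2, by omega⟩
    obtain ⟨n, rfl⟩ : ∃ n, k = n + 2 := ⟨k - 2, by omega⟩
    have hbad : ({x : F[X] × F[X] | (x.1.Monic ∧ x.1.natDegree = m + 2) ∧ (x.2.Monic ∧ x.2.natDegree = n + 2) ∧
        ∃ h : F[X], h ∣ x.1 ∧ h ∣ x.2 ∧ 2 ≤ h.natDegree} : Set (F[X] × F[X])).ncard = Nat.card F ^ (m + n + 2) := by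
      rw [← Nat.card_coe_set_eq]
      exact h2 h1 F m n
    have hsub : {x : F[X] × F[X] | (x.1.Monic ∧ x.1.natDegree = m + 2) ∧ (x.2.Monic ∧ x.2.natDegree = n + 2) ∧
        ∃ h : F[X], h ∣ x.1 ∧ h ∣ x.2 ∧ 2 ≤ h.natDegree} ⊆ ST F (m + 2) (n + 2) := fun x hx => ⟨hx.1, hx.2.1⟩
    have hSM : SM F (m + 2) (n + 2) = ST F (m + 2) (n + 2) \
        {x : F[X] × F[X] | (x.1.Monic ∧ x.1.natDegree = m + 2) ∧ (x.2.Monic ∧ x.2.natDegree = n + 2) ∧
        ∃ h : F[X], h ∣ x.1 ∧ h ∣ x.2 ∧ 2 ≤ h.natDegree} := by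
      ext x
      constructor
      · rintro ⟨a, b, c⟩
        refine ⟨⟨a, b⟩, ?_⟩
        rintro ⟨_, _, h, h3, h4, h5⟩
        have := c h h3 h4
        omega
      · rintro ⟨⟨a, b⟩, c⟩
        refine ⟨a, b, fun h h3 h4 => ?_⟩
        by_contra h5
        exact c ⟨a, b, h, h3, h4, by omega⟩
    have h6 := Set.ncard_diff_add_ncard_of_subset hsub hfin
    rw [← hSM, hbad, card_ST h1] at h6
    have h7 : m + 2 + (n + 2) - 2 = m + n + 2 := by omega
    rw [h7]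
    omega

end Pool.Agent.Q20.BZ.TaskExactPf
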