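import Pool.Agent.Q20.BZ.Stmts

set_option autoImplicit false

open Polynomial Filter Topology
open scoped Classical

namespace Pool.Agent.Q20.BZ.TaskFiberPf

theorem aux {α : Type} (A : Finset α) (I : Finset ℤ) (upd : α → ℤ → α) (get : α → ℤ)
    (h1 : ∀ x ∈ A, ∀ s ∈ I, upd x s ∈ A) (h2 : ∀ x ∈ A, get x ∈ I)
    (h3 : ∀ x s, upd (upd x s) (get x) = x) (h4 : ∀ x s, get (upd x s) = s) (Pr : α → Prop) (K : ℕ)
    (hK : ∀ x ∈ A, (I.filter fun t => Pr (upd x t)).card ≤ K) :
    (A.filter Pr).card * I.card ≤ K * A.card := by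
  rw [← Finset.card_product]
  have e1 : ((A.filter Pr) ×ˢ I).card ≤ ((A ×ˢ I).filter fun q => Pr (upd q.1 q.2)).card := by
    refine Finset.card_le_card_of_injOn (fun q => (upd q.1 q.2, get q.1)) ?_ ?_
    · rintro ⟨x, s⟩ h
      simp only [Finset.mem_coe, Finset.mem_product, Finset.mem_filter] at h ⊢
      exact ⟨⟨h1 x h.1.1 s h.2, h2 x h.1.1⟩, by rw [h3]; exact h.1.2⟩
    · rintro ⟨x, s⟩ _ ⟨y, t⟩ _ h
      simp only [Prod.mk.injEq] at h
      have hx : x = y := by
        rw [← h3 x s, ← h3 y t, h.1, h.2]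
      have hs : s = t := by
        rw [← h4 x s, ← h4 y t, h.1]
      rw [hx, hs]
  refine e1.trans ?_
  have e2 : ((A ×ˢ I).filter fun q => Pr (upd q.1 q.2)).card =
      ∑ x ∈ A, (I.filter fun t => Pr (upd x t)).card := by
    rw [Finset.card_filter, Finset.sum_product]
    refine Finset.sum_congr rfl fun x _ => ?_
    rw [Finset.card_filter]
  rw [e2]
  calc ∑ x ∈ A, (I.filter fun t => Pr (upd x t)).card ≤ ∑ _x ∈ A, K := Finset.sum_le_sum hK
    _ = K * A.card := by rw [Finset.sum_const, smul_eq_mul, mul_comm]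

theorem cardI (H : ℕ) : (Finset.Icc (-(H : ℤ)) H).card = 2 * H + 1 := by
  rw [Int.card_Icc]
  omega

theorem V_upd {k H : ℕ} {a : Fin (k + 1) → ℤ} (ha : a ∈ V k H) {i : Fin (k + 1)}
    (hi : i ≠ Fin.last k) {s : ℤ} (hs : s ∈ Finset.Icc (-(H : ℤ)) H) :
    Function.update a i s ∈ V k H := by
  unfold V at ha ⊢
  rw [Fintype.mem_piFinset] at ha ⊢
  intro j
  by_cases hj : j = i
  · subst hj
    rw [Function.update_self, if_neg hi]
    exact hs
  · rw [Function.update_of_ne hj]
    exact ha j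

theorem V_get {k H : ℕ} {a : Fin (k + 1) → ℤ} (ha : a ∈ V k H) {i : Fin (k + 1)}
    (hi : i ≠ Fin.last k) : a i ∈ Finset.Icc (-(H : ℤ)) H := by
  unfold V at ha
  rw [Fintype.mem_piFinset] at ha
  have := ha i
  rwa [if_neg hi] at this

theorem main : Pool.Agent.Q20.BZ.TaskFiber := by
  intro m n H K Pr
  constructor
  · intro i hi hK
    have h := aux (BX m n H) (Finset.Icc (-(H : ℤ)) H) (fun x t => (Function.update x.1 i t, x.2))
      (fun x => x.1 i) ?_ ?_ ?_ ?_ Pr K hK
    · rwa [cardI] at h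
    · intro x hx s hs
      unfold BX at hx ⊢
      rw [Finset.mem_product] at hx ⊢
      exact ⟨V_upd hx.1 hi hs, hx.2⟩
    · intro x hx
      unfold BX at hx
      rw [Finset.mem_product] at hx
      exact V_get hx.1 hi
    · intro x s
      simp
    · intro x s
      simp
  · intro i hi hK
    have h := aux (BX m n H) (Finset.Icc (-(H : ℤ)) H) (fun x t => (x.1, Function.update x.2 i t))
      (fun x => x.2 i) ?_ ?_ ?_ ?_ Pr K hK
    · rwa [cardI] at h
    · intro x hx s hs
      unfold BX at hx ⊢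
      rw [Finset.mem_product] at hx ⊢
      exact ⟨hx.1, V_upd hx.2 hi hs⟩
    · intro x hx
      unfold BX at hx
      rw [Finset.mem_product] at hx
      exact V_get hx.2 hi
    · intro x s
      simp
    · intro x s
      simp

end Pool.Agent.Q20.BZ.TaskFiberPf
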