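import Mathlib
import Pool.Agent.Q20.BZ.Stmts

set_option autoImplicit false

namespace Pool.Agent.Q20.BZ.TaskGlobalPf

open Polynomial

lemma lift (p : ℕ) [Fact p.Prime] (k : ℕ) (w : (ZMod p)[X]) (hw : w.degree < k) :
    ∃ W : ℤ[X], W.map (Int.castRingHom (ZMod p)) = w ∧ W.degree < k := by
  have hs : Function.Surjective (Int.castRingHom (ZMod p)) := ZMod.intCast_surjective
  have h1 : w ∈ Polynomial.lifts (Int.castRingHom (ZMod p)) := by
    rw [Polynomial.mem_lifts]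
    exact Polynomial.map_surjective _ hs w
  obtain ⟨W, hW, hd⟩ := Polynomial.exists_degree_eq_of_mem_lifts h1
  exact ⟨W, hW, hd ▸ hw⟩

lemma divp (p : ℕ) (hp : p.Prime) (k : ℕ) (P : ℤ[X]) (hP : P.degree < k)
    (h0 : P.map (Int.castRingHom (ZMod p)) = 0) : ∃ Z : ℤ[X], P = C (p : ℤ) * Z ∧ Z.degree < k := by
  have h1 : C (p : ℤ) ∣ P := by
    rw [C_dvd_iff_dvd_coeff]
    intro i
    have h2 : (P.map (Int.castRingHom (ZMod p))).coeff i = 0 := by rw [h0]; simp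
    rw [coeff_map] at h2
    exact (ZMod.intCast_zmod_eq_zero_iff_dvd _ _).1 h2
  obtain ⟨Z, rfl⟩ := h1
  refine ⟨Z, rfl, ?_⟩
  have h3 : (p : ℤ) ≠ 0 := by exact_mod_cast hp.ne_zero
  rwa [degree_C_mul h3] at hP

variable {m n : ℕ} {f g : ℤ[X]}

lemma mem_range_iff (hf : f.natDegree ≤ m) (hg : g.natDegree ≤ n)
    (y : degreeLT ℤ (m + n)) : y ∈ LinearMap.range (sylvesterMap f g hf hg) ↔
      ∃ u v : ℤ[X], u.degree < n ∧ v.degree < m ∧ (y : ℤ[X]) = u * f + v * g := by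
  constructor
  · rintro ⟨⟨a, b⟩, rfl⟩
    refine ⟨b, a, mem_degreeLT.1 b.2, mem_degreeLT.1 a.2, ?_⟩
    rw [sylvesterMap_apply_coe]
    ring
  · rintro ⟨u, v, hu, hv, e⟩
    refine ⟨⟨⟨v, mem_degreeLT.2 hv⟩, ⟨u, mem_degreeLT.2 hu⟩⟩, ?_⟩
    apply Subtype.ext
    rw [sylvesterMap_apply_coe, e]
    ring

theorem main : Pool.Agent.Q20.BZ.TaskGlobal := by
  intro hOrder hIndex m n f g hm hn hf hg hres
  classical
  set A := (↥(degreeLT ℤ (m + n)) ⧸ LinearMap.range (sylvesterMap f g hf hg)) with hA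
  have hcard : Nat.card A = (resultant f g m n).natAbs := hIndex m n f g hf hg hres
  have hne : (resultant f g m n).natAbs ≠ 0 := Int.natAbs_ne_zero.2 hres
  have hfin : Finite A := Nat.finite_of_card_ne_zero (by rw [hcard]; exact hne)
  have hC : ∀ c : ℤ, (C c : ℤ[X]) ∈ degreeLT ℤ (m + n) := fun c =>
    mem_degreeLT.2 (lt_of_le_of_lt degree_C_le (by exact_mod_cast (by omega : 0 < m + n)))
  let x : A := Submodule.Quotient.mk ⟨C 1, hC 1⟩
  have hmul : ∀ c : ℤ, c • x = Submodule.Quotient.mk ⟨C c, hC c⟩ := by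
    intro c
    show Submodule.Quotient.mk (c • (⟨C 1, hC 1⟩ : degreeLT ℤ (m + n))) = _
    congr 1
    apply Subtype.ext
    show c • (C 1 : ℤ[X]) = C c
    rw [smul_C, smul_eq_mul, mul_one]
  have hzero : ∀ N : ℕ, (N • x = 0 ↔ ∃ u v : ℤ[X], u.degree < n ∧ v.degree < m ∧
      C (N : ℤ) = u * f + v * g) := by
    intro N
    rw [← natCast_zsmul, hmul, Submodule.Quotient.mk_eq_zero, mem_range_iff]
  have hord : addOrderOf x = N0 m n f g := by
    have hpos : 0 < addOrderOf x := addOrderOf_pos x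
    have hmem : addOrderOf x ∈ {N : ℕ | 0 < N ∧ ∃ u v : ℤ[X], u.degree < n ∧ v.degree < m ∧
        C (N : ℤ) = u * f + v * g} := ⟨hpos, (hzero _).1 (addOrderOf_nsmul_eq_zero x)⟩
    apply le_antisymm
    · have h1 := Nat.sInf_mem ⟨_, hmem⟩
      exact Nat.le_of_dvd h1.1 (addOrderOf_dvd_of_nsmul_eq_zero ((hzero _).2 h1.2))
    · exact Nat.sInf_le hmem
  rw [← hord, ← hcard, hOrder A x]
  refine forall_congr' fun p => forall_congr' fun hp => ?_
  have : Fact p.Prime := ⟨hp⟩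
  set φ := Int.castRingHom (ZMod p) with hφ
  constructor
  · intro h w hw
    obtain ⟨W, rfl, hW⟩ := lift p (m + n) w hw
    obtain ⟨k, z, hz⟩ := h (Submodule.Quotient.mk ⟨W, mem_degreeLT.2 hW⟩)
    obtain ⟨Z, rfl⟩ := Submodule.Quotient.mk_surjective _ z
    rw [hmul] at hz
    have h1 : (⟨W, mem_degreeLT.2 hW⟩ : degreeLT ℤ (m + n)) -
        (⟨C k, hC k⟩ + (p : ℤ) • Z) ∈ LinearMap.range (sylvesterMap f g hf hg) :=
      (Submodule.Quotient.eq _).1 hz
    obtain ⟨u, v, hu, hv, e⟩ := (mem_range_iff hf hg _).1 h1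
    have e' : W - (C k + (p : ℤ) • (Z : ℤ[X])) = u * f + v * g := e
    refine ⟨u.map φ, v.map φ, (k : ZMod p), lt_of_le_of_lt degree_map_le hu,
      lt_of_le_of_lt degree_map_le hv, ?_⟩
    have e2 := congrArg (Polynomial.map φ) e'
    have e3 : ((p : ℤ) • (Z : ℤ[X])).map φ = 0 := by
      rw [Polynomial.map_smul]
      simp [hφ]
    rw [Polynomial.map_sub, Polynomial.map_add, e3, add_zero, Polynomial.map_add,
      Polynomial.map_mul, Polynomial.map_mul, Polynomial.map_C] at e2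
    have e4 : φ k = (k : ZMod p) := rfl
    rw [e4] at e2
    rw [← e2]
    ring
  · intro h y
    obtain ⟨W, rfl⟩ := Submodule.Quotient.mk_surjective _ y
    have hW : (W : ℤ[X]).degree < ((m + n : ℕ) : WithBot ℕ) := mem_degreeLT.1 W.2
    obtain ⟨u, v, c, hu, hv, e⟩ := h ((W : ℤ[X]).map φ) (lt_of_le_of_lt degree_map_le hW)
    obtain ⟨U, rfl, hU⟩ := lift p n u hu
    obtain ⟨V, rfl, hV⟩ := lift p m v hv
    obtain ⟨k, rfl⟩ := ZMod.intCast_surjective c
    let R : degreeLT ℤ (m + n) := sylvesterMap f g hf hg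
      ⟨⟨V, mem_degreeLT.2 hV⟩, ⟨U, mem_degreeLT.2 hU⟩⟩
    have hR : (R : ℤ[X]) = U * f + V * g := by
      show ((sylvesterMap f g hf hg _ : degreeLT ℤ (m + n)) : ℤ[X]) = _
      rw [sylvesterMap_apply_coe]
      ring
    let D : degreeLT ℤ (m + n) := W - R - ⟨C k, hC k⟩
    have hD : (D : ℤ[X]).map φ = 0 := by
      show ((W : ℤ[X]) - R - C k).map φ = 0
      rw [hR, Polynomial.map_sub, Polynomial.map_sub, e, Polynomial.map_add, Polynomial.map_mul,
        Polynomial.map_mul, Polynomial.map_C]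
      have e4 : φ k = (k : ZMod p) := rfl
      rw [e4]
      ring
    obtain ⟨Z, hZ, hZd⟩ := divp p hp (m + n) D (mem_degreeLT.1 D.2) hD
    refine ⟨k, Submodule.Quotient.mk ⟨Z, mem_degreeLT.2 hZd⟩, ?_⟩
    rw [hmul]
    show _ = Submodule.Quotient.mk ((⟨C k, hC k⟩ : degreeLT ℤ (m + n)) +
      (p : ℤ) • (⟨Z, mem_degreeLT.2 hZd⟩ : degreeLT ℤ (m + n)))
    rw [Submodule.Quotient.eq]
    have e5 : W - ((⟨C k, hC k⟩ : degreeLT ℤ (m + n)) +
      (p : ℤ) • (⟨Z, mem_degreeLT.2 hZd⟩ : degreeLT ℤ (m + n))) = R := by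
      apply Subtype.ext
      show (W : ℤ[X]) - (C k + (p : ℤ) • Z) = R
      have e6 : (W : ℤ[X]) - R - C k = C (p : ℤ) * Z := hZ
      have e7 : (p : ℤ) • Z = C (p : ℤ) * Z := by rw [smul_eq_C_mul]
      rw [e7, ← e6]
      ring
    rw [e5]
    exact ⟨_, rfl⟩

end Pool.Agent.Q20.BZ.TaskGlobalPf
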