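import Pool.Agent.Q20.BZ.Stmts

/-!
Task GoodCount of the blueprint for MP_32694d_nt.
-/

set_option autoImplicit false

open Polynomial Filter Topology
open scoped Classical

namespace Pool.Agent.Q20.BZ.TaskGoodCountPf

private lemma sum1 (q M : ℕ) (hq : 1 ≤ q) (hM : 2 ≤ M) (K : ℕ) :
    ∑ k ∈ Finset.range (K + 2), (if M ≤ 1 ∨ k ≤ 1 then q ^ (M + k) else q ^ (M + k) - q ^ (M + k - 2)) =
      q ^ (M + K + 1) + q ^ (M + K) := by
  induction K with
  | zero =>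
    rw [Finset.sum_range_succ, Finset.sum_range_succ, Finset.sum_range_zero]
    simp
    ring
  | succ K ih =>
    rw [Finset.sum_range_succ, ih, if_neg (by omega)]
    have e : M + (K + 2) - 2 = M + K := by omega
    rw [e]
    have h : q ^ (M + K) ≤ q ^ (M + (K + 2)) := Nat.pow_le_pow_right hq (by omega)
    have e1 : M + (K + 1) + 1 = M + (K + 2) := by ring
    have e2 : M + (K + 1) = M + K + 1 := by ring
    rw [e1, e2]
    omega

private lemma sum2 (q M : ℕ) (hq : 1 ≤ q) (hM : 2 ≤ M) (K : ℕ) :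
    ∑ k ∈ Finset.range (K + 2), (if k ≤ 1 ∨ M ≤ 1 then q ^ (k + M) else q ^ (k + M) - q ^ (k + M - 2)) =
      q ^ (M + K + 1) + q ^ (M + K) := by
  rw [← sum1 q M hq hM K]
  refine Finset.sum_congr rfl fun k _ => ?_
  rw [add_comm k M]
  by_cases h : k ≤ 1
  · rw [if_pos (Or.inl h), if_pos (Or.inr h)]
  · rw [if_neg (by omega), if_neg (by omega)]

theorem main : Pool.Agent.Q20.BZ.TaskGoodCount := by
  intro h1 h2 h3 h4 F _ _ m n hm hn
  have hq : 1 ≤ Nat.card F := Nat.card_pos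
  rw [h4 F m n hm hn]
  have e1 : ∀ j k, E F j k = _ := h3 h1 h2 F
  simp only [e1]
  rw [← Finset.mul_sum, ← Finset.mul_sum]
  obtain ⟨K, rfl⟩ : ∃ K, n = K + 2 := ⟨n - 2, by omega⟩
  obtain ⟨L, rfl⟩ : ∃ L, m = L + 2 := ⟨m - 2, by omega⟩
  have s1 := sum1 (Nat.card F) (L + 2) hq (by omega) (K + 1)
  have s2 := sum2 (Nat.card F) (K + 2) hq (by omega) L
  rw [s1, s2]
  obtain ⟨r, hr⟩ : ∃ r, Nat.card F = r + 1 := ⟨Nat.card F - 1, by omega⟩
  rw [hr]
  have e2 : r + 1 - 1 = r := by omega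
  have e3 : (r + 1) ^ 2 - 1 = r * (r + 2) := by
    have : (r + 1) ^ 2 = r * (r + 2) + 1 := by ring
    omega
  have e4 : L + 2 + (K + 2) - 2 = L + K + 2 := by omega
  rw [e2, e3, e4]
  ring

end Pool.Agent.Q20.BZ.TaskGoodCountPf
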