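import Mathlib
import Pool.Agent.Q20.BZ.Stmts

set_option autoImplicit false

open Polynomial Filter Topology

namespace Pool.Agent.Q20.BZ

theorem taskIndex : TaskIndex := by
  intro m n f g hf hg hres
  let b₁ := ((degreeLT.basis ℤ m).prod (degreeLT.basis ℤ n)).reindex finSumFinEquiv
  let b₂ := degreeLT.basis ℤ (m + n)
  have hM : (sylvesterMap f g hf hg).toMatrix b₁ b₂ = sylvester f g m n :=
    toMatrix_sylvesterMap' f g hf hg
  have hinj : Function.Injective (sylvesterMap f g hf hg) := by
    rw [injective_iff_map_eq_zero]
    intro x hx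
    have h := congrArg (fun φ => φ x) (adjSylvester_comp_sylveserMap f g hf hg)
    simp only [LinearMap.comp_apply, hx, map_zero, LinearMap.smul_apply, LinearMap.id_apply] at h
    have h2 : b₁.repr (f.resultant g m n • x) = 0 := by rw [← h, map_zero]
    rw [map_smul] at h2
    have h3 : b₁.repr x = 0 := by
      ext i
      have := congrArg (fun y => y i) h2
      simp only [Finsupp.smul_apply, smul_eq_mul, Finsupp.coe_zero, Pi.zero_apply] at this
      simpa [hres] using this
    exact (LinearEquiv.map_eq_zero_iff _).1 h3
  let e := LinearEquiv.ofInjective (sylvesterMap f g hf hg) hinj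
  let bN := b₁.map e
  have hdet := Submodule.natAbs_det_basis_change b₂ (LinearMap.range (sylvesterMap f g hf hg)) bN
  rw [← hdet]
  congr 1
  rw [Module.Basis.det_apply, resultant, ← hM]
  congr 1
  ext i j
  rw [Module.Basis.toMatrix_apply, LinearMap.toMatrix_apply]
  rfl

end Pool.Agent.Q20.BZ
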