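import Pool.Agent.Q20.BZ.Stmts

set_option autoImplicit false

open Polynomial Filter Topology
open scoped Classical

namespace Pool.Agent.Q20.BZ.TaskLimitPf

open Pool.Agent.Q20.BZ

theorem main : Pool.Agent.Q20.BZ.TaskLimit := by
  intro N S E A P L K hK hN hA hP hE hS
  -- `E H / N H → L`
  have hEN : Tendsto (fun H => E H / N H) atTop (𝓝 L) := by
    rw [Metric.tendsto_atTop]
    intro ε hε
    -- choose M
    have h1 : Tendsto (fun M : ℕ => K * (1 / (M : ℝ))) atTop (𝓝 0) := by
      simpa using (tendsto_one_div_atTop_nhds_zero_nat (𝕜 := ℝ)).const_mul K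
    obtain ⟨M, hM1, hM2, hM3⟩ : ∃ M : ℕ, 1 ≤ M ∧ |P M - L| < ε / 4 ∧ K * (1 / (M : ℝ)) < ε / 4 := by
      have e1 : ∀ᶠ M in atTop, |P M - L| < ε / 4 := by
        have := (Metric.tendsto_nhds.mp hP) (ε / 4) (by positivity)
        filter_upwards [this] with M h
        rwa [Real.dist_eq] at h
      have e2 : ∀ᶠ M : ℕ in atTop, K * (1 / (M : ℝ)) < ε / 4 :=
        h1.eventually (gt_mem_nhds (by positivity))
      obtain ⟨M, h⟩ := (e1.and (e2.and (eventually_ge_atTop 1))).exists
      exact ⟨M, h.2.2, h.1, h.2.1⟩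
    have e3 : ∀ᶠ H in atTop, |A M H / N H - P M| < ε / 4 := by
      have := (Metric.tendsto_nhds.mp (hA M)) (ε / 4) (by positivity)
      filter_upwards [this] with H h
      rwa [Real.dist_eq] at h
    have e4 : ∀ᶠ H : ℕ in atTop, K * (1 / (H : ℝ)) < ε / 4 :=
      h1.eventually (gt_mem_nhds (by positivity))
    obtain ⟨H₀, hH₀⟩ := eventually_atTop.mp ((e3.and e4).and (eventually_ge_atTop 2))
    refine ⟨H₀, fun H hH => ?_⟩
    obtain ⟨⟨h3, h4⟩, h5⟩ := hH₀ H hH
    obtain ⟨h6, h7⟩ := hE H M h5 hM1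
    have hNH := hN H h5
    rw [Real.dist_eq]
    have h8 : E H / N H ≤ A M H / N H := div_le_div_of_nonneg_right h6 hNH.le
    have h9 : A M H / N H ≤ E H / N H + K * (1 / (M : ℝ) + 1 / (H : ℝ)) := by
      rw [div_le_iff₀ hNH, add_mul, div_mul_cancel₀ _ hNH.ne']
      linarith [h7]
    rw [abs_lt] at h3 hM2 ⊢
    constructor
    · nlinarith [h3.1, hM2.1, h9, hM3, h4]
    · nlinarith [h3.2, hM2.2, h8]
  -- `S H / N H → 1`
  have hSN : Tendsto (fun H => S H / N H) atTop (𝓝 1) := by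
    have h1 : Tendsto (fun H : ℕ => 1 - K * (1 / (H : ℝ))) atTop (𝓝 1) := by
      simpa using ((tendsto_one_div_atTop_nhds_zero_nat (𝕜 := ℝ)).const_mul K).const_sub 1
    refine tendsto_of_tendsto_of_tendsto_of_le_of_le' h1 tendsto_const_nhds ?_ ?_
    · filter_upwards [eventually_ge_atTop 2] with H hH
      obtain ⟨h2, h3⟩ := hS H hH
      have hNH := hN H hH
      rw [le_div_iff₀ hNH]
      have : K * N H / (H : ℝ) = K * (1 / (H : ℝ)) * N H := by ring
      nlinarith [h3, this]
    · filter_upwards [eventually_ge_atTop 2] with H hH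
      obtain ⟨h2, h3⟩ := hS H hH
      have hNH := hN H hH
      rw [div_le_one hNH]
      exact h2
  have h := hEN.div hSN one_ne_zero
  rw [div_one] at h
  refine h.congr' ?_
  filter_upwards [eventually_ge_atTop 2] with H hH
  have hNH := hN H hH
  show E H / N H / (S H / N H) = E H / S H
  rw [div_div_div_cancel_right₀ hNH.ne']

end Pool.Agent.Q20.BZ.TaskLimitPf
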