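import Pool.Agent.Q20.BZ.Stmts

set_option autoImplicit false

/-!
Proof of `TaskMonicBad` (blueprint of MP_32694d_nt).
-/

open Polynomial

namespace Pool.Agent.Q20.BZ.TaskMonicBadPf

variable {F : Type} [Field F]

/-- decomposition of a pair of monic polynomials by the monic gcd -/
lemma exists_dec (f g : F[X]) (hf : f.Monic) (hg : g.Monic) :
    ∃ h f1 g1 : F[X], h.Monic ∧ f1.Monic ∧ g1.Monic ∧ IsCoprime f1 g1 ∧ f = h * f1 ∧ g = h * g1 := by
  classical
  have hne : EuclideanDomain.gcd f g ≠ 0 := by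
    intro h0
    exact hf.ne_zero (EuclideanDomain.gcd_eq_zero_iff.1 h0).1
  have hh : (normalize (EuclideanDomain.gcd f g)).Monic := monic_normalize hne
  have hass : Associated (normalize (EuclideanDomain.gcd f g)) (EuclideanDomain.gcd f g) :=
    normalize_associated _
  obtain ⟨f1, hf1⟩ : normalize (EuclideanDomain.gcd f g) ∣ f :=
    hass.dvd.trans (EuclideanDomain.gcd_dvd_left f g)
  obtain ⟨g1, hg1⟩ : normalize (EuclideanDomain.gcd f g) ∣ g :=
    hass.dvd.trans (EuclideanDomain.gcd_dvd_right f g)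
  obtain ⟨u, hu⟩ := hass
  have hbez := EuclideanDomain.gcd_eq_gcd_ab f g
  generalize normalize (EuclideanDomain.gcd f g) = h at *
  have hh0 : h ≠ 0 := hh.ne_zero
  refine ⟨h, f1, g1, hh, ?_, ?_, ?_, hf1, hg1⟩
  · exact hh.of_mul_monic_left (hf1 ▸ hf)
  · exact hh.of_mul_monic_left (hg1 ▸ hg)
  · generalize EuclideanDomain.gcdA f g = a at hbez
    generalize EuclideanDomain.gcdB f g = b at hbez
    generalize EuclideanDomain.gcd f g = d at *
    have h1 : h * (u : F[X]) = h * (f1 * a + g1 * b) := by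
      rw [hu, hbez, hf1, hg1]; ring
    have h2 : (u : F[X]) = f1 * a + g1 * b := mul_left_cancel₀ hh0 h1
    refine ⟨a * ↑u⁻¹, b * ↑u⁻¹, ?_⟩
    calc a * ↑u⁻¹ * f1 + b * ↑u⁻¹ * g1 = (f1 * a + g1 * b) * ↑u⁻¹ := by ring
      _ = 1 := by rw [← h2]; exact u.mul_inv

/-- uniqueness of the decomposition -/
lemma dec_unique {h f1 g1 k f2 g2 : F[X]} (hh : h.Monic) (hk : k.Monic)
    (hc1 : IsCoprime f1 g1) (hc2 : IsCoprime f2 g2) (e1 : h * f1 = k * f2) (e2 : h * g1 = k * g2) :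
    h = k ∧ f1 = f2 ∧ g1 = g2 := by
  have h1 : h ∣ k := by
    obtain ⟨a, b, hab⟩ := hc2
    refine ⟨a * f1 + b * g1, ?_⟩
    calc k = (a * f2 + b * g2) * k := by rw [hab, one_mul]
      _ = a * (k * f2) + b * (k * g2) := by ring
      _ = a * (h * f1) + b * (h * g1) := by rw [e1, e2]
      _ = h * (a * f1 + b * g1) := by ring
  have h2 : k ∣ h := by
    obtain ⟨a, b, hab⟩ := hc1
    refine ⟨a * f2 + b * g2, ?_⟩
    calc h = (a * f1 + b * g1) * h := by rw [hab, one_mul]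
      _ = a * (h * f1) + b * (h * g1) := by ring
      _ = a * (k * f2) + b * (k * g2) := by rw [e1, e2]
      _ = k * (a * f2 + b * g2) := by ring
  have h3 : h = k := eq_of_monic_of_associated hh hk (associated_of_dvd_dvd h1 h2)
  subst h3
  exact ⟨rfl, mul_left_cancel₀ hh.ne_zero e1, mul_left_cancel₀ hh.ne_zero e2⟩

/-- triples (gcd, cofactors) with the degree of the gcd at least `r` -/
def Tr (F : Type) [Field F] (r m n : ℕ) : Type :=
  {t : F[X] × F[X] × F[X] // (t.1.Monic ∧ t.2.1.Monic ∧ t.2.2.Monic ∧ IsCoprime t.2.1 t.2.2) ∧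
    t.1.natDegree + t.2.1.natDegree = m ∧ t.1.natDegree + t.2.2.natDegree = n ∧ r ≤ t.1.natDegree}

/-- pairs of monic polynomials of degrees `m`, `n` with a common divisor of degree at least `r` -/
def Pr (F : Type) [Field F] (r m n : ℕ) : Type :=
  {x : F[X] × F[X] // (x.1.Monic ∧ x.1.natDegree = m) ∧ (x.2.Monic ∧ x.2.natDegree = n) ∧
    ∃ h : F[X], h ∣ x.1 ∧ h ∣ x.2 ∧ r ≤ h.natDegree}

/-- from triples to pairs -/
noncomputable def toPr (r m n : ℕ) (t : Tr F r m n) : Pr F r m n :=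
  ⟨(t.1.1 * t.1.2.1, t.1.1 * t.1.2.2), by
    obtain ⟨⟨h, f1, g1⟩, ⟨hh, hf, hg, hc⟩, h1, h2, h3⟩ := t
    refine ⟨⟨hh.mul hf, ?_⟩, ⟨hh.mul hg, ?_⟩, h, dvd_mul_right _ _, dvd_mul_right _ _, h3⟩
    · show (h * f1).natDegree = m
      rw [hh.natDegree_mul hf]; exact h1
    · show (h * g1).natDegree = n
      rw [hh.natDegree_mul hg]; exact h2⟩

lemma toPr_bij (r m n : ℕ) : Function.Bijective (toPr (F := F) r m n) := by
  constructor
  · rintro ⟨⟨h, f1, g1⟩, ⟨hh, hf, hg, hc⟩, h1, h2, h3⟩ ⟨⟨k, f2, g2⟩, ⟨hh', hf', hg', hc'⟩, h1', h2', h3'⟩ he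
    have he' := congrArg Subtype.val he
    have e1 : h * f1 = k * f2 := congrArg Prod.fst he'
    have e2 : h * g1 = k * g2 := congrArg Prod.snd he'
    obtain ⟨rfl, rfl, rfl⟩ := dec_unique hh hh' hc hc' e1 e2
    rfl
  · rintro ⟨⟨f, g⟩, ⟨hf, hfm⟩, ⟨hg, hgn⟩, d, hdf, hdg, hr⟩
    obtain ⟨h, f1, g1, hh, hf1, hg1, hc, rfl, rfl⟩ := exists_dec f g hf hg
    have hdh : d ∣ h := by
      obtain ⟨a, b, hab⟩ := hc
      have : h = a * (h * f1) + b * (h * g1) := by
        calc h = (a * f1 + b * g1) * h := by rw [hab, one_mul]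
          _ = _ := by ring
      rw [this]
      exact dvd_add (dvd_mul_of_dvd_right hdf _) (dvd_mul_of_dvd_right hdg _)
    have hle : d.natDegree ≤ h.natDegree := natDegree_le_of_dvd hdh hh.ne_zero
    refine ⟨⟨(h, f1, g1), ⟨hh, hf1, hg1, hc⟩, ?_, ?_, hr.trans hle⟩, rfl⟩
    · show h.natDegree + f1.natDegree = m
      rw [← hfm]; exact (hh.natDegree_mul hf1).symm
    · show h.natDegree + g1.natDegree = n
      rw [← hgn]; exact (hh.natDegree_mul hg1).symm

lemma card_Tr_eq (r m n : ℕ) : Nat.card (Tr F r m n) = Nat.card (Pr F r m n) :=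
  Nat.card_congr (Equiv.ofBijective _ (toPr_bij r m n))

/-- `X² h + c₁ X + c₀` -/
noncomputable def ext (h : F[X]) (c : F × F) : F[X] := (h * X + C c.2) * X + C c.1

lemma ext_monic {h : F[X]} (hh : h.Monic) (c : F × F) : (ext h c).Monic ∧ (ext h c).natDegree = h.natDegree + 2 := by
  have key : ∀ (p : F[X]) (a : F), p.Monic → (p * X + C a).Monic ∧ (p * X + C a).natDegree = p.natDegree + 1 := by
    intro p a hp
    have h1 : (p * X).Monic := hp.mul monic_X
    have h2 : (p * X).natDegree = p.natDegree + 1 := by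
      rw [hp.natDegree_mul monic_X, natDegree_X]
    have h3 : (C a).degree < (p * X).degree := by
      refine lt_of_le_of_lt degree_C_le ?_
      rw [degree_eq_natDegree h1.ne_zero, h2]
      exact_mod_cast Nat.succ_pos _
    exact ⟨h1.add_of_left h3, by rw [natDegree_add_C, h2]⟩
  obtain ⟨k1, k2⟩ := key h c.2 hh
  obtain ⟨k3, k4⟩ := key _ c.1 k1
  exact ⟨k3, by unfold ext; rw [k4, k2]⟩

lemma ext_inj {h k : F[X]} {c d : F × F} (he : ext h c = ext k d) : h = k ∧ c = d := by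
  have key : ∀ (p q : F[X]) (a b : F), p * X + C a = q * X + C b → p = q ∧ a = b := by
    intro p q a b hab
    constructor
    · ext i
      have := congrArg (fun r => coeff r (i + 1)) hab
      simpa [coeff_C] using this
    · have := congrArg (fun r => coeff r 0) hab
      simpa using this
  obtain ⟨e1, e2⟩ := key _ _ _ _ he
  obtain ⟨e3, e4⟩ := key _ _ _ _ e1
  exact ⟨e3, Prod.ext e2 e4⟩

lemma ext_surj (h : F[X]) (hh : h.Monic) (h2 : 2 ≤ h.natDegree) : ∃ (k : F[X]) (c : F × F), k.Monic ∧ ext k c = h := by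
  refine ⟨h.divX.divX, (h.coeff 0, h.divX.coeff 0), ?_, ?_⟩
  · have key : ∀ p : F[X], p.Monic → 1 ≤ p.natDegree → p.divX.Monic := by
      intro p hp h1
      have h3 : p.divX.natDegree = p.natDegree - 1 := natDegree_divX_eq_natDegree_tsub_one
      unfold Monic leadingCoeff
      rw [h3, coeff_divX, Nat.sub_add_cancel h1]
      exact hp
    have h3 : h.divX.natDegree = h.natDegree - 1 := natDegree_divX_eq_natDegree_tsub_one
    exact key _ (key _ hh (by omega)) (by omega)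
  · unfold ext
    simp only [divX_mul_X_add]

/-- the third map -/
noncomputable def up (m n : ℕ) (t : Tr F 0 m n × (F × F)) : Tr F 2 (m + 2) (n + 2) :=
  ⟨(ext t.1.1.1 t.2, t.1.1.2.1, t.1.1.2.2), by
    obtain ⟨⟨⟨h, f1, g1⟩, ⟨hh, hf, hg, hc⟩, h1, h2, h3⟩, c⟩ := t
    obtain ⟨k1, k2⟩ := ext_monic (h := h) hh c
    refine ⟨⟨k1, hf, hg, hc⟩, ?_, ?_, ?_⟩
    · show (ext h c).natDegree + f1.natDegree = m + 2
      have h1' : h.natDegree + f1.natDegree = m := h1
      omega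
    · show (ext h c).natDegree + g1.natDegree = n + 2
      have h2' : h.natDegree + g1.natDegree = n := h2
      omega
    · show 2 ≤ (ext h c).natDegree
      omega⟩

lemma up_bij (m n : ℕ) : Function.Bijective (up (F := F) m n) := by
  constructor
  · rintro ⟨⟨⟨h, f1, g1⟩, ⟨hh, hf, hg, hc⟩, h1, h2, h3⟩, c⟩ ⟨⟨⟨k, f2, g2⟩, ⟨hh', hf', hg', hc'⟩, h1', h2', h3'⟩, d⟩ he
    have he' := congrArg Subtype.val he
    have e1 : ext h c = ext k d := congrArg Prod.fst he'
    have e2 : f1 = f2 := congrArg (fun z => z.2.1) he'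
    have e3 : g1 = g2 := congrArg (fun z => z.2.2) he'
    obtain ⟨rfl, rfl⟩ := ext_inj e1
    subst e2 e3
    rfl
  · rintro ⟨⟨h, f1, g1⟩, ⟨hh, hf, hg, hc⟩, h1, h2, h3⟩
    obtain ⟨k, c, hk, rfl⟩ := ext_surj h hh h3
    have k2 := (ext_monic hk c).2
    refine ⟨(⟨(k, f1, g1), ⟨hk, hf, hg, hc⟩, ?_, ?_, Nat.zero_le _⟩, c), rfl⟩
    · show k.natDegree + f1.natDegree = m
      have h1' : (ext k c).natDegree + f1.natDegree = m + 2 := h1
      omega
    · show k.natDegree + g1.natDegree = n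
      have h2' : (ext k c).natDegree + g1.natDegree = n + 2 := h2
      omega

theorem main : Pool.Agent.Q20.BZ.TaskMonicBad := by
  intro hMC F _ _ m n
  have h1 : Nat.card (Pr F 2 (m + 2) (n + 2)) = Nat.card (Tr F 0 m n) * (Nat.card F * Nat.card F) := by
    rw [← card_Tr_eq, ← Nat.card_congr (Equiv.ofBijective _ (up_bij (F := F) m n)), Nat.card_prod, Nat.card_prod]
  have h2 : Nat.card (Pr F 0 m n) = Nat.card F ^ m * Nat.card F ^ n := by
    have e : Pr F 0 m n ≃ {x : F[X] × F[X] // (x.1.Monic ∧ x.1.natDegree = m) ∧ (x.2.Monic ∧ x.2.natDegree = n)} :=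
      Equiv.subtypeEquivRight (fun x =>
        ⟨fun h => ⟨h.1, h.2.1⟩, fun h => ⟨h.1, h.2, 1, one_dvd _, one_dvd _, Nat.zero_le _⟩⟩)
    rw [Nat.card_congr e, Nat.card_congr (Equiv.subtypeProdEquivProd
      (p := fun f : F[X] => f.Monic ∧ f.natDegree = m) (q := fun f : F[X] => f.Monic ∧ f.natDegree = n)),
      Nat.card_prod, hMC F m, hMC F n]
  have h3 : Nat.card (Pr F 2 (m + 2) (n + 2)) = Nat.card F ^ (m + n + 2) := by
    rw [h1, card_Tr_eq, h2]; ring
  exact h3

end Pool.Agent.Q20.BZ.TaskMonicBadPf
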