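import Pool.Agent.Q20.BZ.Stmts

/-! # Proof of `TaskMonicCount` -/

set_option autoImplicit false

open Polynomial

namespace Pool.Agent.Q20.BZ.TaskMonicCountPf

theorem main : Pool.Agent.Q20.BZ.TaskMonicCount := by
  intro F _ _ k
  rw [Nat.card_congr ((Polynomial.monicEquivDegreeLT (R := F) k).trans (degreeLTEquiv F k).toEquiv)]
  rw [Nat.card_fun, Nat.card_fin]

end Pool.Agent.Q20.BZ.TaskMonicCountPf
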