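import Pool.Agent.Q20.BZ.Hlp56

/-! # Proof of `TaskNonCoprime` -/

set_option autoImplicit false

open Polynomial

namespace Pool.Agent.Q20.BZ.TaskNonCoprimePf

open Pool.Agent.Q20.BZ.Hlp56

theorem main : Pool.Agent.Q20.BZ.TaskNonCoprime := by
  intro m n x hx T hT
  set P : ℂ[X] := (pol x.2).map (Int.castRingHom ℂ) with hP
  have hP0 : P ≠ 0 := by
    intro h
    have h1 : P.coeff ((Fin.last n : Fin (n + 1)) : ℕ) = 0 := by rw [h, coeff_zero]
    rw [hP, coeff_map, pol_coeff] at h1
    exact hx (by simpa using h1)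
  have hd : P.natDegree ≤ n := (natDegree_map_le).trans (pol_natDegree x.2)
  refine (card_le_roots P hP0 (fun z => -aeval z (pol (Function.update x.1 0 0))) T ?_).trans hd
  intro t ht
  obtain ⟨z, h1, h2⟩ := hT t ht
  refine ⟨z, ?_, ?_⟩
  · rw [IsRoot.def, hP, eval_map]
    simpa [aeval_def] using h2
  · rw [pol_update_zero, map_add, aeval_C] at h1
    have h3 : (algebraMap ℤ ℂ) t = (t : ℂ) := by simp
    rw [h3] at h1
    linear_combination h1

end Pool.Agent.Q20.BZ.TaskNonCoprimePf
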