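import Mathlib
import Pool.Agent.Q20.BZ.Stmts

set_option autoImplicit false

namespace Pool.Agent.Q20.BZ.TaskNormDetPf

open Polynomial

lemma nm_eq (P : ℤ[X]) (s : Finset ℕ) (h : P.support ⊆ s) :
    nm P = ∑ i ∈ s, (P.coeff i).natAbs := by
  unfold nm
  refine Finset.sum_subset h fun i _ hi => ?_
  rw [Polynomial.notMem_support_iff.1 hi]
  rfl

lemma nm_add (P Q : ℤ[X]) : nm (P + Q) ≤ nm P + nm Q := by
  classical
  have h1 : (P + Q).support ⊆ P.support ∪ Q.support := Polynomial.support_add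
  rw [nm_eq _ _ h1, nm_eq P _ Finset.subset_union_left,
    nm_eq Q (P.support ∪ Q.support) Finset.subset_union_right, ← Finset.sum_add_distrib]
  refine Finset.sum_le_sum fun i _ => ?_
  rw [coeff_add]
  exact Int.natAbs_add_le _ _

lemma nm_zero : nm 0 = 0 := by simp [nm]

lemma nm_sum {ι : Type} (s : Finset ι) (f : ι → ℤ[X]) :
    nm (∑ i ∈ s, f i) ≤ ∑ i ∈ s, nm (f i) := by
  classical
  induction s using Finset.induction_on with
  | empty => simp [nm_zero]
  | insert a s ha ih =>
    rw [Finset.sum_insert ha, Finset.sum_insert ha]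
    exact (nm_add _ _).trans (Nat.add_le_add_left ih _)

lemma nm_monomial (n : ℕ) (a : ℤ) : nm (monomial n a) = a.natAbs := by
  rw [nm_eq _ {n} (Polynomial.support_monomial_subset n a)]
  simp

lemma nm_mul (P Q : ℤ[X]) : nm (P * Q) ≤ nm P * nm Q := by
  rw [Polynomial.mul_eq_sum_sum]
  refine (nm_sum _ _).trans ?_
  unfold Polynomial.sum
  calc _ ≤ ∑ i ∈ P.support, ∑ j ∈ Q.support, nm (monomial (i + j) (P.coeff i * Q.coeff j)) :=
        Finset.sum_le_sum fun i _ => nm_sum _ _
    _ = _ := by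
        simp only [nm_monomial, Int.natAbs_mul]
        rw [nm, nm, Finset.sum_mul_sum]

lemma nm_neg (P : ℤ[X]) : nm (-P) = nm P := by
  unfold nm
  rw [support_neg]
  refine Finset.sum_congr rfl fun i _ => ?_
  rw [coeff_neg, Int.natAbs_neg]

lemma nm_one : nm 1 = 1 := by
  have h := nm_monomial 0 1
  rw [monomial_zero_one] at h
  simpa using h

lemma nm_prod {ι : Type} (s : Finset ι) (f : ι → ℤ[X]) :
    nm (∏ i ∈ s, f i) ≤ ∏ i ∈ s, nm (f i) := by
  classical
  induction s using Finset.induction_on with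
  | empty => simp [nm_one]
  | insert a s ha ih =>
    rw [Finset.prod_insert ha, Finset.prod_insert ha]
    exact (nm_mul _ _).trans (Nat.mul_le_mul_left _ ih)

theorem main : Pool.Agent.Q20.BZ.TaskNormDet := by
  intro N K M hM
  classical
  rw [Matrix.det_apply]
  refine (nm_sum _ _).trans ?_
  have h1 : ∀ σ ∈ (Finset.univ : Finset (Equiv.Perm (Fin N))),
      nm (Equiv.Perm.sign σ • ∏ i, M (σ i) i) ≤ K ^ N := by
    intro σ _
    have h2 : nm (Equiv.Perm.sign σ • ∏ i, M (σ i) i) = nm (∏ i, M (σ i) i) := by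
      rcases Int.units_eq_one_or (Equiv.Perm.sign σ) with h | h
      · rw [h, one_smul]
      · rw [h, Units.neg_smul, one_smul, nm_neg]
    rw [h2]
    refine (nm_prod _ _).trans ?_
    calc ∏ i : Fin N, nm (M (σ i) i) ≤ ∏ _i : Fin N, K := Finset.prod_le_prod' fun i _ => hM _ _
      _ = K ^ N := by simp
  refine (Finset.sum_le_sum h1).trans ?_
  rw [Finset.sum_const, Finset.card_univ, Fintype.card_perm, Fintype.card_fin, smul_eq_mul]

end Pool.Agent.Q20.BZ.TaskNormDetPf
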