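import Pool.Agent.Q20.BZ.Stmts

set_option autoImplicit false

namespace Pool.Agent.Q20.BZ.TaskOrderPf

theorem main : Pool.Agent.Q20.BZ.TaskOrder := by
  intro A _ _ x
  constructor
  · intro h p _ y
    have htop : AddSubgroup.zmultiples x = ⊤ := by
      apply AddSubgroup.eq_top_of_card_eq
      rw [Nat.card_zmultiples, h]
    have hy : y ∈ AddSubgroup.zmultiples x := by
      rw [htop]
      trivial
    obtain ⟨k, hk⟩ := AddSubgroup.mem_zmultiples_iff.1 hy
    exact ⟨k, 0, by rw [smul_zero, add_zero, hk]⟩
  · intro h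
    have hidx : (AddSubgroup.zmultiples x).index = 1 := by
      by_contra hne
      obtain ⟨p, hp, hdvd⟩ := Nat.exists_prime_and_dvd hne
      have : Fact p.Prime := ⟨hp⟩
      obtain ⟨t, ht⟩ := exists_prime_addOrderOf_dvd_card' (G := A ⧸ AddSubgroup.zmultiples x) p hdvd
      have hsurj : Function.Surjective (fun q : A ⧸ AddSubgroup.zmultiples x => (p : ℤ) • q) := by
        intro q
        obtain ⟨y, rfl⟩ := QuotientAddGroup.mk_surjective q
        obtain ⟨k, z, hz⟩ := h p hp y
        refine ⟨(z : A ⧸ AddSubgroup.zmultiples x), ?_⟩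
        have h0 : ((k • x : A) : A ⧸ AddSubgroup.zmultiples x) = 0 := by
          rw [QuotientAddGroup.eq_zero_iff]
          exact AddSubgroup.zsmul_mem_zmultiples x k
        rw [hz, QuotientAddGroup.mk_add, h0, zero_add]
        rfl
      have hinj := Finite.injective_iff_surjective.2 hsurj
      have ht0 : t = 0 := by
        apply hinj
        simp only [smul_zero]
        rw [natCast_zsmul, ← ht]
        exact addOrderOf_nsmul_eq_zero t
      rw [ht0, addOrderOf_zero] at ht
      exact hp.one_lt.ne ht
    have htop := AddSubgroup.index_eq_one.1 hidx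
    rw [← Nat.card_zmultiples, htop, AddSubgroup.card_top]

end Pool.Agent.Q20.BZ.TaskOrderPf
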