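import Mathlib
import Pool.Agent.Q20.BZ.Stmts

set_option autoImplicit false

open Polynomial Filter Topology

namespace Pool.Agent.Q20.BZ

theorem rzCoeff {R : Type} [CommRing R] {k : ℕ} (a : Fin (k + 1) → R) (j : Fin (k + 1)) :
    (pol a).coeff j = a j := by
  unfold pol
  rw [finsetSum_coeff, Finset.sum_eq_single j]
  · simp
  · intro i _ hij
    have : (j : ℕ) ≠ (i : ℕ) := fun h => hij (Fin.ext h.symm)
    simp [coeff_X_pow, this]
  · intro h
    exact absurd (Finset.mem_univ _) h

theorem rzNatDegree {R : Type} [CommRing R] {k : ℕ} (a : Fin (k + 1) → R) (h : a (Fin.last k) ≠ 0) :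
    (pol a).natDegree = k := by
  apply le_antisymm
  · unfold pol
    apply natDegree_sum_le_of_forall_le
    intro i _
    exact (natDegree_C_mul_X_pow_le _ _).trans (by omega)
  · apply le_natDegree_of_ne_zero
    have := rzCoeff a (Fin.last k)
    rw [Fin.val_last] at this
    rwa [this]

theorem taskResZero : TaskResZero := by
  intro m n x hm hn h1 h2
  have hinj : Function.Injective (Int.castRingHom ℂ) := Int.cast_injective
  have d1 : ((pol x.1).map (Int.castRingHom ℂ)).natDegree = m := by
    rw [natDegree_map_eq_of_injective hinj, rzNatDegree _ h1]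
  have d2 : ((pol x.2).map (Int.castRingHom ℂ)).natDegree = n := by
    rw [natDegree_map_eq_of_injective hinj, rzNatDegree _ h2]
  have h0 : (pol x.1).map (Int.castRingHom ℂ) ≠ 0 := by
    intro h
    rw [h, natDegree_zero] at d1
    omega
  have e1 : resultant (pol x.1) (pol x.2) m n ≠ 0 ↔
      resultant ((pol x.1).map (Int.castRingHom ℂ)) ((pol x.2).map (Int.castRingHom ℂ)) ≠ 0 := by
    rw [d1, d2, resultant_map_map]
    exact (map_ne_zero_iff _ hinj).symm
  rw [e1, Ne, resultant_eq_zero_iff, not_and_not_right]
  have e2 := isCoprime_iff_aeval_ne_zero_of_isAlgClosed ℂ ℂ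
    ((pol x.1).map (Int.castRingHom ℂ)) ((pol x.2).map (Int.castRingHom ℂ))
  constructor
  · intro h z hz
    rcases e2.1 (h (Or.inl h0)) z with h' | h'
    · apply h'
      have := hz.1
      simpa [aeval_def, eval₂_map] using this
    · apply h'
      have := hz.2
      simpa [aeval_def, eval₂_map] using this
  · intro h _
    apply e2.2
    intro z
    by_contra hc
    push Not at hc
    apply h z
    have h3 := hc.1
    have h4 := hc.2
    constructor
    · simpa [aeval_def, eval₂_map] using h3
    · simpa [aeval_def, eval₂_map] using h4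

end Pool.Agent.Q20.BZ
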