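import Pool.Agent.Q20.BZ.Stmts

set_option autoImplicit false

open Polynomial

namespace Pool.Agent.Q20.BZ.TaskShiftPf

theorem main : Pool.Agent.Q20.BZ.TaskShift := by
  intro m n x t
  unfold Rx
  have hpol : pol (Function.update x.1 0 t) = pol (Function.update x.1 0 0) + C t := by
    unfold pol
    rw [Fin.sum_univ_succ, Fin.sum_univ_succ]
    simp only [Function.update_self, Fin.val_zero, pow_zero, mul_one,
      Function.update_of_ne (Fin.succ_ne_zero _), map_zero, zero_add]
    ring
  have hφC : (compRingHom (X + C t : ℤ[X])).comp (C : ℤ →+* ℤ[X]) = C := by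
    ext
    simp
  rw [← coe_compRingHom_apply, ← resultant_map_map]
  congr 1
  · rw [hpol]
    simp only [Polynomial.map_add, Polynomial.map_map, hφC, Polynomial.map_C]
    rw [coe_compRingHom_apply, X_comp, map_add]
    simp only [add_assoc]
    rw [add_comm (C (C t)) (C X)]
  · rw [Polynomial.map_map, hφC]

end Pool.Agent.Q20.BZ.TaskShiftPf
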