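import Pool.Agent.Q20.BZ.Stmts

set_option autoImplicit false

/-! MP_32694d_nt, blueprint of helper20: TASK Small (helper190). -/

open Polynomial
open scoped Classical

namespace Pool.Agent.Q20.BZ.TaskSmallPf

open Pool.Agent.Q20.BZ

theorem main : Pool.Agent.Q20.BZ.TaskSmall := by
  intro hC hG m n H p hm hn hH hp hpH
  haveI : Fact p.Prime := ⟨hp⟩
  haveI : NeZero p := ⟨hp.ne_zero⟩
  -- one class
  have hcl : ∀ y : W m n (ZMod p), ((BX m n H).filter fun x => red p x = y).card * p ^ (m + n + 2) ≤
      4 ^ (m + n + 2) * (BX m n H).card := by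
    intro y
    have h1 := hC m H p hH hp.one_le hpH y.1
    have h2 := hC n H p hH hp.one_le hpH y.2
    have he : ((BX m n H).filter fun x => red p x = y) =
        ((V m H).filter fun a => ∀ i, (a i : ZMod p) = y.1 i) ×ˢ
          ((V n H).filter fun a => ∀ i, (a i : ZMod p) = y.2 i) := by
      ext ⟨a, b⟩
      simp only [BX, Finset.mem_filter, Finset.mem_product, red, Prod.ext_iff, funext_iff]
      tauto
    rw [he, Finset.card_product, BX, Finset.card_product]
    calc _ = (((V m H).filter fun a => ∀ i, (a i : ZMod p) = y.1 i).card * p ^ (m + 1)) *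
          (((V n H).filter fun a => ∀ i, (a i : ZMod p) = y.2 i).card * p ^ (n + 1)) := by ring
      _ ≤ (4 ^ (m + 1) * (V m H).card) * (4 ^ (n + 1) * (V n H).card) := Nat.mul_le_mul h1 h2
      _ = _ := by ring
  -- the bad classes
  obtain ⟨B, hBdef⟩ : ∃ B : Finset (W m n (ZMod p)),
      B = Finset.univ.filter fun y : W m n (ZMod p) => ¬ Good m n (pol y.1) (pol y.2) := ⟨_, rfl⟩
  have hB : B.card ≤ 2 * p ^ (m + n) := by
    have hg := hG (ZMod p) m n hm hn
    rw [Nat.card_zmod, Nat.card_eq_fintype_card, Fintype.card_subtype] at hg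
    have htot := Finset.card_filter_add_card_filter_not (s := (Finset.univ : Finset (W m n (ZMod p))))
      (fun y : W m n (ZMod p) => Good m n (pol y.1) (pol y.2))
    rw [hg, ← hBdef] at htot
    have hU : (Finset.univ : Finset (W m n (ZMod p))).card = p ^ (m + n + 2) := by
      rw [Finset.card_univ, Fintype.card_prod, Fintype.card_fun, Fintype.card_fun, ZMod.card, Fintype.card_fin,
        Fintype.card_fin]
      ring
    rw [hU] at htot
    obtain ⟨k, hk⟩ : ∃ k, m + n = k + 2 := ⟨m + n - 2, by omega⟩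
    have hk2 : m + n - 2 = k := by omega
    rw [hk2, hk] at htot
    rw [hk]
    have hp2 : 1 ≤ p ^ 2 := Nat.one_le_pow _ _ hp.pos
    obtain ⟨q, hq⟩ : ∃ q, p ^ 2 = q + 1 := ⟨p ^ 2 - 1, by omega⟩
    have e1 : p ^ (k + 2 + 2) = (q + 1) ^ 2 * p ^ k := by rw [← hq]; ring
    have e2 : p ^ (k + 2) = (q + 1) * p ^ k := by rw [← hq]; ring
    rw [e1, hq, Nat.add_sub_cancel] at htot
    rw [e2]
    nlinarith [Nat.zero_le (p ^ k)]
  have hsum : ((BX m n H).filter fun x => ¬ OkAt m n p x).card =
      ∑ y ∈ B, ((BX m n H).filter fun x => red p x = y).card := by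
    rw [Finset.card_eq_sum_card_fiberwise (f := fun x => red p x) (t := B)]
    · refine Finset.sum_congr rfl fun y hy => ?_
      congr 1
      ext x
      simp only [Finset.mem_filter]
      constructor
      · rintro ⟨⟨h1, -⟩, h2⟩; exact ⟨h1, h2⟩
      · rintro ⟨h1, h2⟩
        refine ⟨⟨h1, fun hok => ?_⟩, h2⟩
        have := hok inferInstance
        rw [h2] at this
        rw [hBdef, Finset.mem_filter] at hy
        exact hy.2 this
    · intro x hx
      simp only [Finset.coe_filter, Set.mem_setOf_eq] at hx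
      rw [hBdef]
      simp only [Finset.coe_filter, Set.mem_setOf_eq, Finset.mem_univ, true_and]
      intro hgood
      exact hx.2 fun _ => hgood
  have hmain : ((BX m n H).filter fun x => ¬ OkAt m n p x).card * p ^ (m + n + 2) ≤
      (2 * p ^ (m + n)) * (4 ^ (m + n + 2) * (BX m n H).card) := by
    rw [hsum, Finset.sum_mul]
    calc _ ≤ ∑ y ∈ B, 4 ^ (m + n + 2) * (BX m n H).card := Finset.sum_le_sum fun y _ => hcl y
      _ = B.card * (4 ^ (m + n + 2) * (BX m n H).card) := by rw [Finset.sum_const, smul_eq_mul]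
      _ ≤ _ := Nat.mul_le_mul_right _ hB
  have hpos : 0 < p ^ (m + n) := pow_pos hp.pos _
  refine Nat.le_of_mul_le_mul_right ?_ hpos
  calc _ = ((BX m n H).filter fun x => ¬ OkAt m n p x).card * p ^ (m + n + 2) := by ring
    _ ≤ _ := hmain
    _ = _ := by ring

end Pool.Agent.Q20.BZ.TaskSmallPf
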