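import Pool.Agent.Q20.BZ.Stmts

set_option autoImplicit false

/-! TASK Split of the blueprint for MP_32694d_nt. -/

open Polynomial
open scoped Classical

namespace Pool.Agent.Q20.BZ.TaskSplitPf

variable {F : Type} [Field F]

lemma coeff_pol {k : ℕ} (a : Fin (k + 1) → F) (i : ℕ) :
    (pol a).coeff i = if h : i < k + 1 then a ⟨i, h⟩ else 0 := by
  unfold pol
  rw [finsetSum_coeff]
  simp only [coeff_C_mul, coeff_X_pow]
  split_ifs with h
  · rw [Finset.sum_eq_single ⟨i, h⟩]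
    · simp
    · intro b _ hb
      have : ¬ i = (b : ℕ) := fun e => hb (Fin.ext e.symm)
      simp [this]
    · simp
  · apply Finset.sum_eq_zero
    intro b _
    have : ¬ i = (b : ℕ) := fun e => h (e ▸ b.2)
    simp [this]

lemma natDegree_pol_le {k : ℕ} (a : Fin (k + 1) → F) : (pol a).natDegree ≤ k := by
  rw [natDegree_le_iff_coeff_eq_zero]
  intro i hi
  rw [coeff_pol, dif_neg (by omega)]

/-- coefficient vector -/
def cf (k : ℕ) (P : F[X]) : Fin (k + 1) → F := fun i => P.coeff i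

lemma pol_cf {k : ℕ} {P : F[X]} (h : P.natDegree ≤ k) : pol (cf k P) = P := by
  ext i
  rw [coeff_pol]
  split_ifs with hi
  · rfl
  · exact (coeff_eq_zero_of_natDegree_lt (by omega)).symm

lemma cf_pol {k : ℕ} (a : Fin (k + 1) → F) : cf k (pol a) = a := by
  funext i
  unfold cf
  rw [coeff_pol, dif_pos i.2]

/-- the pairs counted by `E` -/
abbrev S (F : Type) [Field F] (j k : ℕ) : Type :=
  {x : F[X] × F[X] // (x.1 ≠ 0 ∧ x.1.natDegree = j) ∧ (x.2 ≠ 0 ∧ x.2.natDegree = k) ∧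
    ∀ h : F[X], h ∣ x.1 → h ∣ x.2 → h.natDegree ≤ 1}

instance [Finite F] (j k : ℕ) : Finite (S F j k) := by
  apply Finite.of_injective (fun y : S F j k => ((cf j y.1.1, cf k y.1.2) : W j k F))
  intro y z h
  simp only [Prod.mk.injEq] at h
  apply Subtype.ext
  apply Prod.ext
  · rw [← pol_cf (P := y.1.1) (k := j) y.2.1.2.le, h.1, pol_cf z.2.1.2.le]
  · rw [← pol_cf (P := y.1.2) (k := k) y.2.2.1.2.le, h.2, pol_cf z.2.2.1.2.le]

lemma good_inl {m n : ℕ} (k : Fin (n + 1)) (y : S F m k) :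
    Good m n (pol (cf m y.1.1)) (pol (cf n y.1.2)) := by
  have hk := k.2
  have h1 := y.2.1.2
  have h2 := y.2.2.1.2
  rw [pol_cf (by omega), pol_cf (by omega)]
  refine ⟨Or.inl ?_, y.2.2.2⟩
  have h3 : y.1.1.coeff m = y.1.1.leadingCoeff := by
    rw [leadingCoeff, h1]
  rw [h3]
  exact leadingCoeff_ne_zero.2 y.2.1.1

lemma good_inr {m n : ℕ} (j : Fin m) (y : S F j n) :
    Good m n (pol (cf m y.1.1)) (pol (cf n y.1.2)) := by
  have hk := j.2
  have h1 := y.2.1.2
  have h2 := y.2.2.1.2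
  rw [pol_cf (by omega), pol_cf (by omega)]
  refine ⟨Or.inr ?_, y.2.2.2⟩
  have h3 : y.1.2.coeff n = y.1.2.leadingCoeff := by
    rw [leadingCoeff, h2]
  rw [h3]
  exact leadingCoeff_ne_zero.2 y.2.2.1.1

/-- the two kinds of pairs -/
def Phi (m n : ℕ) : (Σ k : Fin (n + 1), S F m k) ⊕ (Σ j : Fin m, S F j n) →
    {x : W m n F // Good m n (pol x.1) (pol x.2)}
  | Sum.inl y => ⟨(cf m y.2.1.1, cf n y.2.1.2), good_inl y.1 y.2⟩
  | Sum.inr y => ⟨(cf m y.2.1.1, cf n y.2.1.2), good_inr y.1 y.2⟩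

/-- the pair of polynomials -/
def pr (m n : ℕ) : (Σ k : Fin (n + 1), S F m k) ⊕ (Σ j : Fin m, S F j n) → F[X] × F[X]
  | Sum.inl y => y.2.1
  | Sum.inr y => y.2.1

lemma pr_inj (m n : ℕ) : Function.Injective (pr (F := F) m n) := by
  rintro (⟨k, y⟩ | ⟨j, y⟩) (⟨k', y'⟩ | ⟨j', y'⟩) h
  · simp only [pr] at h
    have hk : k = k' := by
      apply Fin.ext
      have h1 := y.2.2.1.2
      have h2 := y'.2.2.1.2
      rw [h] at h1
      exact h1.symm.trans h2
    subst hk
    have : y = y' := Subtype.ext h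
    rw [this]
  · simp only [pr] at h
    exfalso
    have h1 := y.2.1.2
    have h2 := y'.2.1.2
    have h3 := j'.2
    rw [h] at h1
    omega
  · simp only [pr] at h
    exfalso
    have h1 := y.2.1.2
    have h2 := y'.2.1.2
    have h3 := j.2
    rw [h] at h1
    omega
  · simp only [pr] at h
    have hk : j = j' := by
      apply Fin.ext
      have h1 := y.2.1.2
      have h2 := y'.2.1.2
      rw [h] at h1
      exact h1.symm.trans h2
    subst hk
    have : y = y' := Subtype.ext h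
    rw [this]

lemma pol_Phi (m n : ℕ) (z : (Σ k : Fin (n + 1), S F m k) ⊕ (Σ j : Fin m, S F j n)) :
    (pol (Phi m n z).1.1, pol (Phi m n z).1.2) = pr m n z := by
  rcases z with ⟨k, y⟩ | ⟨j, y⟩
  · have hk := k.2
    have h1 := y.2.1.2
    have h2 := y.2.2.1.2
    simp only [Phi, pr]
    rw [pol_cf (by omega), pol_cf (by omega)]
  · have hk := j.2
    have h1 := y.2.1.2
    have h2 := y.2.2.1.2
    simp only [Phi, pr]
    rw [pol_cf (by omega), pol_cf (by omega)]

lemma Phi_inj (m n : ℕ) : Function.Injective (Phi (F := F) m n) := by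
  intro a b h
  apply pr_inj m n
  rw [← pol_Phi, ← pol_Phi, h]

lemma Phi_surj {m n : ℕ} (hm : 2 ≤ m) (hn : 2 ≤ n) : Function.Surjective (Phi (F := F) m n) := by
  rintro ⟨x, hx⟩
  have d1 : (pol x.1).natDegree ≤ m := natDegree_pol_le x.1
  have d2 : (pol x.2).natDegree ≤ n := natDegree_pol_le x.2
  have hlast : ∀ z, pr m n z = (pol x.1, pol x.2) → Phi m n z = ⟨x, hx⟩ := by
    intro z hz
    apply Subtype.ext
    have h1 := pol_Phi m n z
    rw [hz] at h1
    simp only [Prod.mk.injEq] at h1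
    apply Prod.ext
    · rw [← cf_pol (Phi m n z).1.1, h1.1, cf_pol]
    · rw [← cf_pol (Phi m n z).1.2, h1.2, cf_pol]
  by_cases hc : (pol x.1).coeff m ≠ 0
  · have e1 : (pol x.1).natDegree = m := le_antisymm d1 (le_natDegree_of_ne_zero hc)
    have n1 : pol x.1 ≠ 0 := fun h => hc (by rw [h]; simp)
    have n2 : pol x.2 ≠ 0 := by
      intro h
      have := hx.2 (pol x.1) dvd_rfl (by rw [h]; exact dvd_zero _)
      omega
    exact ⟨Sum.inl ⟨⟨(pol x.2).natDegree, by omega⟩, ⟨(pol x.1, pol x.2), ⟨n1, e1⟩, ⟨n2, rfl⟩, hx.2⟩⟩,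
      hlast _ rfl⟩
  · push Not at hc
    have hc2 : (pol x.2).coeff n ≠ 0 := by
      rcases hx.1 with h | h
      · exact absurd hc h
      · exact h
    have e2 : (pol x.2).natDegree = n := le_antisymm d2 (le_natDegree_of_ne_zero hc2)
    have n2 : pol x.2 ≠ 0 := fun h => hc2 (by rw [h]; simp)
    have n1 : pol x.1 ≠ 0 := by
      intro h
      have := hx.2 (pol x.2) (by rw [h]; exact dvd_zero _) dvd_rfl
      omega
    have l1 : (pol x.1).natDegree < m := by
      rcases lt_or_eq_of_le d1 with h | h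
      · exact h
      · exfalso
        apply n1
        apply leadingCoeff_eq_zero.1
        rw [leadingCoeff, h]
        exact hc
    exact ⟨Sum.inr ⟨⟨(pol x.1).natDegree, l1⟩, ⟨(pol x.1, pol x.2), ⟨n1, rfl⟩, ⟨n2, e2⟩, hx.2⟩⟩,
      hlast _ rfl⟩

theorem main : TaskSplit := by
  intro F _ _ m n hm hn
  rw [← Nat.card_congr (Equiv.ofBijective (Phi (F := F) m n) ⟨Phi_inj m n, Phi_surj hm hn⟩),
    Nat.card_sum, Nat.card_sigma, Nat.card_sigma, Finset.sum_range, Finset.sum_range]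
  rfl

end Pool.Agent.Q20.BZ.TaskSplitPf
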