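import Pool.Agent.Q20.BZ.Stmts

set_option autoImplicit false

/-!
MP_32694d_nt: TaskTail.
-/

open Polynomial Filter Topology
open scoped Classical

namespace Pool.Agent.Q20.BZ.TaskTailPf

open Pool.Agent.Q20.BZ Finset

theorem mf {α : Type} {p : α → Prop} {inst : DecidablePred p} {s : Finset α} {a : α} :
    a ∈ @Finset.filter α p inst s ↔ a ∈ s ∧ p a := Finset.mem_filter

theorem mem_V {k H : ℕ} {a : Fin (k + 1) → ℤ} : a ∈ V k H ↔
    ∀ i, a i ∈ (if i = Fin.last k then Finset.Icc (1 : ℤ) H else Finset.Icc (-(H : ℤ)) H) := by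
  unfold V
  rw [Fintype.mem_piFinset]

theorem last_ne {k H : ℕ} {a : Fin (k + 1) → ℤ} (h : a ∈ V k H) : a (Fin.last k) ≠ 0 := by
  have := mem_V.1 h (Fin.last k)
  rw [if_pos rfl, Finset.mem_Icc] at this
  omega

theorem update_mem {k H : ℕ} {a : Fin (k + 1) → ℤ} {i : Fin (k + 1)} {t : ℤ} (h : a ∈ V k H)
    (hi : i ≠ Fin.last k) (ht : t ∈ Finset.Icc (-(H : ℤ)) H) : Function.update a i t ∈ V k H := by
  rw [mem_V]
  intro j
  by_cases hj : j = i
  · subst hj
    rw [if_neg hi, Function.update_self]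
    exact ht
  · rw [Function.update_of_ne hj]
    exact mem_V.1 h j

theorem real_of_nat {c K B H : ℕ} (hH : 2 ≤ H) (h : c * (2 * H + 1) ≤ K * B) :
    (c : ℝ) ≤ K * B / (H : ℝ) := by
  have hH' : (0 : ℝ) < H := by positivity
  rw [le_div_iff₀ hH']
  have h1 : (c : ℝ) * (2 * H + 1) ≤ K * B := by exact_mod_cast h
  have h2 : (0 : ℝ) ≤ c := by positivity
  nlinarith

theorem mid_bound {m n H M : ℕ} (h1 : ∀ p : ℕ, p.Prime → p ≤ 2 * H + 1 →
    ((BX m n H).filter fun x => ¬ OkAt m n p x).card * p ^ 2 ≤ 2 * 4 ^ (m + n + 2) * (BX m n H).card)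
    (hM : 1 ≤ M) :
    (((BX m n H).filter fun x => ∃ p : ℕ, p.Prime ∧ M < p ∧ p ≤ 2 * H + 1 ∧ ¬ OkAt m n p x).card : ℝ) ≤
      2 * 4 ^ (m + n + 2) * (BX m n H).card * (1 / (M : ℝ)) := by
  set B : ℝ := ((BX m n H).card : ℝ) with hB
  have hB0 : 0 ≤ B := by positivity
  have hsub : ((BX m n H).filter fun x => ∃ p : ℕ, p.Prime ∧ M < p ∧ p ≤ 2 * H + 1 ∧ ¬ OkAt m n p x) ⊆
      ((Finset.Ioc M (2 * H + 1)).filter Nat.Prime).biUnion
        (fun p => (BX m n H).filter fun x => ¬ OkAt m n p x) := by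
    intro x hx
    rw [Finset.mem_filter] at hx
    obtain ⟨hxB, p, hp, hMp, hpH, hok⟩ := hx
    rw [Finset.mem_biUnion]
    exact ⟨p, Finset.mem_filter.2 ⟨Finset.mem_Ioc.2 ⟨hMp, hpH⟩, hp⟩, Finset.mem_filter.2 ⟨hxB, hok⟩⟩
  have h2 := (Finset.card_le_card hsub).trans Finset.card_biUnion_le
  have h3 : (((BX m n H).filter fun x => ∃ p : ℕ, p.Prime ∧ M < p ∧ p ≤ 2 * H + 1 ∧
      ¬ OkAt m n p x).card : ℝ) ≤ ∑ p ∈ (Finset.Ioc M (2 * H + 1)).filter Nat.Prime,
        (((BX m n H).filter fun x => ¬ OkAt m n p x).card : ℝ) := by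
    exact_mod_cast h2
  refine h3.trans ?_
  have h4 : ∀ p ∈ (Finset.Ioc M (2 * H + 1)).filter Nat.Prime,
      (((BX m n H).filter fun x => ¬ OkAt m n p x).card : ℝ) ≤
        2 * 4 ^ (m + n + 2) * B * (((p : ℝ) ^ 2)⁻¹) := by
    intro p hp
    rw [Finset.mem_filter, Finset.mem_Ioc] at hp
    have h5 := h1 p hp.2 hp.1.2
    have hp0 : (0 : ℝ) < (p : ℝ) ^ 2 := by
      have := hp.2.pos
      positivity
    rw [← div_eq_mul_inv, le_div_iff₀ hp0, hB]
    exact_mod_cast h5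
  refine (Finset.sum_le_sum h4).trans ?_
  rw [← Finset.mul_sum]
  refine mul_le_mul_of_nonneg_left ?_ (by positivity)
  have h6 : ∑ p ∈ (Finset.Ioc M (2 * H + 1)).filter Nat.Prime, (((p : ℝ) ^ 2)⁻¹) ≤
      ∑ p ∈ Finset.Ioc M (2 * H + 1), (((p : ℝ) ^ 2)⁻¹) :=
    Finset.sum_le_sum_of_subset_of_nonneg (Finset.filter_subset _ _) fun _ _ _ => by positivity
  refine h6.trans ?_
  rcases le_total M (2 * H + 1) with hle | hle
  · have h7 := sum_Ioc_inv_sq_le_sub (α := ℝ) (k := M) (n := 2 * H + 1) (by omega) hle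
    refine h7.trans ?_
    have : (0 : ℝ) ≤ ((2 * H + 1 : ℕ) : ℝ)⁻¹ := by positivity
    rw [one_div]
    linarith
  · rw [Finset.Ioc_eq_empty (by omega), Finset.sum_empty]
    positivity

theorem main : Pool.Agent.Q20.BZ.TaskTail := by
  intro h1 hF hN hD hE hB m n hm hn
  obtain ⟨m, rfl⟩ : ∃ k, m = k + 2 := ⟨m - 2, by omega⟩
  obtain ⟨KB, hKB⟩ := hB (m + 2) n (by omega) (by omega)
  have i0 : (0 : Fin (m + 2 + 1)) ≠ Fin.last (m + 2) := by
    intro h; simp [Fin.ext_iff] at h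
  have i1 : (1 : Fin (m + 2 + 1)) ≠ Fin.last (m + 2) := by
    intro h; simp [Fin.ext_iff] at h
  have j0 : (0 : Fin (n + 1)) ≠ Fin.last n := by
    intro h
    simp [Fin.ext_iff] at h
    omega
  -- the four exceptional sets
  have bN : ∀ H : ℕ, 2 ≤ H → (((BX (m + 2) n H).filter fun x => ¬ Cop x).card : ℝ) ≤
      n * (BX (m + 2) n H).card / (H : ℝ) := by
    intro H hH
    apply real_of_nat hH
    refine le_trans (le_of_eq ?_) ((hF (m + 2) n H n (fun x => ¬ Cop x)).1 0 i0 ?_)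
    · congr!
    intro x hx
    have hx2 := (Finset.mem_product.1 hx).2
    refine hN (m + 2) n x (last_ne hx2) _ ?_
    intro t ht
    have := (mf.mp ht).2
    unfold Cop at this
    push Not at this
    exact this
  have bD : ∀ H : ℕ, 2 ≤ H → (((BX (m + 2) n H).filter fun x =>
      ∃ z : ℂ, aeval z (pol x.2) = 0 ∧ aeval z (derivative (pol x.2)) = 0).card : ℝ) ≤
      n * (BX (m + 2) n H).card / (H : ℝ) := by
    intro H hH
    apply real_of_nat hH
    refine (hF (m + 2) n H n (fun x =>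
      ∃ z : ℂ, aeval z (pol x.2) = 0 ∧ aeval z (derivative (pol x.2)) = 0)).2 0 j0 ?_
    intro x hx
    have hx2 := (Finset.mem_product.1 hx).2
    refine hD n x.2 (by omega) (last_ne hx2) _ ?_
    intro t ht
    rw [Finset.mem_filter] at ht
    exact ht.2
  have bE : ∀ H : ℕ, 2 ≤ H → (((BX (m + 2) n H).filter fun x =>
      ∃ z w : ℂ, z ≠ w ∧ aeval z (pol x.2) = 0 ∧ aeval w (pol x.2) = 0 ∧
        aeval z (pol x.1) = aeval w (pol x.1)).card : ℝ) ≤
      (n ^ 2 : ℕ) * (BX (m + 2) n H).card / (H : ℝ) := by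
    intro H hH
    apply real_of_nat hH
    refine (hF (m + 2) n H (n ^ 2) (fun x =>
      ∃ z w : ℂ, z ≠ w ∧ aeval z (pol x.2) = 0 ∧ aeval w (pol x.2) = 0 ∧
        aeval z (pol x.1) = aeval w (pol x.1))).1 1 i1 ?_
    intro x hx
    have hx2 := (Finset.mem_product.1 hx).2
    refine hE m n x (last_ne hx2) _ ?_
    intro t ht
    rw [Finset.mem_filter] at ht
    exact ht.2
  have bB : ∀ H : ℕ, 2 ≤ H → (((BX (m + 2) n H).filter fun x => ¬ Exc x ∧ ∃ p : ℕ, p.Prime ∧
      2 * H + 1 < p ∧ ¬ OkAt (m + 2) n p x).card : ℝ) ≤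
      KB * (BX (m + 2) n H).card / (H : ℝ) := by
    intro H hH
    apply real_of_nat hH
    refine le_trans (le_of_eq ?_) ((hF (m + 2) n H KB (fun x => ¬ Exc x ∧ ∃ p : ℕ, p.Prime ∧
      2 * H + 1 < p ∧ ¬ OkAt (m + 2) n p x)).1 0 i0 ?_)
    · congr!
    intro x hx
    by_contra hlt
    obtain ⟨t0, ht0'⟩ := Finset.card_pos.1 (lt_of_le_of_lt (Nat.zero_le _) (not_le.1 hlt))
    have ht0 := mf.mp ht0'
    have hx' : ((Function.update x.1 0 t0, x.2) : W (m + 2) n ℤ) ∈ BX (m + 2) n H := by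
      have := Finset.mem_product.1 hx
      exact Finset.mem_product.2 ⟨update_mem this.1 i0 ht0.1, this.2⟩
    apply hlt
    refine le_trans (Finset.card_le_card ?_) (hKB H hH _ hx' ht0.2.1)
    intro t ht'
    have ht := mf.mp ht'
    refine mf.mpr ⟨ht.1, ?_⟩
    obtain ⟨p, hp1, hp2, hp3⟩ := ht.2.2
    refine ⟨p, hp1, hp2, ?_⟩
    simpa only [Function.update_idem] using hp3
  refine ⟨2 * 4 ^ (m + 2 + n + 2) + n + n + ((n ^ 2 : ℕ) : ℝ) + KB, by positivity, ?_, ?_⟩
  · intro H M hH hM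
    have bM := mid_bound (m := m + 2) (n := n) (H := H) (M := M)
      (fun p hp hpH => h1 (m + 2) n H p hm hn (by omega) hp hpH) hM
    have hsub : ((BX (m + 2) n H).filter fun x => ∀ p : ℕ, p.Prime → p ≤ M → OkAt (m + 2) n p x) ⊆
        ((BX (m + 2) n H).filter fun x => Cop x ∧ ∀ p : ℕ, p.Prime → OkAt (m + 2) n p x) ∪
        (((BX (m + 2) n H).filter fun x => ¬ Cop x) ∪
        (((BX (m + 2) n H).filter fun x => ∃ p : ℕ, p.Prime ∧ M < p ∧ p ≤ 2 * H + 1 ∧
          ¬ OkAt (m + 2) n p x) ∪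
        (((BX (m + 2) n H).filter fun x =>
          ∃ z : ℂ, aeval z (pol x.2) = 0 ∧ aeval z (derivative (pol x.2)) = 0) ∪
        (((BX (m + 2) n H).filter fun x =>
          ∃ z w : ℂ, z ≠ w ∧ aeval z (pol x.2) = 0 ∧ aeval w (pol x.2) = 0 ∧
            aeval z (pol x.1) = aeval w (pol x.1)) ∪
        ((BX (m + 2) n H).filter fun x => ¬ Exc x ∧ ∃ p : ℕ, p.Prime ∧
          2 * H + 1 < p ∧ ¬ OkAt (m + 2) n p x))))) := by
      intro x hx
      rw [Finset.mem_filter] at hx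
      obtain ⟨hxB, hok⟩ := hx
      simp only [Finset.mem_union, Finset.mem_filter]
      by_cases hc : Cop x
      · by_cases ho : ∀ p : ℕ, p.Prime → OkAt (m + 2) n p x
        · exact Or.inl ⟨hxB, hc, ho⟩
        · push Not at ho
          obtain ⟨p, hp, hpo⟩ := ho
          have hMp : M < p := by
            by_contra h
            exact hpo (hok p hp (by omega))
          by_cases hpH : p ≤ 2 * H + 1
          · exact Or.inr (Or.inr (Or.inl ⟨hxB, p, hp, hMp, hpH, hpo⟩))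
          · by_cases hexc : Exc x
            · rcases hexc with h | h
              · exact Or.inr (Or.inr (Or.inr (Or.inl ⟨hxB, h⟩)))
              · exact Or.inr (Or.inr (Or.inr (Or.inr (Or.inl ⟨hxB, h⟩))))
            · exact Or.inr (Or.inr (Or.inr (Or.inr (Or.inr ⟨hxB, hexc, p, hp, by omega, hpo⟩))))
      · exact Or.inr (Or.inl ⟨hxB, hc⟩)
    have hcard := (Finset.card_le_card hsub).trans ((Finset.card_union_le _ _).trans
      (Nat.add_le_add_left ((Finset.card_union_le _ _).trans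
      (Nat.add_le_add_left ((Finset.card_union_le _ _).trans
      (Nat.add_le_add_left ((Finset.card_union_le _ _).trans
      (Nat.add_le_add_left (Finset.card_union_le _ _) _)) _)) _)) _))
    have hcard' : (((BX (m + 2) n H).filter fun x =>
        ∀ p : ℕ, p.Prime → p ≤ M → OkAt (m + 2) n p x).card : ℝ) ≤ _ := Nat.cast_le.2 hcard
    push_cast at hcard'
    have c1 := bN H hH
    have c2 := bD H hH
    have c3 := bE H hH
    have c4 := bB H hH
    push_cast at c3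
    set B : ℝ := ((BX (m + 2) n H).card : ℝ) with hBdef
    have hB0 : 0 ≤ B := by positivity
    have hH0 : (0 : ℝ) ≤ 1 / (H : ℝ) := by positivity
    have hM0 : (0 : ℝ) ≤ 1 / (M : ℝ) := by positivity
    have e : ∀ k : ℝ, k * B / (H : ℝ) = k * B * (1 / (H : ℝ)) := fun k => by ring
    rw [e] at c1 c2 c3 c4
    have k1 : 0 ≤ (2 * 4 ^ (m + 2 + n + 2) : ℝ) * B * (1 / (H : ℝ)) := by positivity
    have k2 : 0 ≤ (n + n + (n : ℝ) ^ 2 + KB) * B * (1 / (M : ℝ)) := by positivity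
    push_cast
    nlinarith [hcard', bM, c1, c2, c3, c4, k1, k2]
  · intro H hH
    have c1 := bN H hH
    have hsplit : ((BX (m + 2) n H).card : ℝ) =
        ((BX (m + 2) n H).filter Cop).card + ((BX (m + 2) n H).filter fun x => ¬ Cop x).card := by
      have := Finset.card_filter_add_card_filter_not (s := BX (m + 2) n H) (fun x => Cop x)
      rw [← this]
      push_cast
      rfl
    set B : ℝ := ((BX (m + 2) n H).card : ℝ) with hBdef
    have hB0 : 0 ≤ B := by positivity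
    have e : ∀ k : ℝ, k * B / (H : ℝ) = k * B * (1 / (H : ℝ)) := fun k => by ring
    have k1 : 0 ≤ (2 * 4 ^ (m + 2 + n + 2) + n + (n : ℝ) ^ 2 + KB) * B * (1 / (H : ℝ)) := by
      positivity
    rw [e] at c1 ⊢
    push_cast
    linarith

end Pool.Agent.Q20.BZ.TaskTailPf
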