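import Pool.Agent.Q20.BZ.Asm
import Pool.Agent.Q20.BZ.BadDvd
import Pool.Agent.Q20.BZ.TaskAlg
import Pool.Agent.Q20.BZ.TaskBezout
import Pool.Agent.Q20.BZ.TaskBigFiber
import Pool.Agent.Q20.BZ.TaskBound
import Pool.Agent.Q20.BZ.TaskCRT
import Pool.Agent.Q20.BZ.TaskClass
import Pool.Agent.Q20.BZ.TaskCrit
import Pool.Agent.Q20.BZ.TaskDensity
import Pool.Agent.Q20.BZ.TaskDne
import Pool.Agent.Q20.BZ.TaskDouble
import Pool.Agent.Q20.BZ.TaskEqual
import Pool.Agent.Q20.BZ.TaskEqui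
import Pool.Agent.Q20.BZ.TaskEuler
import Pool.Agent.Q20.BZ.TaskExact
import Pool.Agent.Q20.BZ.TaskFiber
import Pool.Agent.Q20.BZ.TaskGlobal
import Pool.Agent.Q20.BZ.TaskGoodCount
import Pool.Agent.Q20.BZ.TaskIndex
import Pool.Agent.Q20.BZ.TaskLimit
import Pool.Agent.Q20.BZ.TaskMonicBad
import Pool.Agent.Q20.BZ.TaskMonicCount
import Pool.Agent.Q20.BZ.TaskNonCoprime
import Pool.Agent.Q20.BZ.TaskNormDet
import Pool.Agent.Q20.BZ.TaskOrder
import Pool.Agent.Q20.BZ.TaskPrimes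
import Pool.Agent.Q20.BZ.TaskResZero
import Pool.Agent.Q20.BZ.TaskShift
import Pool.Agent.Q20.BZ.TaskSmall
import Pool.Agent.Q20.BZ.TaskSplit
import Pool.Agent.Q20.BZ.TaskTail
import Pool.Agent.Q16.BZ.Roots

set_option autoImplicit false

/-!
# MP_32694d_nt: the limit
-/

open Polynomial Filter Topology
open scoped Classical

namespace Pool.Agent.Q20.BZ

theorem finite_PP (k H : ℕ) : (PP k H).Finite := by
  rcases Nat.eq_zero_or_pos k with hk | hk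
  · subst hk
    refine ((Set.finite_Icc (-(H : ℤ)) H).image (fun a : ℤ => (C a : ℤ[X]))).subset ?_
    rintro f ⟨h1, -, h3⟩
    refine ⟨f.coeff 0, ?_, (eq_C_of_natDegree_eq_zero h1).symm⟩
    have := abs_le.1 (h3 0)
    exact Set.mem_Icc.2 this
  · refine ((V k H).finite_toSet.image pol).subset ?_
    intro f hf
    obtain ⟨a, ha, rfl⟩ := (mem_PP f hk).1 hf
    exact ⟨a, ha, rfl⟩

theorem finite_pairs (m n H : ℕ) : {x : ℤ[X] × ℤ[X] | x.1 ∈ PP m H ∧ x.2 ∈ PP n H ∧ Co x.1 x.2}.Finite := by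
  refine ((finite_PP m H).prod (finite_PP n H)).subset ?_
  rintro x ⟨h1, h2, -⟩
  exact ⟨h1, h2⟩

theorem euler : TaskEuler := TaskEulerPf.main

theorem main (m n : ℕ) (hm : 2 ≤ m) (hn : 2 ≤ n) :
    Tendsto (fun H : ℕ =>
      ({x : ℤ[X] × ℤ[X] | x.1 ∈ PP m H ∧ x.2 ∈ PP n H ∧ Co x.1 x.2 ∧ bez x.1 x.2 = (resultant x.1 x.2).natAbs}.ncard : ℝ) /
        {x : ℤ[X] × ℤ[X] | x.1 ∈ PP m H ∧ x.2 ∈ PP n H ∧ Co x.1 x.2}.ncard) atTop (𝓝 (36 / Real.pi ^ 4)) :=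
  assemble TaskAlgPf.main TaskOrderPf.main taskIndex TaskGlobalPf.main TaskBezoutPf.main TaskMonicCountPf.main
    TaskMonicBadPf.main TaskExactPf.main TaskSplitPf.main TaskGoodCountPf.main TaskClassPf.main TaskSmallPf.main
    TaskEquiPf.main TaskCRTPf.main TaskDensityPf.main TaskFiberPf.main TaskNonCoprimePf.main TaskDoublePf.main
    TaskEqualPf.main Pool.Agent.Q16.BZ.roots TaskDnePf.main BadDvd.main TaskShiftPf.main TaskNormDetPf.main
    TaskBoundPf.main TaskPrimesPf.main TaskBigFiberPf.main TaskEulerPf.main taskResZero TaskCritPf.main TaskTailPf.main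
    TaskLimitPf.main m n hm hn

end Pool.Agent.Q20.BZ
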