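import Pool.Agent.Q20.BZ.Stmts

/-! # Auxiliary lemmas for the exceptional sets (helper56) -/

set_option autoImplicit false

open Polynomial

namespace Pool.Agent.Q20.BZ.Hlp56

lemma pol_coeff {R : Type} [CommRing R] {k : ℕ} (a : Fin (k + 1) → R) (i : Fin (k + 1)) :
    (pol a).coeff i = a i := by
  unfold pol
  rw [finsetSum_coeff]
  simp only [coeff_C_mul, coeff_X_pow]
  rw [Finset.sum_eq_single i]
  · simp
  · intro j _ hj
    rw [if_neg (fun h => hj (Fin.ext h.symm)), mul_zero]
  · intro h
    exact absurd (Finset.mem_univ i) h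

lemma pol_natDegree {R : Type} [CommRing R] {k : ℕ} (a : Fin (k + 1) → R) : (pol a).natDegree ≤ k := by
  unfold pol
  apply natDegree_sum_le_of_forall_le
  intro i _
  refine (natDegree_C_mul_X_pow_le _ _).trans ?_
  have := i.2
  omega

lemma pol_update_zero {R : Type} [CommRing R] {k : ℕ} (a : Fin (k + 1) → R) (t : R) :
    pol (Function.update a 0 t) = C t + pol (Function.update a 0 0) := by
  unfold pol
  rw [Fin.sum_univ_succ, Fin.sum_univ_succ]
  simp [Fin.succ_ne_zero]

lemma card_le_roots (P : ℂ[X]) (hP : P ≠ 0) (f : ℂ → ℂ) (T : Finset ℤ)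
    (h : ∀ t ∈ T, ∃ z : ℂ, P.IsRoot z ∧ (t : ℂ) = f z) : T.card ≤ P.natDegree := by
  classical
  choose! z hz using h
  have h1 : T.card ≤ P.roots.toFinset.card := by
    apply Finset.card_le_card_of_injOn z
    · intro t ht
      have := (hz t ht).1
      simp only [Finset.mem_coe, Multiset.mem_toFinset]
      exact (mem_roots hP).2 this
    · intro t ht s hs hts
      have h2 := (hz t ht).2
      have h3 := (hz s hs).2
      rw [hts, ← h3] at h2
      exact_mod_cast h2
  exact h1.trans ((Multiset.toFinset_card_le _).trans (card_roots' P))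

end Pool.Agent.Q20.BZ.Hlp56
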