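import Pool.Agent.Q20.BZ.Stmts

set_option autoImplicit false

open Filter Topology Finset
open scoped Classical

namespace Pool.Agent.Q20.BZ.TaskEquiPf

open Pool.Agent.Q20.BZ

/-- the number of elements of a class in an interval -/
theorem count_bound (Q : ℕ) (hQ : 1 ≤ Q) (c : ZMod Q) (a b : ℤ) (hab : a ≤ b) :
    |(((Ioc a b).filter fun t : ℤ => (t : ZMod Q) = c).card : ℝ) - ((b - a : ℤ) : ℝ) / Q| ≤ 1 := by
  obtain ⟨v, rfl⟩ := ZMod.intCast_surjective c
  have hQ' : (0 : ℤ) < (Q : ℤ) := by exact_mod_cast hQ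
  have h := Int.Ioc_filter_modEq_card a b hQ' v
  have e : ((Ioc a b).filter fun t : ℤ => (t : ZMod Q) = (v : ZMod Q)) =
      (Ioc a b).filter (fun t => t ≡ v [ZMOD Q]) := by
    apply Finset.filter_congr; intro t _; exact ZMod.intCast_eq_intCast_iff t v Q
  rw [e]
  have h' : (((Ioc a b).filter (fun t => t ≡ v [ZMOD Q])).card : ℝ) =
      max ((⌊((b - v : ℤ) : ℚ) / ((Q : ℤ) : ℚ)⌋ - ⌊((a - v : ℤ) : ℚ) / ((Q : ℤ) : ℚ)⌋ : ℤ) : ℝ) 0 := by
    have := congrArg (fun z : ℤ => (z : ℝ)) h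
    push_cast at this ⊢
    simpa using this
  rw [h']
  have hQr : (0 : ℝ) < Q := by exact_mod_cast hQ
  have f1 := Int.floor_le (((b - v : ℤ) : ℚ) / ((Q : ℤ) : ℚ))
  have f2 := Int.lt_floor_add_one (((b - v : ℤ) : ℚ) / ((Q : ℤ) : ℚ))
  have f3 := Int.floor_le (((a - v : ℤ) : ℚ) / ((Q : ℤ) : ℚ))
  have f4 := Int.lt_floor_add_one (((a - v : ℤ) : ℚ) / ((Q : ℤ) : ℚ))
  set B := ⌊((b - v : ℤ) : ℚ) / ((Q : ℤ) : ℚ)⌋
  set A := ⌊((a - v : ℤ) : ℚ) / ((Q : ℤ) : ℚ)⌋
  have g1 : (B : ℝ) ≤ ((b - v : ℤ) : ℝ) / (Q : ℝ) := by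
    have := (Rat.cast_le (K := ℝ)).mpr f1; push_cast at this ⊢; exact this
  have g2 : ((b - v : ℤ) : ℝ) / (Q : ℝ) < B + 1 := by
    have := (Rat.cast_lt (K := ℝ)).mpr f2; push_cast at this ⊢; exact this
  have g3 : (A : ℝ) ≤ ((a - v : ℤ) : ℝ) / (Q : ℝ) := by
    have := (Rat.cast_le (K := ℝ)).mpr f3; push_cast at this ⊢; exact this
  have g4 : ((a - v : ℤ) : ℝ) / (Q : ℝ) < A + 1 := by
    have := (Rat.cast_lt (K := ℝ)).mpr f4; push_cast at this ⊢; exact this
  have hd : ((b - a : ℤ) : ℝ) / Q = ((b - v : ℤ) : ℝ) / (Q : ℝ) - ((a - v : ℤ) : ℝ) / (Q : ℝ) := by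
    push_cast; ring
  have hnn : 0 ≤ ((b - a : ℤ) : ℝ) / Q := by
    apply div_nonneg _ hQr.le
    exact_mod_cast sub_nonneg.mpr hab
  rw [hd] at hnn ⊢
  rw [Int.cast_sub B A, abs_le]
  constructor
  · have := le_max_left ((B : ℝ) - A) 0
    linarith
  · have : max ((B : ℝ) - A) 0 ≤ ((b - v : ℤ) : ℝ) / (Q : ℝ) - ((a - v : ℤ) : ℝ) / (Q : ℝ) + 1 := by
      apply max_le
      · linarith
      · linarith
    linarith

theorem ratio (Q : ℕ) (hQ : 1 ≤ Q) (c : ZMod Q) (a b : ℕ → ℤ) (hab : ∀ H, a H ≤ b H)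
    (hL : Tendsto (fun H => ((b H - a H : ℤ) : ℝ)) atTop atTop) :
    Tendsto (fun H => (((Ioc (a H) (b H)).filter fun t : ℤ => (t : ZMod Q) = c).card : ℝ) /
      ((Ioc (a H) (b H)).card : ℝ)) atTop (𝓝 (1 / (Q : ℝ))) := by
  have hcard : ∀ H, ((Ioc (a H) (b H)).card : ℝ) = ((b H - a H : ℤ) : ℝ) := by
    intro H
    rw [Int.card_Ioc]
    have : ((b H - a H).toNat : ℤ) = b H - a H := Int.toNat_of_nonneg (sub_nonneg.mpr (hab H))
    exact_mod_cast congrArg (fun z : ℤ => (z : ℝ)) this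
  simp_rw [hcard]
  rw [tendsto_iff_norm_sub_tendsto_zero]
  have hinv : Tendsto (fun H => (((b H - a H : ℤ) : ℝ))⁻¹) atTop (𝓝 0) := tendsto_inv_atTop_zero.comp hL
  refine squeeze_zero' (Eventually.of_forall fun H => norm_nonneg _) ?_ hinv
  filter_upwards [hL.eventually_gt_atTop 0] with H hH
  have hb := count_bound Q hQ c (a H) (b H) (hab H)
  rw [Real.norm_eq_abs]
  set L := ((b H - a H : ℤ) : ℝ)
  have e : (((Ioc (a H) (b H)).filter fun t : ℤ => (t : ZMod Q) = c).card : ℝ) / L - 1 / (Q : ℝ) =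
      ((((Ioc (a H) (b H)).filter fun t : ℤ => (t : ZMod Q) = c).card : ℝ) - L / Q) / L := by
    field_simp
  rw [e, abs_div, abs_of_pos hH, div_le_iff₀ hH, inv_mul_cancel₀ hH.ne']
  exact hb

/-- the coordinate intervals -/
noncomputable def I (k H : ℕ) (i : Fin (k + 1)) : Finset ℤ :=
  if i = Fin.last k then Finset.Icc (1 : ℤ) H else Finset.Icc (-(H : ℤ)) H

theorem ratioI (Q : ℕ) (hQ : 1 ≤ Q) (c : ZMod Q) (k : ℕ) (i : Fin (k + 1)) :
    Tendsto (fun H : ℕ => (((I k H i).filter fun t : ℤ => (t : ZMod Q) = c).card : ℝ) /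
      ((I k H i).card : ℝ)) atTop (𝓝 (1 / (Q : ℝ))) := by
  have hcast : Tendsto (fun H : ℕ => (H : ℝ)) atTop atTop := tendsto_natCast_atTop_atTop
  by_cases hi : i = Fin.last k
  · have e : ∀ H : ℕ, I k H i = Ioc (0 : ℤ) H := by
      intro H; simp only [I, hi, if_true]; ext t; simp only [mem_Icc, mem_Ioc]; omega
    simp_rw [e]
    apply ratio Q hQ c (fun _ => 0) (fun H => (H : ℤ)) (fun H => by positivity)
    simpa using hcast
  · have e : ∀ H : ℕ, I k H i = Ioc (-(H : ℤ) - 1) H := by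
      intro H; simp only [I, hi, if_false]; ext t; simp only [mem_Icc, mem_Ioc]; omega
    simp_rw [e]
    apply ratio Q hQ c (fun H => -(H : ℤ) - 1) (fun H => (H : ℤ)) (fun H => by omega)
    refine tendsto_atTop_mono (f := fun H : ℕ => (H : ℝ)) ?_ hcast
    intro H; push_cast; have : (0 : ℝ) ≤ H := Nat.cast_nonneg H; linarith

theorem V_eq (k H : ℕ) : V k H = Fintype.piFinset (I k H) := rfl

theorem ratioV (Q : ℕ) (hQ : 1 ≤ Q) (k : ℕ) (c : Fin (k + 1) → ZMod Q) :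
    Tendsto (fun H : ℕ => (((V k H).filter fun a => (fun i => ((a i : ℤ) : ZMod Q)) = c).card : ℝ) /
      ((V k H).card : ℝ)) atTop (𝓝 ((1 / (Q : ℝ)) ^ (k + 1))) := by
  have e : ∀ H : ℕ, ((V k H).filter fun a => (fun i => ((a i : ℤ) : ZMod Q)) = c) =
      Fintype.piFinset (fun i => (I k H i).filter fun t : ℤ => (t : ZMod Q) = c i) := by
    intro H
    ext a
    simp only [V_eq, mem_filter, Fintype.mem_piFinset, funext_iff]
    constructor
    · rintro ⟨h1, h2⟩ i; exact ⟨h1 i, h2 i⟩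
    · intro h; exact ⟨fun i => (h i).1, fun i => (h i).2⟩
  simp_rw [e, V_eq, Fintype.card_piFinset]
  push_cast
  simp_rw [← Finset.prod_div_distrib]
  have h := tendsto_finsetProd (Finset.univ : Finset (Fin (k + 1)))
    (fun i _ => ratioI Q hQ (c i) k i)
  simpa using h

theorem main : Pool.Agent.Q20.BZ.TaskEqui := by
  intro m n Q hQ A
  have : NeZero Q := ⟨by omega⟩
  have hfib : ∀ H : ℕ, (((BX m n H).filter fun x => red Q x ∈ A).card : ℝ) / (BX m n H).card =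
      ∑ c ∈ A.toFinset,
        ((((V m H).filter fun a => (fun i => ((a i : ℤ) : ZMod Q)) = c.1).card : ℝ) / ((V m H).card : ℝ)) *
        ((((V n H).filter fun a => (fun i => ((a i : ℤ) : ZMod Q)) = c.2).card : ℝ) / ((V n H).card : ℝ)) := by
    intro H
    have h1 : ((BX m n H).filter fun x => red Q x ∈ A).card =
        ∑ c ∈ A.toFinset, (((BX m n H).filter fun x => red Q x ∈ A).filter fun x => red Q x = c).card := by
      apply Finset.card_eq_sum_card_fiberwise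
      intro x hx
      simp only [Finset.coe_filter, Set.mem_ofPred_eq] at hx
      simpa using hx.2
    have h2 : ∀ c ∈ A.toFinset, (((BX m n H).filter fun x => red Q x ∈ A).filter fun x => red Q x = c) =
        ((V m H).filter fun a => (fun i => ((a i : ℤ) : ZMod Q)) = c.1) ×ˢ
          ((V n H).filter fun a => (fun i => ((a i : ℤ) : ZMod Q)) = c.2) := by
      intro c hc
      have hc' : c ∈ A := by simpa using hc
      ext x
      simp only [mem_filter, mem_product, BX]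
      constructor
      · rintro ⟨⟨⟨hx1, hx2⟩, _⟩, hr⟩
        refine ⟨⟨hx1, ?_⟩, ⟨hx2, ?_⟩⟩
        · exact congrArg Prod.fst hr
        · exact congrArg Prod.snd hr
      · rintro ⟨⟨hx1, h1⟩, ⟨hx2, h2⟩⟩
        have hr : red Q x = c := Prod.ext h1 h2
        exact ⟨⟨⟨hx1, hx2⟩, hr ▸ hc'⟩, hr⟩
    have hBX : ((BX m n H).card : ℝ) = (V m H).card * (V n H).card := by
      simp [BX, Finset.card_product]
    rw [h1, hBX]
    push_cast
    rw [Finset.sum_div]
    apply Finset.sum_congr rfl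
    intro c hc
    rw [h2 c hc, Finset.card_product]
    push_cast
    rw [mul_div_mul_comm]
  simp_rw [hfib]
  have hlim := tendsto_finsetSum A.toFinset
    (fun c _ => (ratioV Q hQ m c.1).mul (ratioV Q hQ n c.2))
  have hval : (∑ _c ∈ A.toFinset, (1 / (Q : ℝ)) ^ (m + 1) * (1 / (Q : ℝ)) ^ (n + 1)) =
      (Nat.card A : ℝ) / (Q : ℝ) ^ (m + n + 2) := by
    rw [Finset.sum_const, nsmul_eq_mul, ← pow_add, Set.toFinset_card, ← Nat.card_eq_fintype_card]
    rw [show m + 1 + (n + 1) = m + n + 2 by ring, one_div, inv_pow, div_eq_mul_inv]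
  rw [← hval]
  exact hlim

end Pool.Agent.Q20.BZ.TaskEquiPf
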