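import Pool.Agent.Q20.BZ.Stmts

set_option autoImplicit false

/-! MP_32694d_nt: few large prime divisors. -/

namespace Pool.Agent.Q20.BZ.TaskPrimesPf

open Pool.Agent.Q20.BZ

theorem main : Pool.Agent.Q20.BZ.TaskPrimes := by
  intro H Ex D hH hD hb P hP
  -- the product divides `D`
  have hdvd : (∏ p ∈ P, p) ∣ D.natAbs := by
    refine Finset.prod_primes_dvd _ (fun p hp => (hP p hp).1.prime) fun p hp => ?_
    exact Int.natCast_dvd.1 (hP p hp).2.2
  have h1 : (∏ p ∈ P, p) ≤ D.natAbs := Nat.le_of_dvd (Int.natAbs_pos.2 hD) hdvd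
  have h2 : H ^ P.card ≤ ∏ p ∈ P, p := by
    rw [← Finset.prod_const]
    exact Finset.prod_le_prod' fun p hp => (hP p hp).2.1.le
  have h3 : D.natAbs ≤ H ^ Ex := by
    have : (D.natAbs : ℤ) ≤ (H : ℤ) ^ Ex := by rw [Int.natCast_natAbs]; exact hb
    exact_mod_cast this
  have h4 : H ^ P.card ≤ H ^ Ex := h2.trans (h1.trans h3)
  exact (Nat.pow_le_pow_iff_right (by omega)).1 h4

end Pool.Agent.Q20.BZ.TaskPrimesPf
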