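import Mathlib

set_option autoImplicit false

/-!
# Existence and uniqueness of the Bezout pair
-/

open Polynomial

namespace Pool.Agent.Q20.BZ

/-- for polynomials of positive degree without common complex zero there is exactly one Bezout pair -/
theorem exists_unique_pair (f g : ℤ[X]) (hf : 0 < f.natDegree) (hg : 0 < g.natDegree)
    (h : ∀ z : ℂ, ¬ (aeval z f = 0 ∧ aeval z g = 0)) :
    ∃! pq : ℚ[X] × ℚ[X], pq.1 * f.map (Int.castRingHom ℚ) + pq.2 * g.map (Int.castRingHom ℚ) = 1 ∧
      pq.1.degree < g.degree ∧ pq.2.degree < f.degree := by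
  set F := f.map (Int.castRingHom ℚ) with hF
  set G := g.map (Int.castRingHom ℚ) with hG
  have hinj : Function.Injective (Int.castRingHom ℚ) := Int.cast_injective
  have hFd : F.degree = f.degree := degree_map_eq_of_injective hinj f
  have hGd : G.degree = g.degree := degree_map_eq_of_injective hinj g
  have hF0 : F ≠ 0 := by
    intro h0
    rw [h0, degree_zero] at hFd
    have : f = 0 := degree_eq_bot.1 hFd.symm
    rw [this] at hf
    simp at hf
  have hG0 : G ≠ 0 := by
    intro h0
    rw [h0, degree_zero] at hGd
    have : g = 0 := degree_eq_bot.1 hGd.symm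
    rw [this] at hg
    simp at hg
  have hcop : IsCoprime F G := by
    rw [← EuclideanDomain.gcd_isUnit_iff]
    by_contra hu
    have hd0 : EuclideanDomain.gcd F G ≠ 0 := fun h0 => hF0 (EuclideanDomain.gcd_eq_zero_iff.1 h0).1
    have hdeg : (EuclideanDomain.gcd F G).degree ≠ 0 := fun h0 => hu (isUnit_iff_degree_eq_zero.2 h0)
    have hdeg' : ((EuclideanDomain.gcd F G).map (algebraMap ℚ ℂ)).degree ≠ 0 := by
      rw [degree_map]; exact hdeg
    obtain ⟨z, hz⟩ := IsAlgClosed.exists_root _ hdeg'
    have h1 : aeval z (EuclideanDomain.gcd F G) = 0 := by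
      rw [IsRoot.def, eval_map_algebraMap] at hz
      exact hz
    have key : ∀ (u : ℤ[X]), EuclideanDomain.gcd F G ∣ u.map (Int.castRingHom ℚ) → aeval z u = 0 := by
      rintro u ⟨v, hv⟩
      have h2 : aeval z (u.map (Int.castRingHom ℚ)) = 0 := by
        rw [hv, map_mul, h1, zero_mul]
      have h3 : aeval z (u.map (Int.castRingHom ℚ)) = aeval z u := by
        exact aeval_map_algebraMap ℚ z u
      rw [← h3]
      exact h2
    exact h z ⟨key f (EuclideanDomain.gcd_dvd_left F G), key g (EuclideanDomain.gcd_dvd_right F G)⟩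
  obtain ⟨a, b, hab⟩ := hcop
  -- reduce `b` modulo `F`
  have hmod : (b % F).degree < F.degree := EuclideanDomain.mod_lt b hF0
  have e1 : (a + (b / F) * G) * F + (b % F) * G = 1 := by
    have h2 := EuclideanDomain.div_add_mod b F
    calc (a + (b / F) * G) * F + (b % F) * G = a * F + (F * (b / F) + b % F) * G := by ring
      _ = 1 := by rw [h2, hab]
  have hFpos : 0 < F.degree := by
    rw [hFd]
    exact natDegree_pos_iff_degree_pos.1 hf
  have hGpos : 0 < G.degree := by
    rw [hGd]
    exact natDegree_pos_iff_degree_pos.1 hg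
  have hdeg1 : (a + (b / F) * G).degree < G.degree := by
    by_contra hcon
    push Not at hcon
    have h2 : ((b % F) * G).degree < ((a + (b / F) * G) * F).degree := by
      rw [degree_mul, degree_mul]
      rcases eq_or_ne (b % F) 0 with h0 | h0
      · rw [h0, degree_zero, WithBot.bot_add]
        have hA : a + (b / F) * G ≠ 0 := by
          intro hA
          rw [hA, degree_zero] at hcon
          exact hG0 (degree_eq_bot.1 (le_bot_iff.1 hcon))
        rw [← degree_mul]
        exact bot_lt_iff_ne_bot.2 (fun h3 => mul_ne_zero hA hF0 (degree_eq_bot.1 h3))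
      · rw [degree_eq_natDegree h0, degree_eq_natDegree hG0, degree_eq_natDegree hF0]
        rw [degree_eq_natDegree h0, degree_eq_natDegree hF0] at hmod
        have hA : a + (b / F) * G ≠ 0 := by
          intro hA
          rw [hA, degree_zero] at hcon
          exact hG0 (degree_eq_bot.1 (le_bot_iff.1 hcon))
        rw [degree_eq_natDegree hG0, degree_eq_natDegree hA] at hcon
        rw [degree_eq_natDegree hA]
        have h4 : (b % F).natDegree < F.natDegree := by exact_mod_cast hmod
        have h5 : G.natDegree ≤ (a + (b / F) * G).natDegree := by exact_mod_cast hcon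
        exact_mod_cast (by omega : (b % F).natDegree + G.natDegree < (a + (b / F) * G).natDegree + F.natDegree)
    have h3 := degree_add_eq_left_of_degree_lt h2
    rw [e1, degree_one, degree_mul] at h3
    have hA : a + (b / F) * G ≠ 0 := by
      intro hA
      rw [hA, degree_zero] at hcon
      exact hG0 (degree_eq_bot.1 (le_bot_iff.1 hcon))
    rw [degree_eq_natDegree hA, degree_eq_natDegree hF0] at h3
    rw [degree_eq_natDegree hF0] at hFpos
    have h6 : 0 < F.natDegree := by exact_mod_cast hFpos
    have h7 : (0 : ℕ) = (a + (b / F) * G).natDegree + F.natDegree := by exact_mod_cast h3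
    omega
  refine ⟨(a + (b / F) * G, b % F), ⟨e1, by rw [← hGd]; exact hdeg1, by rw [← hFd]; exact hmod⟩, ?_⟩
  rintro ⟨p, q⟩ ⟨h1, h2, h3⟩
  simp only at h1 h2 h3
  -- uniqueness
  have h4 : (p - (a + (b / F) * G)) * F = ((b % F) - q) * G := by
    linear_combination h1 - e1
  have hcop' : IsCoprime F G := ⟨a, b, hab⟩
  have h5 : F ∣ (b % F) - q := by
    have : F ∣ ((b % F) - q) * G := ⟨p - (a + (b / F) * G), by rw [← h4, mul_comm]⟩
    exact hcop'.dvd_of_dvd_mul_right this
  have h6 : ((b % F) - q).degree < F.degree := by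
    refine (degree_sub_le _ _).trans_lt (max_lt hmod ?_)
    rw [hFd]; exact h3
  have h7 : (b % F) - q = 0 := by
    by_contra h0
    exact absurd (degree_le_of_dvd h5 h0) (not_le.2 h6)
  have h8 : p - (a + (b / F) * G) = 0 := by
    rw [h7, zero_mul] at h4
    rcases mul_eq_zero.1 h4 with h9 | h9
    · exact h9
    · exact absurd h9 hF0
  ext1
  · exact sub_eq_zero.1 h8
  · exact (sub_eq_zero.1 h7).symm

end Pool.Agent.Q20.BZ
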